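import Pool.Agent.Lib.MP_c27bde_al.AF.Spec

/-!
MP_c27bde_al, AF, module AS (helper88): the induction step.
-/

set_option autoImplicit false

namespace FPT.GF.AF.ASM

open Set FPT FPT.GF FPT.GF.AF

/-- the copies of the outer parts -/
def WD (Z : Set ME) (J : Set (ℝ × ℝ)) (x : ME) (M : ℕ) : Set ME :=
  {r | ∃ p ∈ Z, p ≠ x ∧ (po J p).1 ≠ 1 ∧ ∃ m : ℤ, |m| ≤ M ∧ r = cj ((po J x).1 ^ m) (po J p)}

/-- the inner parts -/
def WJ (Z : Set ME) (J : Set (ℝ × ℝ)) : Set ME :=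
  {r | ∃ p ∈ Z, ∃ j ∈ J, Prs p.1 j ∧ (pin p j).1 ≠ 1 ∧ r = pin p j}

/-- the family obtained by the move -/
def WW (Z : Set ME) (J : Set (ℝ × ℝ)) (x : ME) (M : ℕ) : Set ME := WD Z J x M ∪ WJ Z J

theorem ft_sub (PC : SpecPC) {q p : ME} (h : Pc q p) : Ft q ⊆ Ft p := by
  rw [PC.ft q p h]
  exact inter_subset_left

theorem WD_fin {Z : Set ME} (hZ : Z.Finite) (J : Set (ℝ × ℝ)) (x : ME) (M : ℕ) :
    (WD Z J x M).Finite := by
  have h1 : (Icc (-(M : ℤ)) (M : ℤ)).Finite := Set.finite_Icc _ _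
  refine ((hZ.prod h1).image (fun z : ME × ℤ => cj ((po J x).1 ^ z.2) (po J z.1))).subset ?_
  rintro r ⟨p, hp, _, _, m, hm, rfl⟩
  exact ⟨(p, m), ⟨hp, abs_le.1 hm⟩, rfl⟩

theorem WJ_fin {Z : Set ME} (hZ : Z.Finite) {J : Set (ℝ × ℝ)} (hJ : J.Finite) :
    (WJ Z J).Finite := by
  refine ((hZ.prod hJ).image (fun z : ME × (ℝ × ℝ) => pin z.1 z.2)).subset ?_
  rintro r ⟨p, hp, j, hj, _, _, rfl⟩
  exact ⟨(p, j), ⟨hp, hj⟩, rfl⟩

theorem ft_pin (BK : SpecBK) {Z : Set ME} {J : Set (ℝ × ℝ)} (B : Blk Z J) {p : ME} (hp : p ∈ Z)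
    {j : ℝ × ℝ} (hj : j ∈ J) (hP : Prs p.1 j) {w : ℝ} (hw : (pin p j).1 w ≠ w) :
    w ∈ Ioo j.1 j.2 := by
  by_contra hc
  exact hw (BK.i2 Z J B p hp j hj hP w hc)

theorem sp_zpow (g : Hm) (m : ℤ) {a : ℝ} (ha : g a ≠ a) : g ((g ^ m) a) ≠ (g ^ m) a := by
  intro h
  apply ha
  have h1 : g ((g ^ m) a) = (g ^ m) (g a) := by
    show (g * g ^ m) a = (g ^ m * g) a
    rw [← zpow_one_add, ← zpow_add_one, add_comm]
  rw [h1] at h
  exact (g ^ m).injective h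

theorem dis_dd (PC : SpecPC) (BK : SpecBK) {Z : Set ME} {J : Set (ℝ × ℝ)} {x : ME}
    (A : Asm Z J x) {p q : ME} (hp : p ∈ Z) (hq : q ∈ Z) (hpx : p ≠ x) (hqx : q ≠ x)
    {m n : ℤ} (hne : cj ((po J x).1 ^ m) (po J p) ≠ cj ((po J x).1 ^ n) (po J q)) :
    Disjoint (Ft (cj ((po J x).1 ^ m) (po J p))) (Ft (cj ((po J x).1 ^ n) (po J q))) := by
  have hx0 : Mk (po J x) := BK.mk1 Z J A.blk x A.mem A.ne
  have N : Nice (po J x) := PC.nice _ hx0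
  rw [CJM.ft, CJM.ft]
  by_cases hmn : m = n
  · subst hmn
    have hpq : p ≠ q := by
      rintro rfl
      exact hne rfl
    refine (Set.disjoint_image_iff ((po J x).1 ^ m).injective).2 ?_
    exact (A.blk.fam.dis p hp q hq hpq).mono (ft_sub PC (BK.pc1 Z J A.blk p hp))
      (ft_sub PC (BK.pc1 Z J A.blk q hq))
  · rw [Set.disjoint_left]
    rintro w ⟨a, ha, rfl⟩ ⟨b, hb, hab⟩
    have ha' := A.td p hp hpx ha
    have hb' := A.td q hq hqx hb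
    have h1 : ((po J x).1 ^ (n - m)) b = a := by
      apply ((po J x).1 ^ m).injective
      rw [← hab]
      show ((po J x).1 ^ m * (po J x).1 ^ (n - m)) b = ((po J x).1 ^ n) b
      rw [← zpow_add]
      congr 2
      ring_nf
    have h2 := N.png b hb' (n - m) (fun h => hmn (by omega))
    rw [h1] at h2
    exact h2.2 ha'

theorem dis_dj (PC : SpecPC) (BK : SpecBK) {Z : Set ME} {J : Set (ℝ × ℝ)} {x : ME}
    (A : Asm Z J x) {p q : ME} (hp : p ∈ Z) (hq : q ∈ Z) (hpx : p ≠ x)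
    (m : ℤ) {j : ℝ × ℝ} (hj : j ∈ J) (hP : Prs q.1 j) :
    Disjoint (Ft (cj ((po J x).1 ^ m) (po J p))) (Ft (pin q j)) := by
  have hx0 : Mk (po J x) := BK.mk1 Z J A.blk x A.mem A.ne
  have N : Nice (po J x) := PC.nice _ hx0
  rw [CJM.ft, Set.disjoint_left]
  rintro w ⟨a, ha, rfl⟩ hb
  have h1 : a ∈ sp (po J x).1 := N.sub (A.td p hp hpx ha)
  have h2 := ft_pin BK A.blk hq hj hP hb.1
  exact sp_zpow (po J x).1 m h1 (A.tj j hj _ ⟨h2.1.le, h2.2.le⟩).2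

theorem dis_jj (PC : SpecPC) (BK : SpecBK) {Z : Set ME} {J : Set (ℝ × ℝ)} {x : ME}
    (A : Asm Z J x) {p q : ME} (hp : p ∈ Z) (hq : q ∈ Z)
    {i j : ℝ × ℝ} (hi : i ∈ J) (hj : j ∈ J) (hPi : Prs p.1 i) (hPj : Prs q.1 j)
    (hne : pin p i ≠ pin q j) :
    Disjoint (Ft (pin p i)) (Ft (pin q j)) := by
  by_cases hij : i = j
  · subst hij
    have hpq : p ≠ q := by
      rintro rfl
      exact hne rfl
    exact (A.blk.fam.dis p hp q hq hpq).mono (ft_sub PC (BK.pc2 Z J A.blk p hp i hi hPi))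
      (ft_sub PC (BK.pc2 Z J A.blk q hq i hj hPj))
  · rw [Set.disjoint_left]
    intro w h1 h2
    have h3 := ft_pin BK A.blk hp hi hPi h1.1
    have h4 := ft_pin BK A.blk hq hj hPj h2.1
    exact Set.disjoint_left.1 (A.blk.dj i hi j hj hij) ⟨h3.1.le, h3.2.le⟩ ⟨h4.1.le, h4.2.le⟩

theorem fam (PC : SpecPC) (BK : SpecBK) {Z : Set ME} {J : Set (ℝ × ℝ)} {x : ME}
    (A : Asm Z J x) (M : ℕ) : Fam (WW Z J x M) := by
  have hx0 : Mk (po J x) := BK.mk1 Z J A.blk x A.mem A.ne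
  refine ⟨(WD_fin A.blk.fam.fin J x M).union (WJ_fin A.blk.fam.fin A.fin), ?_, ?_⟩
  · rintro r (⟨p, hp, _, hp1, m, _, rfl⟩ | ⟨p, hp, j, hj, hP, hp1, rfl⟩)
    · exact PC.mkc _ _ (FINM.pl2.zpow _ m hx0.pl) (BK.mk1 Z J A.blk p hp hp1)
    · exact BK.mk2 Z J A.blk p hp j hj hP hp1
  · rintro r (⟨p, hp, hpx, hp1, m, _, rfl⟩ | ⟨p, hp, j, hj, hP, hp1, rfl⟩)
      r' (⟨q, hq, hqx, hq1, n, _, rfl⟩ | ⟨q, hq, k, hk, hQ, hq1, rfl⟩) hne
    · exact dis_dd PC BK A hp hq hpx hqx hne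
    · exact dis_dj PC BK A hp hq hpx m hk hQ
    · exact (dis_dj PC BK A hq hp hqx n hj hP).symm
    · exact dis_jj PC BK A hp hq hj hk hP hQ hne

theorem stp (PC : SpecPC) (BK : SpecBK) {Z : Set ME} {J : Set (ℝ × ℝ)} {x : ME}
    (A : Asm Z J x) (M : ℕ) : Stp (WW Z J x M) Z := by
  refine ⟨fam PC BK A M, x, A.mem, po J x, BK.mk1 Z J A.blk x A.mem A.ne,
    BK.pc1 Z J A.blk x A.mem, M, ?_⟩
  rintro r (⟨p, hp, hpx, hp1, m, hm, rfl⟩ | ⟨p, hp, j, hj, hP, hp1, rfl⟩)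
  · left
    exact ⟨m, hm, p, hp, po J p, BK.mk1 Z J A.blk p hp hp1, BK.pc1 Z J A.blk p hp,
      A.td p hp hpx, rfl⟩
  · right
    refine ⟨p, hp, BK.pc2 Z J A.blk p hp j hj hP, ?_⟩
    rintro w ⟨a, ha, b, hb, h1, h2⟩
    have h3 := ft_pin BK A.blk hp hj hP ha.1
    have h4 := ft_pin BK A.blk hp hj hP hb.1
    exact A.tj j hj w ⟨h3.1.le.trans h1, h2.trans h4.2.le⟩

theorem le_Hp {Z : Set ME} {J : Set (ℝ × ℝ)} {x : ME} (hx : x ∈ Z) (M : ℕ) :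
    cl (WW Z J x M) ≤ Hp Z J := by
  unfold cl
  rw [Subgroup.closure_le]
  have hpo : ∀ p ∈ Z, (po J p).1 ∈ Hp Z J := fun p hp =>
    Subgroup.subset_closure (Or.inl ⟨p, hp, rfl⟩)
  rintro g ⟨r, (⟨p, hp, _, _, m, _, rfl⟩ | ⟨p, hp, j, hj, hP, _, rfl⟩), rfl⟩
  · show (po J x).1 ^ m * (po J p).1 * ((po J x).1 ^ m)⁻¹ ∈ Hp Z J
    exact (Hp Z J).mul_mem ((Hp Z J).mul_mem ((Hp Z J).zpow_mem (hpo x hx) m) (hpo p hp))
      ((Hp Z J).inv_mem ((Hp Z J).zpow_mem (hpo x hx) m))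
  · exact Subgroup.subset_closure (Or.inr ⟨p, hp, j, hj, hP, rfl⟩)

/-- generators of the normal subgroup -/
def NN (Z : Set ME) (J : Set (ℝ × ℝ)) (x : ME) : Set Hm :=
  {g | ∃ M : ℕ, ∃ r ∈ WW Z J x M, g = r.1}

theorem WW_mono (Z : Set ME) (J : Set (ℝ × ℝ)) (x : ME) {M N : ℕ} (h : M ≤ N) :
    WW Z J x M ⊆ WW Z J x N := by
  rintro r (⟨p, hp, hpx, hp1, m, hm, rfl⟩ | hr)
  · exact Or.inl ⟨p, hp, hpx, hp1, m, hm.trans (by exact_mod_cast h), rfl⟩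
  · exact Or.inr hr

theorem NN_EA (Z : Set ME) (J : Set (ℝ × ℝ)) (x : ME)
    (hE : ∀ M : ℕ, EA ↥(cl (WW Z J x M))) : EA ↥(Subgroup.closure (NN Z J x)) := by
  classical
  apply MainM.eg.dir
  intro S0 hf hS
  have h1 : ∀ g : Hm, ∃ M : ℕ, g ∈ S0 → ∃ r ∈ WW Z J x M, g = r.1 := by
    intro g
    by_cases hg : g ∈ S0
    · obtain ⟨M, r, hr, he⟩ := hS hg
      exact ⟨M, fun _ => ⟨r, hr, he⟩⟩
    · exact ⟨0, fun h => absurd h hg⟩
  choose M hM using h1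
  refine MainM.eg.mono _ _ ?_ (hE (hf.toFinset.sup M))
  rw [Subgroup.closure_le]
  intro g hg
  obtain ⟨r, hr, he⟩ := hM g hg
  exact Subgroup.subset_closure
    ⟨r, WW_mono Z J x (Finset.le_sup (f := M) (hf.mem_toFinset.mpr hg)) hr, he⟩

theorem pin_comm (BK : SpecBK) {Z : Set ME} {J : Set (ℝ × ℝ)} {x : ME}
    (A : Asm Z J x) {p : ME} (hp : p ∈ Z) {j : ℝ × ℝ} (hj : j ∈ J) (hP : Prs p.1 j) :
    (po J x).1 * (pin p j).1 = (pin p j).1 * (po J x).1 := by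
  refine ESM.comm_of_disj _ _ ?_
  rw [Set.disjoint_left]
  intro w h1 h2
  have h3 := ft_pin BK A.blk hp hj hP h2
  exact h1 (A.tj j hj w ⟨h3.1.le, h3.2.le⟩).2

theorem NN_conj (BK : SpecBK) {Z : Set ME} {J : Set (ℝ × ℝ)} {x : ME}
    (A : Asm Z J x) (k : ℤ) : ∀ g ∈ Subgroup.closure (NN Z J x),
      (po J x).1 ^ k * g * ((po J x).1 ^ k)⁻¹ ∈ Subgroup.closure (NN Z J x) := by
  have h : Subgroup.closure (NN Z J x) ≤
      (Subgroup.closure (NN Z J x)).comap (MulAut.conj ((po J x).1 ^ k)).toMonoidHom := by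
    rw [Subgroup.closure_le]
    rintro g ⟨M, r, (⟨p, hp, hpx, hp1, m, hm, rfl⟩ | ⟨p, hp, j, hj, hP, hp1, rfl⟩), rfl⟩
    · show MulAut.conj ((po J x).1 ^ k) (cj ((po J x).1 ^ m) (po J p)).1 ∈
        Subgroup.closure (NN Z J x)
      refine Subgroup.subset_closure ⟨(k + m).natAbs, cj ((po J x).1 ^ (k + m)) (po J p),
        Or.inl ⟨p, hp, hpx, hp1, k + m, ?_, rfl⟩, ?_⟩
      · rw [Int.abs_eq_natAbs]
      · rw [MulAut.conj_apply, ESM.cj_fst, ESM.cj_fst, zpow_add]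
        group
    · show MulAut.conj ((po J x).1 ^ k) (pin p j).1 ∈ Subgroup.closure (NN Z J x)
      refine Subgroup.subset_closure ⟨M, pin p j, Or.inr ⟨p, hp, j, hj, hP, hp1, rfl⟩, ?_⟩
      have hc : Commute (po J x).1 (pin p j).1 := pin_comm BK A hp hj hP
      rw [MulAut.conj_apply, (hc.zpow_left k).eq]
      group
  intro g hg
  have := h hg
  rwa [Subgroup.mem_comap] at this

/-- `p` on finitely many blocks -/
theorem prod_pin (BK : SpecBK) {Z : Set ME} {J : Set (ℝ × ℝ)} {x : ME}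
    (A : Asm Z J x) {p : ME} (hp : p ∈ Z) (K : Finset (ℝ × ℝ)) (hK : ∀ j ∈ K, j ∈ J ∧ Prs p.1 j) :
    ∃ g ∈ Subgroup.closure (NN Z J x), (∀ w, (∀ j ∈ K, w ∉ Ioo j.1 j.2) → g w = w) ∧
      ∀ j ∈ K, ∀ w ∈ Ioo j.1 j.2, g w = p.1 w := by
  classical
  induction K using Finset.induction_on with
  | empty =>
    exact ⟨1, Subgroup.one_mem _, fun w _ => rfl, fun j hj => absurd hj (Finset.notMem_empty j)⟩
  | insert j K hjK ih =>
    obtain ⟨g, hg, h1, h2⟩ := ih (fun i hi => hK i (Finset.mem_insert_of_mem hi))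
    obtain ⟨hj, hP⟩ := hK j (Finset.mem_insert_self j K)
    have hpin : (pin p j).1 ∈ Subgroup.closure (NN Z J x) := by
      by_cases h : (pin p j).1 = 1
      · rw [h]
        exact Subgroup.one_mem _
      · exact Subgroup.subset_closure ⟨0, pin p j, Or.inr ⟨p, hp, j, hj, hP, h, rfl⟩, rfl⟩
    have hdis : ∀ w, w ∈ Ioo j.1 j.2 → ∀ i ∈ K, w ∉ Ioo i.1 i.2 := by
      intro w hw i hi hwi
      have hij : j ≠ i := by
        rintro rfl
        exact hjK hi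
      exact Set.disjoint_left.1 (A.blk.dj j hj i (hK i (Finset.mem_insert_of_mem hi)).1 hij)
        ⟨hw.1.le, hw.2.le⟩ ⟨hwi.1.le, hwi.2.le⟩
    refine ⟨g * (pin p j).1, Subgroup.mul_mem _ hg hpin, ?_, ?_⟩
    · intro w hw
      show g ((pin p j).1 w) = w
      rw [BK.i2 Z J A.blk p hp j hj hP w (hw j (Finset.mem_insert_self j K))]
      exact h1 w fun i hi => hw i (Finset.mem_insert_of_mem hi)
    · intro i hi w hw
      show g ((pin p j).1 w) = p.1 w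
      rcases Finset.mem_insert.1 hi with rfl | hi'
      · rw [BK.i1 Z J A.blk p hp i hj hP w ⟨hw.1.le, hw.2.le⟩]
        apply h1
        apply hdis
        refine ⟨?_, ?_⟩
        · rw [← hP.1]
          exact p.1.lt_iff_lt.2 hw.1
        · rw [← hP.2]
          exact p.1.lt_iff_lt.2 hw.2
      · rw [BK.i2 Z J A.blk p hp j hj hP w (fun h => hdis w h i hi' hw)]
        exact h2 i hi' w hw

theorem le_NN (BK : SpecBK) {Z : Set ME} {J : Set (ℝ × ℝ)} {x : ME}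
    (A : Asm Z J x) : cl Z ≤ Subgroup.closure (NN Z J x) ⊔ Subgroup.zpowers (po J x).1 := by
  classical
  unfold cl
  rw [Subgroup.closure_le]
  rintro _ ⟨p, hp, rfl⟩
  have hfin : {j | j ∈ J ∧ Prs p.1 j}.Finite := A.fin.subset fun j hj => hj.1
  obtain ⟨g, hg, h1, h2⟩ := prod_pin BK A hp hfin.toFinset (fun j hj => hfin.mem_toFinset.1 hj)
  have hpg : p.1 = (po J p).1 * g := by
    ext w
    show p.1 w = (po J p).1 (g w)
    by_cases hw : w ∈ Pr J p.1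
    · obtain ⟨j, hj, hP, h3, h4⟩ := hw
      rw [h2 j (hfin.mem_toFinset.2 ⟨hj, hP⟩) w ⟨h3, h4⟩]
      refine (BK.o1 Z J A.blk p hp j hj hP (p.1 w) ⟨?_, ?_⟩).symm
      · rw [← hP.1]
        exact p.1.le_iff_le.2 h3.le
      · rw [← hP.2]
        exact p.1.le_iff_le.2 h4.le
    · rw [h1 w (fun j hj h => ?_), BK.o2 Z J A.blk p hp w hw]
      obtain ⟨h3, h4⟩ := hfin.mem_toFinset.1 hj
      exact hw ⟨j, h3, h4, h.1, h.2⟩
  have hg' : g ∈ Subgroup.closure (NN Z J x) ⊔ Subgroup.zpowers (po J x).1 :=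
    (le_sup_left : Subgroup.closure (NN Z J x) ≤ _) hg
  have hpo : (po J p).1 ∈ Subgroup.closure (NN Z J x) ⊔ Subgroup.zpowers (po J x).1 := by
    by_cases hpx : p = x
    · rw [hpx]
      exact (le_sup_right : Subgroup.zpowers (po J x).1 ≤ _) (Subgroup.mem_zpowers _)
    · by_cases hp1 : (po J p).1 = 1
      · rw [hp1]
        exact Subgroup.one_mem _
      · refine (le_sup_left : Subgroup.closure (NN Z J x) ≤ _) (Subgroup.subset_closure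
          ⟨0, cj ((po J x).1 ^ (0 : ℤ)) (po J p), Or.inl ⟨p, hp, hpx, hp1, 0, by simp, rfl⟩, ?_⟩)
        rw [ESM.cj_fst]
        simp
  show p.1 ∈ Subgroup.closure (NN Z J x) ⊔ Subgroup.zpowers (po J x).1
  rw [hpg]
  exact Subgroup.mul_mem _ hpo hg'

theorem specAS (PC : SpecPC) (_OF : SpecOF) (BK : SpecBK) (SL : SpecSL) : SpecAS := by
  intro Z J x A hB hE
  have hbal : Bal (Hp Z J) := SL Z J A.blk hB
  have h1 : ∀ M : ℕ, EA ↥(cl (WW Z J x M)) := fun M =>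
    hE _ (stp PC BK A M) (fun G hG => hbal G (hG.trans (le_Hp A.mem M)))
  have h2 : EA ↥(Subgroup.closure (NN Z J x)) := NN_EA Z J x h1
  refine MainM.eg.mono _ _ (le_NN BK A) (MainM.eg.cyc _ _ ?_ ?_ h2)
  · intro g hg
    have := NN_conj BK A 1 g hg
    simpa using this
  · intro g hg
    have := NN_conj BK A (-1) g hg
    simpa using this

end FPT.GF.AF.ASM
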