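import Pool.Agent.Lib.MP_c27bde_al.AF.Spec

/-!
MP_c27bde_al, AF, module BK (helper45): basic facts on `po` and `pin`.
-/

set_option autoImplicit false

namespace FPT.GF.AF.BKM

open Set FPT FPT.GF FPT.GF.AF

theorem sep1 (g : Hm) (J : Set (ℝ × ℝ)) : Sep g (Pr J g) := by
  intro w hw v hv
  obtain ⟨j, hj, hp, h1, h2⟩ := hw
  by_cases hv1 : v ≤ j.1
  · exact ⟨j.1, mem_uIcc.2 (Or.inr ⟨hv1, h1.le⟩), hp.1⟩
  · by_cases hv2 : j.2 ≤ v
    · exact ⟨j.2, mem_uIcc.2 (Or.inl ⟨h2.le, hv2⟩), hp.2⟩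
    · exact absurd ⟨j, hj, hp, not_le.1 hv1, not_le.1 hv2⟩ hv

theorem sep2 (g : Hm) (j : ℝ × ℝ) (hp : Prs g j) : Sep g (Ioo j.1 j.2)ᶜ := by
  intro w hw v hv
  have hv' : v ∈ Ioo j.1 j.2 := by
    by_contra hc
    exact hv hc
  by_cases hw1 : w ≤ j.1
  · exact ⟨j.1, mem_uIcc.2 (Or.inl ⟨hw1, hv'.1.le⟩), hp.1⟩
  · by_cases hw2 : j.2 ≤ w
    · exact ⟨j.2, mem_uIcc.2 (Or.inr ⟨hv'.2.le, hw2⟩), hp.2⟩
    · exact absurd ⟨not_le.1 hw1, not_le.1 hw2⟩ hw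

theorem plsc (S : Set Hm) (hS : ∀ g ∈ S, IsPL g) : PLs (Subgroup.closure S) := by
  intro g hg
  induction hg using Subgroup.closure_induction with
  | mem x hx => exact hS x hx
  | one => exact FINM.plb.one
  | mul x y _ _ hx hy => exact FINM.plb.mul x y hx hy
  | inv x _ hx => exact FINM.plb.inv x hx

theorem specBK (OF : SpecOF) (PC : SpecPC) : SpecBK where
  s1 := fun Z J _ p _ => sep1 p.1 J
  s2 := fun Z J _ p _ j _ hp => sep2 p.1 j hp
  pl1 := fun Z J B p hp => OF.pl p.1 _ (sep1 p.1 J) (B.fam.mks p hp).pl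
  pl2 := fun Z J B p hp j _ hj => OF.pl p.1 _ (sep2 p.1 j hj) (B.fam.mks p hp).pl
  mk1 := fun Z J B p hp hne => OF.mkp p _ (sep1 p.1 J) (B.fam.mks p hp) hne
  mk2 := fun Z J B p hp j _ hj hne => OF.mkp p _ (sep2 p.1 j hj) (B.fam.mks p hp) hne
  pc1 := fun Z J _ p _ => OF.pc p _ (sep1 p.1 J)
  pc2 := fun Z J _ p _ j _ hj => OF.pc p _ (sep2 p.1 j hj)
  o1 := by
    intro Z J B p hp j hj hP w hw
    by_cases hm : w ∈ Pr J p.1
    · exact OF.a p.1 _ (sep1 p.1 J) w hm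
    · have h1 : (po J p).1 w = p.1 w := OF.b p.1 _ (sep1 p.1 J) w hm
      rw [h1]
      rcases eq_or_lt_of_le hw.1 with h | h
      · rw [← h]; exact hP.1
      · rcases eq_or_lt_of_le hw.2 with h' | h'
        · rw [h']; exact hP.2
        · exact absurd ⟨j, hj, hP, h, h'⟩ hm
  o2 := fun Z J _ p _ w hw => OF.b p.1 _ (sep1 p.1 J) w hw
  o3 := by
    intro Z J B p hp j hj hP w hw
    have hd : Icc j.1 j.2 ⊆ p.2 := (B.dich p hp j hj).resolve_left hP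
    have hw2 : w ∈ p.2 := hd hw
    have hn : w ∉ Pr J p.1 := by
      rintro ⟨k, hk, hPk, h1, h2⟩
      have hne : j ≠ k := by
        rintro rfl
        exact hP hPk
      exact Set.disjoint_left.1 (B.dj j hj k hk hne) hw ⟨h1.le, h2.le⟩
    have h1 : off p.1 (Pr J p.1) w = p.1 w := OF.b p.1 _ (sep1 p.1 J) w hn
    refine ⟨hw2, ?_⟩
    show off p.1 (Pr J p.1) w ≠ w
    rw [h1]
    exact (PC.nice p (B.fam.mks p hp)).sub hw2
  i1 := by
    intro Z J B p hp j hj hP w hw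
    by_cases hm : w ∈ Ioo j.1 j.2
    · exact OF.b p.1 _ (sep2 p.1 j hP) w (fun h => h hm)
    · have h1 : (pin p j).1 w = w := OF.a p.1 _ (sep2 p.1 j hP) w hm
      rw [h1]
      rcases eq_or_lt_of_le hw.1 with h | h
      · rw [← h]; exact hP.1.symm
      · rcases eq_or_lt_of_le hw.2 with h' | h'
        · rw [h']; exact hP.2.symm
        · exact absurd ⟨h, h'⟩ hm
  i2 := fun Z J _ p _ j _ hP w hw => OF.a p.1 _ (sep2 p.1 j hP) w hw
  pls := by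
    intro Z J B
    refine ⟨?_, ?_, ?_, ?_⟩
    · apply plsc
      rintro g (⟨p, hp, rfl⟩ | ⟨p, hp, j, hj, hP, rfl⟩)
      · exact OF.pl p.1 _ (sep1 p.1 J) (B.fam.mks p hp).pl
      · exact OF.pl p.1 _ (sep2 p.1 j hP) (B.fam.mks p hp).pl
    · apply plsc
      rintro g ⟨p, hp, rfl⟩
      exact OF.pl p.1 _ (sep1 p.1 J) (B.fam.mks p hp).pl
    · exact Subgroup.closure_mono (Set.subset_union_left)
    · intro j
      apply Subgroup.closure_mono
      rintro g ⟨p, hp, _, rfl⟩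
      exact ⟨p, hp, rfl⟩

end FPT.GF.AF.BKM
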