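import Pool.Agent.Lib.MP_c27bde_al.AF.Spec

/-!
Module C1 of the book AF (MP_c27bde_al): the orbital of the subgroup is inside a translate of a block.
-/

set_option autoImplicit false

namespace FPT.GF.AF.C1M

open Set FPT FPT.GF FPT.GF.AF

theorem mul_app (g h : Hm) (x : ℝ) : (g * h) x = g (h x) := rfl

theorem inv_app (g : Hm) (x : ℝ) : g⁻¹ (g x) = x := g.symm_apply_apply x

theorem app_inv (g : Hm) (x : ℝ) : g (g⁻¹ x) = x := g.apply_symm_apply x

theorem specC1 (bk : SpecBK) (pp : SpecPP) (hp : SpecHP) : SpecC1 := by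
  intro Z J B hBal G hG a b hab ha hb hmov i hi g hg hga hgb h hh h0
  have hlt := B.lt i hi
  have hplg : IsPL g := (bk.pls Z J B).2.1 g hg
  have hRi : Ri Z i ≤ cl Z := (bk.pls Z J B).2.2.2 i
  have hplZ : ∀ k ∈ cl Z, IsPL k := by
    intro k hk
    refine MainM.pls_closure _ ?_ k hk
    rintro _ ⟨p, hp', rfl⟩
    exact (B.fam.mks p hp').pl
  have hmemI : ∀ t, a ≤ t → t ≤ b → g⁻¹ t ∈ Icc i.1 i.2 := by
    intro t h1 h2
    constructor
    · rw [← inv_app g i.1]; exact (g⁻¹ : Hm).monotone (hga.trans h1)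
    · rw [← inv_app g i.2]; exact (g⁻¹ : Hm).monotone (h2.trans hgb)
  have hab' : g⁻¹ a < g⁻¹ b := (g⁻¹ : Hm).strictMono hab
  have haI := hmemI a le_rfl hab.le
  have hbI := hmemI b hab.le le_rfl
  -- the conjugate of an element of `G`
  have conj : ∀ k ∈ G, ∃ r ∈ Ri Z i, r i.1 = i.1 ∧ r i.2 = i.2 ∧
      ∀ v ∈ Icc i.1 i.2, k (g v) = g (r v) := by
    intro k hk
    obtain ⟨g', hg', r, hr, hr1, hr2, hr3⟩ := hp Z J B k (hG hk) i hi g hg
    have h1 : g' (r (g⁻¹ a)) = a := by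
      rw [← hr3 _ haI, app_inv, ha k hk]
    have hrI : r (g⁻¹ a) ∈ Icc i.1 i.2 := by
      constructor
      · have := r.monotone haI.1; rwa [hr1] at this
      · have := r.monotone haI.2; rwa [hr2] at this
    obtain ⟨_, h2⟩ := pp Z J B (g⁻¹ * g') ((Ho Z J).mul_mem ((Ho Z J).inv_mem hg) hg') i hi i hi _
      hrI (by rw [mul_app, h1]; exact haI)
    refine ⟨r, hr, hr1, hr2, fun v hv => ?_⟩
    have hrv : r v ∈ Icc i.1 i.2 := by
      constructor
      · have := r.monotone hv.1; rwa [hr1] at this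
      · have := r.monotone hv.2; rwa [hr2] at this
    have h3 := h2 (r v) hrv
    rw [mul_app] at h3
    rw [hr3 v hv, ← app_inv g (g' (r v)), h3]
  let G1 : Subgroup Hm :=
    { carrier := {r | r ∈ cl Z ∧ r i.1 = i.1 ∧ r i.2 = i.2 ∧
        ∃ k ∈ G, ∀ v ∈ Icc i.1 i.2, k (g v) = g (r v)}
      one_mem' := ⟨(cl Z).one_mem, rfl, rfl, 1, G.one_mem, fun _ _ => rfl⟩
      mul_mem' := by
        rintro x y ⟨hx, hx1, hx2, k, hk, hkx⟩ ⟨hy, hy1, hy2, k', hk', hky⟩
        refine ⟨(cl Z).mul_mem hx hy, by rw [mul_app, hy1, hx1], by rw [mul_app, hy2, hx2],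
          k * k', G.mul_mem hk hk', fun v hv => ?_⟩
        have hyv : y v ∈ Icc i.1 i.2 := by
          constructor
          · have := y.monotone hv.1; rwa [hy1] at this
          · have := y.monotone hv.2; rwa [hy2] at this
        rw [mul_app, mul_app, hky v hv, hkx _ hyv]
      inv_mem' := by
        rintro x ⟨hx, hx1, hx2, k, hk, hkx⟩
        have e1 : x⁻¹ i.1 = i.1 := by
          have := inv_app x i.1; rwa [hx1] at this
        have e2 : x⁻¹ i.2 = i.2 := by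
          have := inv_app x i.2; rwa [hx2] at this
        refine ⟨(cl Z).inv_mem hx, e1, e2, k⁻¹, G.inv_mem hk, fun v hv => ?_⟩
        have hyv : x⁻¹ v ∈ Icc i.1 i.2 := by
          constructor
          · have := (x⁻¹ : Hm).monotone hv.1; rwa [e1] at this
          · have := (x⁻¹ : Hm).monotone hv.2; rwa [e2] at this
        have h1 := hkx _ hyv
        rw [app_inv] at h1
        rw [← h1, inv_app] }
  have hG1 : ∀ r, r ∈ G1 ↔ r ∈ cl Z ∧ r i.1 = i.1 ∧ r i.2 = i.2 ∧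
        ∃ k ∈ G, ∀ v ∈ Icc i.1 i.2, k (g v) = g (r v) := fun _ => Iff.rfl
  have hG1le : G1 ≤ cl Z := fun r hr => ((hG1 r).1 hr).1
  have hG1a : ∀ r ∈ G1, r (g⁻¹ a) = g⁻¹ a := by
    intro r hr
    obtain ⟨_, _, _, k, hk, h1⟩ := (hG1 r).1 hr
    have h2 := h1 _ haI
    rw [app_inv, ha k hk] at h2
    have h3 := inv_app g (r (g⁻¹ a))
    rw [← h2] at h3
    exact h3.symm
  have hG1b : ∀ r ∈ G1, r (g⁻¹ b) = g⁻¹ b := by
    intro r hr
    obtain ⟨_, _, _, k, hk, h1⟩ := (hG1 r).1 hr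
    have h2 := h1 _ hbI
    rw [app_inv, hb k hk] at h2
    have h3 := inv_app g (r (g⁻¹ b))
    rw [← h2] at h3
    exact h3.symm
  have hG1m : ∀ u, g⁻¹ a < u → u < g⁻¹ b → ∃ r ∈ G1, r u ≠ u := by
    intro u h1 h2
    have h3 : a < g u := by
      have := g.strictMono h1
      rwa [app_inv] at this
    have h4 : g u < b := by
      have := g.strictMono h2
      rwa [app_inv] at this
    obtain ⟨k, hk, hku⟩ := hmov (g u) h3 h4
    obtain ⟨r, hr, hr1, hr2, hr3⟩ := conj k hk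
    refine ⟨r, (hG1 r).2 ⟨hRi hr, hr1, hr2, k, hk, hr3⟩, fun hc => ?_⟩
    rw [hr3 u ⟨haI.1.trans h1.le, h2.le.trans hbI.2⟩, hc] at hku
    exact hku rfl
  have hplh : IsPL h := (bk.pls Z J B).1 h (hG hh)
  obtain ⟨r, hr, hr1, hr2, hr3⟩ := conj h hh
  have hrG : r ∈ G1 := (hG1 r).2 ⟨hRi hr, hr1, hr2, h, hh, hr3⟩
  have her : er r (g⁻¹ a) = 0 := by
    obtain ⟨ε, hε, h1⟩ := FINM.pl2.er0 h a hplh (ha h hh) h0
    have h2 : a < min (a + ε) b := lt_min (by linarith) hab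
    have h3 : g⁻¹ a < g⁻¹ (min (a + ε) b) := (g⁻¹ : Hm).strictMono h2
    refine FINM.pl2.er0' r (g⁻¹ a) ⟨g⁻¹ (min (a + ε) b) - g⁻¹ a, by linarith, fun y h4 h5 => ?_⟩
    have h6 : y ≤ g⁻¹ (min (a + ε) b) := by linarith
    have h7 : a ≤ g y := by
      have := g.monotone h4
      rwa [app_inv] at this
    have h8 : g y ≤ min (a + ε) b := by
      have := g.monotone h6
      rwa [app_inv] at this
    have hyI : y ∈ Icc i.1 i.2 := by
      have := hmemI (g y) h7 (h8.trans (min_le_right _ _))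
      rwa [inv_app] at this
    have h9 := hr3 y hyI
    rw [h1 _ h7 (h8.trans (min_le_left _ _))] at h9
    exact (g.injective h9).symm
  have hel : el r (g⁻¹ b) = 0 := hBal G1 hG1le _ _ hab' hG1a hG1b hG1m r hrG her
  obtain ⟨ε, hε, h1⟩ := FINM.pl2.el0 r (g⁻¹ b) (hplZ r (hRi hr)) (hG1b r hrG) hel
  have h2 : max a (g (g⁻¹ b - ε)) < b := by
    refine max_lt hab ?_
    have : g (g⁻¹ b - ε) < g (g⁻¹ b) := g.strictMono (by linarith)
    rwa [app_inv] at this
  refine FINM.pl2.el0' h b ⟨b - max a (g (g⁻¹ b - ε)), by linarith, fun y h3 h4 => ?_⟩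
  have h5 : max a (g (g⁻¹ b - ε)) ≤ y := by linarith
  have h6 : a ≤ y := (le_max_left _ _).trans h5
  have h7 : g⁻¹ b - ε ≤ g⁻¹ y := by
    have := (g⁻¹ : Hm).monotone ((le_max_right _ _).trans h5)
    rwa [inv_app] at this
  have h8 : g⁻¹ y ≤ g⁻¹ b := (g⁻¹ : Hm).monotone h4
  have h9 := hr3 _ (hmemI y h6 h4)
  rw [app_inv, h1 _ h7 h8, app_inv] at h9
  exact h9

end FPT.GF.AF.C1M
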