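import Pool.Agent.Lib.MP_c27bde_al.AF.Spec

/-!
MP_c27bde_al, AF, module C2: an orbital which is in no translate of a block.
-/

set_option autoImplicit false

namespace FPT.GF.AF.C2M

open Set FPT FPT.GF

section

variable {Z : Set ME} {J : Set (ℝ × ℝ)}

/-- translates of blocks with a common point are equal -/
theorem tr_eq (hPP : SpecPP) (hZ : Blk Z J) {g g' : Hm} (hg : g ∈ Ho Z J) (hg' : g' ∈ Ho Z J)
    {i j : ℝ × ℝ} (hi : i ∈ J) (hj : j ∈ J) {v v' : ℝ} (hv : v ∈ Icc i.1 i.2)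
    (hv' : v' ∈ Icc j.1 j.2) (h : g v = g' v') :
    i = j ∧ ∀ t ∈ Icc i.1 i.2, g t = g' t := by
  have h1 : (g'⁻¹ * g) v = v' := by
    change g'.symm (g v) = v'
    rw [h]
    exact g'.symm_apply_apply v'
  obtain ⟨h2, h3⟩ := hPP Z J hZ (g'⁻¹ * g) (mul_mem (inv_mem hg') hg) i hi j hj v hv (h1 ▸ hv')
  refine ⟨h2, fun t ht => ?_⟩
  have h4 : g'.symm (g t) = t := h3 t ht
  rw [← g'.apply_symm_apply (g t), h4]

theorem r_mem {r : Hm} {i : ℝ × ℝ} (h1 : r i.1 = i.1) (h2 : r i.2 = i.2) {v : ℝ}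
    (hv : v ∈ Icc i.1 i.2) : r v ∈ Icc i.1 i.2 := by
  constructor
  · rw [← h1]
    exact r.monotone hv.1
  · rw [← h2]
    exact r.monotone hv.2

/-- an element of `Hp` that fixes a point of a translate fixes its end points -/
theorem tr_fix (hPP : SpecPP) (hHP : SpecHP) (hZ : Blk Z J) {k : Hm} (hk : k ∈ Hp Z J)
    {g : Hm} (hg : g ∈ Ho Z J) {i : ℝ × ℝ} (hi : i ∈ J) {v : ℝ} (hv : v ∈ Icc i.1 i.2)
    (h : k (g v) = g v) : k (g i.1) = g i.1 ∧ k (g i.2) = g i.2 := by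
  obtain ⟨g', hg', r, -, hr1, hr2, hkr⟩ := hHP Z J hZ k hk i hi g hg
  have h1 : g v = g' (r v) := by rw [← hkr v hv, h]
  obtain ⟨-, h2⟩ := tr_eq hPP hZ hg hg' hi hi hv (r_mem hr1 hr2 hv) h1
  have hlt := (hZ.lt i hi).le
  constructor
  · rw [hkr _ ⟨le_rfl, hlt⟩, hr1, h2 _ ⟨le_rfl, hlt⟩]
  · rw [hkr _ ⟨hlt, le_rfl⟩, hr2, h2 _ ⟨hlt, le_rfl⟩]

/-- a point between the end points of a translate -/
theorem ex_pre (g : Hm) {i : ℝ × ℝ} {w : ℝ} (h1 : g i.1 ≤ w) (h2 : w ≤ g i.2) :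
    ∃ v ∈ Icc i.1 i.2, g v = w := by
  refine ⟨g.symm w, ⟨?_, ?_⟩, g.apply_symm_apply w⟩
  · exact g.le_symm_apply.2 h1
  · exact g.symm_apply_le.2 h2

/-- end points of translates are in `EE` -/
theorem end_EE (hPP : SpecPP) (hZ : Blk Z J) {g : Hm} (hg : g ∈ Ho Z J) {i : ℝ × ℝ}
    (hi : i ∈ J) : g i.1 ∈ EE Z J ∧ g i.2 ∈ EE Z J := by
  have hlt := (hZ.lt i hi).le
  constructor
  · intro g' hg' j hj v hv1 hv2 h
    obtain ⟨h1, h2⟩ := tr_eq hPP hZ hg hg' hi hj ⟨le_rfl, hlt⟩ ⟨hv1.le, hv2.le⟩ h.symm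
    subst h1
    rw [h2 _ ⟨le_rfl, hlt⟩] at h
    exact hv1.ne (g'.injective h).symm
  · intro g' hg' j hj v hv1 hv2 h
    obtain ⟨h1, h2⟩ := tr_eq hPP hZ hg hg' hi hj ⟨hlt, le_rfl⟩ ⟨hv1.le, hv2.le⟩ h.symm
    subst h1
    rw [h2 _ ⟨hlt, le_rfl⟩] at h
    exact hv2.ne (g'.injective h)

/-- the group induced on `EE` -/
def G1 (hEH : SpecEH) (hZ : Blk Z J) (G : Subgroup Hm) (hG : G ≤ Hp Z J) : Subgroup Hm where
  carrier := {k | k ∈ cl Z ∧ ∃ g ∈ G, ∀ w ∈ EE Z J, k w = g w}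
  mul_mem' := by
    rintro k k' ⟨hk, g, hg, h⟩ ⟨hk', g', hg', h'⟩
    refine ⟨mul_mem hk hk', g * g', mul_mem hg hg', fun w hw => ?_⟩
    change k (k' w) = g (g' w)
    rw [h' w hw, h _ (hEH.inv Z J hZ g' (hG hg') w hw)]
  one_mem' := ⟨one_mem _, 1, one_mem _, fun _ _ => rfl⟩
  inv_mem' := by
    rintro k ⟨hk, g, hg, h⟩
    refine ⟨inv_mem hk, g⁻¹, inv_mem hg, fun w hw => ?_⟩
    have h1 : g⁻¹ w ∈ EE Z J := hEH.inv Z J hZ g⁻¹ (inv_mem (hG hg)) w hw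
    have h2 := h _ h1
    have h3 : g (g⁻¹ w) = w := g.apply_symm_apply w
    rw [h3] at h2
    have h4 : k.symm (k (g⁻¹ w)) = g⁻¹ w := k.symm_apply_apply _
    rw [h2] at h4
    exact h4

end

/-- C2: the orbital is in no translate. -/
theorem specC2 (hBK : SpecBK) (hPP : SpecPP) (hHP : SpecHP) (hEH : SpecEH) : SpecC2 := by
  intro Z J hZ hbal G hG a b hab ha hb hmov hno h hh h0
  have hPLH : PLs (Hp Z J) := (hBK.pls Z J hZ).1
  have hPLZ : PLs (cl Z) := by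
    refine GF.MainM.pls_closure _ ?_
    rintro _ ⟨p, hp, rfl⟩
    exact (hZ.fam.mks p hp).pl
  -- (1)
  have h1 : ∀ g ∈ Ho Z J, ∀ i ∈ J, ∀ w, g i.1 < w → w < g i.2 → a < w → w < b →
      a < g i.1 ∧ g i.2 < b := by
    intro g hg i hi w hw1 hw2 haw hwb
    constructor
    · by_contra hcon
      have hc : g i.1 ≤ a := not_lt.1 hcon
      obtain ⟨v, hv, hgv⟩ := ex_pre g hc (haw.trans hw2).le
      have hd : g i.2 < b := by
        by_contra hd
        exact hno i hi g hg ⟨hc, not_lt.1 hd⟩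
      obtain ⟨k, hk, hk'⟩ := hmov (g i.2) (haw.trans hw2) hd
      exact hk' (tr_fix hPP hHP hZ (hG hk) hg hi hv (by rw [hgv, ha k hk])).2
    · by_contra hcon
      have hd : b ≤ g i.2 := not_lt.1 hcon
      obtain ⟨v, hv, hgv⟩ := ex_pre g (hw1.trans hwb).le hd
      have hc : a < g i.1 := by
        by_contra hc
        exact hno i hi g hg ⟨not_lt.1 hc, hd⟩
      obtain ⟨k, hk, hk'⟩ := hmov (g i.1) hc (hw1.trans hwb)
      exact hk' (tr_fix hPP hHP hZ (hG hk) hg hi hv (by rw [hgv, hb k hk])).1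
  -- (2)
  have haE : a ∈ EE Z J := by
    intro g hg j hj v hv1 hv2 hgv
    have hc : g j.1 < a := by rw [← hgv]; exact g.strictMono hv1
    have hd : a < g j.2 := by rw [← hgv]; exact g.strictMono hv2
    obtain ⟨w, hw1, hw2⟩ := exists_between (lt_min hab hd)
    have h2 := (h1 g hg j hj w (hc.trans hw1) (hw2.trans_le (min_le_right _ _)) hw1
      (hw2.trans_le (min_le_left _ _))).1
    exact absurd h2 hc.not_gt
  have hbE : b ∈ EE Z J := by
    intro g hg j hj v hv1 hv2 hgv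
    have hc : g j.1 < b := by rw [← hgv]; exact g.strictMono hv1
    have hd : b < g j.2 := by rw [← hgv]; exact g.strictMono hv2
    obtain ⟨w, hw1, hw2⟩ := exists_between (max_lt hab hc)
    have h2 := (h1 g hg j hj w ((le_max_right _ _).trans_lt hw1) (hw2.trans hd)
      ((le_max_left _ _).trans_lt hw1) hw2).2
    exact absurd h2 hd.not_gt
  have h2 : ∀ w, a < w → w < b → w ∈ EE Z J ∨ ∃ g ∈ Ho Z J, ∃ j ∈ J,
      a < g j.1 ∧ g j.1 < w ∧ w < g j.2 ∧ g j.2 < b := by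
    intro w haw hwb
    by_cases hw : w ∈ EE Z J
    · exact Or.inl hw
    · right
      unfold EE at hw
      rw [Set.mem_ofPred_eq] at hw
      push Not at hw
      obtain ⟨g, hg, j, hj, v, hv1, hv2, hgv⟩ := hw
      have hc : g j.1 < w := by rw [← hgv]; exact g.strictMono hv1
      have hd : w < g j.2 := by rw [← hgv]; exact g.strictMono hv2
      obtain ⟨h3, h4⟩ := h1 g hg j hj w hc hd haw hwb
      exact ⟨g, hg, j, hj, h3, hc, hd, h4⟩
  -- (3)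
  have h3 : ∀ k ∈ G1 hEH hZ G hG, k a = a := by
    rintro k ⟨-, g, hg, h4⟩
    rw [h4 a haE, ha g hg]
  have h4 : ∀ k ∈ G1 hEH hZ G hG, k b = b := by
    rintro k ⟨-, g, hg, h4⟩
    rw [h4 b hbE, hb g hg]
  have h5 : ∀ u, a < u → u < b → ∃ k ∈ G1 hEH hZ G hG, k u ≠ u := by
    intro u hau hub
    rcases h2 u hau hub with hu | ⟨g₀, hg₀, j, hj, hac, hcu, hud, hdb⟩
    · obtain ⟨g, hg, hgu⟩ := hmov u hau hub
      obtain ⟨k, hk, hk'⟩ := hEH.ag Z J hZ g (hG hg)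
      refine ⟨k, ⟨hk, g, hg, fun w hw => (hk' w hw).symm⟩, ?_⟩
      rw [← hk' u hu]
      exact hgu
    · obtain ⟨g, hg, hgc⟩ := hmov (g₀ j.1) hac (hcu.trans hub)
      obtain ⟨k, hk, hk'⟩ := hEH.ag Z J hZ g (hG hg)
      refine ⟨k, ⟨hk, g, hg, fun w hw => (hk' w hw).symm⟩, fun hku => ?_⟩
      obtain ⟨hE1, hE2⟩ := end_EE hPP hZ hg₀ hj
      have h6 : g (g₀ j.1) < u := by
        rw [hk' _ hE1, ← hku]
        exact k.strictMono hcu
      have h7 : u < g (g₀ j.2) := by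
        rw [hk' _ hE2]
        calc u = k u := hku.symm
          _ < k (g₀ j.2) := k.strictMono hud
      obtain ⟨g', hg', r, -, hr1, hr2, hgr⟩ := hHP Z J hZ g (hG hg) j hj g₀ hg₀
      have hlt := (hZ.lt j hj).le
      have h8 : g (g₀ j.1) = g' j.1 := by rw [hgr _ ⟨le_rfl, hlt⟩, hr1]
      have h9 : g (g₀ j.2) = g' j.2 := by rw [hgr _ ⟨hlt, le_rfl⟩, hr2]
      obtain ⟨v, hv, hgv⟩ := ex_pre g₀ hcu.le hud.le
      obtain ⟨v', hv', hgv'⟩ := ex_pre g' (h8 ▸ h6.le) (h9 ▸ h7.le)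
      obtain ⟨-, h10⟩ := tr_eq hPP hZ hg₀ hg' hj hj hv hv' (hgv.trans hgv'.symm)
      refine hgc ?_
      rw [h8, h10 _ ⟨le_rfl, hlt⟩]
  -- (4)
  obtain ⟨k, hk, hk'⟩ := hEH.ag Z J hZ h (hG hh)
  have hk1 : k ∈ G1 hEH hZ G hG := ⟨hk, h, hh, fun w hw => (hk' w hw).symm⟩
  have hPLh := hPLH h (hG hh)
  have hPLk := hPLZ k hk
  have h6 : er k a = 0 := by
    by_contra hne
    obtain ⟨v, hv, H⟩ := GF.TRM.movR k a hPLk (h3 k hk1) hne
    obtain ⟨ε, hε, H'⟩ := FINM.pl2.er0 h a hPLh (ha h hh) h0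
    obtain ⟨w, hw1, hw2⟩ := exists_between (lt_min (lt_min hv hab) (show a < a + ε by linarith))
    have hwv : w < v := hw2.trans_le ((min_le_left _ _).trans (min_le_left _ _))
    have hwb : w < b := hw2.trans_le ((min_le_left _ _).trans (min_le_right _ _))
    have hwe : w < a + ε := hw2.trans_le (min_le_right _ _)
    rcases h2 w hw1 hwb with hw | ⟨g₀, hg₀, j, hj, hac, hcw, -, -⟩
    · refine H w hw1 hwv ?_
      rw [← hk' w hw]
      exact H' w hw1.le hwe.le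
    · refine H (g₀ j.1) hac (hcw.trans hwv) ?_
      rw [← hk' _ (end_EE hPP hZ hg₀ hj).1]
      exact H' _ hac.le (hcw.trans hwe).le
  have h7 : el k b = 0 := hbal (G1 hEH hZ G hG) (fun x hx => hx.1) a b hab h3 h4 h5 k hk1 h6
  by_contra hne
  obtain ⟨v, hv, H⟩ := GF.TRM.movL h b hPLh (hb h hh) hne
  obtain ⟨ε, hε, H'⟩ := FINM.pl2.el0 k b hPLk (h4 k hk1) h7
  obtain ⟨w, hw1, hw2⟩ := exists_between (max_lt (max_lt hv hab) (show b - ε < b by linarith))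
  have hvw : v < w := ((le_max_left _ _).trans (le_max_left _ _)).trans_lt hw1
  have haw : a < w := ((le_max_right _ _).trans (le_max_left _ _)).trans_lt hw1
  have hew : b - ε < w := (le_max_right _ _).trans_lt hw1
  rcases h2 w haw hw2 with hw | ⟨g₀, hg₀, j, hj, -, -, hwd, hdb⟩
  · refine H w hvw hw2 ?_
    rw [hk' w hw]
    exact H' w hew.le hw2.le
  · refine H (g₀ j.2) (hvw.trans hwd) hdb ?_
    rw [hk' _ (end_EE hPP hZ hg₀ hj).2]
    exact H' _ (hew.trans hwd).le hdb.le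

end FPT.GF.AF.C2M
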