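import Pool.Agent.Lib.MP_c27bde_al.AF.Spec

/-!
Module CO of the book AF (MP_c27bde_al, helper17): every play is finite.
`Stp W Z`: `W` is obtained from `Z` by a move; the theorem says `Acc Stp Z` for every family `Z`.
The double induction of `GF/CO.lean` with pieces and symmetric labels.
-/

set_option autoImplicit false

namespace FPT.GF.AF.COM

open Set FPT FPT.GF FPT.GF.AF Relation

/-- the labels between the two families are at most `c` -/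
def Cross (c : ℕ) (Z Y : Set ME) : Prop := ∀ z ∈ Z, ∀ y ∈ Y, Lb c (Ft z) (Ft y)

theorem Cross.symm (lc : SpecLC) {c : ℕ} {Z Y : Set ME} (h : Cross c Z Y) : Cross c Y Z :=
  fun y hy z hz => lc.symm _ _ _ (h z hz y hy)

theorem Cross.mono (lc : SpecLC) {c d : ℕ} (hcd : c ≤ d) {Z Y : Set ME} (h : Cross c Z Y) :
    Cross d Z Y :=
  fun z hz y hy => lc.mono _ _ _ _ hcd (h z hz y hy)

theorem fam_sub {Z W : Set ME} (h : Fam Z) (hs : W ⊆ Z) : Fam W :=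
  ⟨h.fin.subset hs, fun p hp => h.mks p (hs hp), fun p hp q hq => h.dis p (hs hp) q (hs hq)⟩

theorem ft_sub (pc : SpecPC) {q p : ME} (h : Pc q p) : Ft q ⊆ Ft p := by
  rw [pc.ft q p h]
  exact inter_subset_left

/-! ### Passing to pieces -/

theorem cj_inv (x : Hm) (m : ℤ) (r : ME) : cj (x ^ m) (cj (x ^ (-m)) r) = r := by
  rw [MainM.cj'.comp, ← zpow_add, add_neg_cancel, zpow_zero, MainM.cj'.one]

theorem cj_inv' (x : Hm) (m : ℤ) (r : ME) : cj (x ^ (-m)) (cj (x ^ m) r) = r := by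
  rw [MainM.cj'.comp, ← zpow_add, neg_add_cancel, zpow_zero, MainM.cj'.one]

theorem stp_sub_l (pc : SpecPC) {W' W Z : Set ME} (h : Sub W' W) (hs : Stp W Z) : Stp W' Z := by
  obtain ⟨_, x, hx, x0, hx0, hxp, M, hr⟩ := hs
  refine ⟨h.fam, x, hx, x0, hx0, hxp, M, fun r hrW => ?_⟩
  obtain ⟨p, hp, hrp⟩ := h.pc r hrW
  have hMr : Mk r := h.fam.mks r hrW
  rcases hr p hp with ⟨m, hm, p1, hp1, q, _, hqp, hin, he⟩ | ⟨p1, hp1, hpp, hJ⟩
  · left
    have h1 : Pc (cj (x0.1 ^ (-m)) r) q := by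
      have h2 := pc.conj (x0.1 ^ (-m)) r p hrp
      rw [he, cj_inv'] at h2
      exact h2
    refine ⟨m, hm, p1, hp1, cj (x0.1 ^ (-m)) r, ?_, pc.trans _ _ _ hqp h1, ?_, ?_⟩
    · exact pc.mkc _ _ (FINM.pl2.zpow _ _ hx0.pl) hMr
    · exact (ft_sub pc h1).trans hin
    · rw [cj_inv]
  · right
    refine ⟨p1, hp1, pc.trans _ _ _ hpp hrp, fun w hw => hJ w ?_⟩
    exact LBM.cv_mono (ft_sub pc hrp) hw

theorem stp_sub_r (pc : SpecPC) {W Z' Z : Set ME} (h : Sub Z' Z) (hs : Stp W Z') : Stp W Z := by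
  obtain ⟨hW, x, hx, x0, hx0, hxp, M, hr⟩ := hs
  obtain ⟨x1, hx1, hxx⟩ := h.pc x hx
  refine ⟨hW, x1, hx1, x0, hx0, pc.trans _ _ _ hxx hxp, M, fun r hrW => ?_⟩
  rcases hr r hrW with ⟨m, hm, p, hp, q, hq, hqp, hin, he⟩ | ⟨p, hp, hpp, hJ⟩
  · obtain ⟨p1, hp1, hp1'⟩ := h.pc p hp
    exact Or.inl ⟨m, hm, p1, hp1, q, hq, pc.trans _ _ _ hp1' hqp, hin, he⟩
  · obtain ⟨p1, hp1, hp1'⟩ := h.pc p hp
    exact Or.inr ⟨p1, hp1, pc.trans _ _ _ hp1' hpp, hJ⟩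

theorem sub_of_subset (pc : SpecPC) {Z W : Set ME} (h : Fam Z) (hs : W ⊆ Z) : Sub W Z :=
  ⟨fam_sub h hs, fun r hr => ⟨r, hs hr, pc.refl r (h.mks r (hs hr))⟩⟩

theorem acc_sub (pc : SpecPC) {Z Z' : Set ME} (hs : Sub Z' Z) (ha : Acc Stp Z) : Acc Stp Z' :=
  Acc.intro _ fun _ hW => ha.inv (stp_sub_r pc hs hW)

theorem tg_sub (pc : SpecPC) {W Z Z' : Set ME} (hs : Sub Z' Z) (hp : TransGen Stp W Z') :
    TransGen Stp W Z := by
  cases hp with
  | single h => exact TransGen.single (stp_sub_r pc hs h)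
  | tail h1 h2 => exact h1.tail (stp_sub_r pc hs h2)

/-! ### Conjugation -/

theorem cj_cj_pow (h : Hm) (x p : ME) (m : ℤ) :
    cj h (cj (x.1 ^ m) p) = cj ((cj h x).1 ^ m) (cj h p) := by
  have e : h * x.1 ^ m = (cj h x).1 ^ m * h := by
    show h * x.1 ^ m = (h * x.1 * h⁻¹) ^ m * h
    rw [conj_zpow, inv_mul_cancel_right]
  rw [MainM.cj'.comp, MainM.cj'.comp, e]

theorem im_im (h k : Hm) (hk : h * k = 1) (Z : Set ME) :
    cj h '' (cj k '' Z) = Z := by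
  rw [← image_comp]
  have : cj h ∘ cj k = id := by
    funext p
    simp [MainM.cj'.comp, hk, MainM.cj'.one]
  rw [this, image_id]

theorem stp_cj (pc : SpecPC) (h : Hm) (hh : IsPL h) {W Z : Set ME} (hs : Stp W Z) :
    Stp (cj h '' W) (cj h '' Z) := by
  obtain ⟨hW, x, hx, x0, hx0, hxp, M, hr⟩ := hs
  refine ⟨pc.famc h W hh hW, cj h x, mem_image_of_mem _ hx, cj h x0, pc.mkc h x0 hh hx0,
    pc.conj h x0 x hxp, M, ?_⟩
  rintro _ ⟨r, hrW, rfl⟩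
  rcases hr r hrW with ⟨m, hm, p, hp, q, hq, hqp, hin, he⟩ | ⟨p, hp, hpp, hJ⟩
  · left
    refine ⟨m, hm, cj h p, mem_image_of_mem _ hp, cj h q, pc.mkc h q hh hq, pc.conj h q p hqp,
      (MainM.cj'.ins h x0 q).2 hin, ?_⟩
    rw [he, cj_cj_pow]
  · right
    refine ⟨cj h p, mem_image_of_mem _ hp, pc.conj h r p hpp, ?_⟩
    intro w hw
    rw [MainM.cj'.ft, MainM.cj'.cv'] at hw
    obtain ⟨v, hv, rfl⟩ := hw
    obtain ⟨h1, h2⟩ := hJ v hv
    refine ⟨?_, ?_⟩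
    · rw [MainM.cj'.ft, MainM.cj'.cv']
      exact mem_image_of_mem _ h1
    · show (h * x0.1 * h⁻¹) (h v) = h v
      rw [CJM.conj_app, h2]

theorem tg_cj (pc : SpecPC) (h : Hm) (hh : IsPL h) {W Z : Set ME} (hp : TransGen Stp W Z) :
    TransGen Stp (cj h '' W) (cj h '' Z) :=
  TransGen.lift (fun Z : Set ME => cj h '' Z) (fun _ _ hab => stp_cj pc h hh hab) _ _ hp

theorem acc_cj (pc : SpecPC) (h : Hm) (hh : IsPL h) {Z : Set ME} (ha : Acc Stp Z) :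
    Acc Stp (cj h '' Z) := by
  induction ha with
  | intro Z _ ih =>
    refine Acc.intro _ fun W hW => ?_
    have h1 := stp_cj pc h⁻¹ (FINM.plb.inv h hh) hW
    rw [im_im _ _ (inv_mul_cancel h)] at h1
    have h2 := ih _ h1
    rwa [im_im _ _ (mul_inv_cancel h)] at h2

theorem acc_of_tg {W : Set ME} (h : Acc (TransGen Stp) W) : Acc Stp W := by
  induction h with
  | intro W _ ih => exact Acc.intro _ fun V hV => ih V (TransGen.single hV)

theorem cross_cj (lc : SpecLC) (h : Hm) {c : ℕ} {Z Y : Set ME} (hc : Cross c Z Y) :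
    Cross c (cj h '' Z) (cj h '' Y) := by
  rintro _ ⟨z, hz, rfl⟩ _ ⟨y, hy, rfl⟩
  rw [MainM.cj'.ft, MainM.cj'.ft, lc.im]
  exact hc z hz y hy

/-! ### The classes of a move -/

/-- the elements of `W` of type D with exponent `m` and source in `F` -/
def DD (W : Set ME) (x0 : ME) (m : ℤ) (F : Set ME) : Set ME := {r | r ∈ W ∧ r ∈ TD x0 m F}

/-- the elements of `W` of type J with source in `F` -/
def DJ (W : Set ME) (x0 : ME) (F : Set ME) : Set ME := {r | r ∈ W ∧ r ∈ TJ x0 F}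

theorem dd_sub (pc : SpecPC) {W : Set ME} (hW : Fam W) (x0 : ME) (m : ℤ) (F : Set ME) :
    Sub (DD W x0 m F) (cj (x0.1 ^ m) '' F) := by
  refine ⟨fam_sub hW fun r hr => hr.1, ?_⟩
  rintro r ⟨_, p, hp, q, _, hqp, _, rfl⟩
  exact ⟨_, mem_image_of_mem _ hp, pc.conj _ _ _ hqp⟩

theorem dj_sub {W : Set ME} (hW : Fam W) (x0 : ME) (F : Set ME) : Sub (DJ W x0 F) F := by
  refine ⟨fam_sub hW fun r hr => hr.1, ?_⟩
  rintro r ⟨_, p, hp, hrp, _⟩
  exact ⟨p, hp, hrp⟩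

section

variable {c : ℕ} {W F G : Set ME} {x x0 : ME}

theorem cr_same (pc : SpecPC) (lc : SpecLC) (h : Cross c F G) (m : ℤ) :
    Cross c (DD W x0 m F) (DD W x0 m G) := by
  rintro _ ⟨_, p, hp, q, _, hqp, _, rfl⟩ _ ⟨_, p', hp', q', _, hqp', _, rfl⟩
  rw [MainM.cj'.ft, MainM.cj'.ft, lc.im]
  exact lc.sub _ _ _ _ _ (ft_sub pc hqp) (ft_sub pc hqp') (h p hp p' hp')

theorem cr_diff (pc : SpecPC) (lc : SpecLC) (hx0 : Mk x0) (hx : Pc x0 x)
    (hF : ∀ p ∈ F, Lb (c + 1) (Ft x) (Ft p)) (hG : ∀ p ∈ G, Lb (c + 1) (Ft x) (Ft p))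
    {m m' : ℤ} (hm : m ≠ m') : Cross c (DD W x0 m F) (DD W x0 m' G) := by
  rintro _ ⟨_, p, hp, q, _, hqp, hi, rfl⟩ _ ⟨_, p', hp', q', _, hqp', hi', rfl⟩
  exact lc.dd x0 q q' hx0 hi hi' m m' hm c
    (lc.sub _ _ _ _ _ (ft_sub pc hx) (ft_sub pc hqp) (hF p hp))
    (lc.sub _ _ _ _ _ (ft_sub pc hx) (ft_sub pc hqp') (hG p' hp'))

theorem cr_diff' (pc : SpecPC) (lc : SpecLC) (hx0 : Mk x0) (hx : Pc x0 x)
    (hF : ∀ p ∈ F, Lb (c + 1) (Ft x) (Ft p)) {m m' : ℤ} (hm : m ≠ m') :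
    Cross (c + 1) (DD W x0 m F) (DD W x0 m' G) := by
  rintro _ ⟨_, p, hp, q, _, hqp, hi, rfl⟩ _ ⟨_, p', hp', q', _, hqp', hi', rfl⟩
  exact lc.dd' x0 q q' hx0 hi hi' m m' hm c
    (lc.sub _ _ _ _ _ (ft_sub pc hx) (ft_sub pc hqp) (hF p hp))

theorem cr_dj (pc : SpecPC) (lc : SpecLC) (hc : 1 ≤ c) (hx0 : Mk x0) (hx : Pc x0 x)
    (hF : ∀ p ∈ F, Lb (c + 1) (Ft x) (Ft p)) (m : ℤ) :
    Cross c (DD W x0 m F) (DJ W x0 G) := by
  rintro _ ⟨_, p, hp, q, _, hqp, hi, rfl⟩ r ⟨_, _, _, _, hJ⟩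
  exact lc.dj x0 q r hx0 hi (fun w hw => (hJ w hw).2) m c hc
    (lc.sub _ _ _ _ _ (ft_sub pc hx) (ft_sub pc hqp) (hF p hp))

theorem cr_dj' (lc : SpecLC) (hc : 1 ≤ c) (hx0 : Mk x0) (m : ℤ) :
    Cross (c + 1) (DD W x0 m F) (DJ W x0 G) := by
  rintro _ ⟨_, p, hp, q, _, hqp, hi, rfl⟩ r ⟨_, _, _, _, hJ⟩
  exact lc.mono 2 (c + 1) _ _ (by omega) (lc.dj' x0 q r hx0 hi (fun w hw => (hJ w hw).2) m)

theorem cr_jj (pc : SpecPC) (lc : SpecLC) (h : Cross c F G) :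
    Cross c (DJ W x0 F) (DJ W x0 G) := by
  rintro r ⟨_, p, hp, hrp, _⟩ r' ⟨_, p', hp', hrp', _⟩
  exact lc.sub _ _ _ _ _ (ft_sub pc hrp) (ft_sub pc hrp') (h p hp p' hp')

end

/-- the exponents of a move -/
abbrev Ex (M : ℕ) : Type := {m : ℤ // |m| ≤ M}

instance (M : ℕ) : Finite (Ex M) := by
  have h : {m : ℤ | |m| ≤ M} ⊆ Icc (-(M : ℤ)) M := fun m hm => abs_le.1 hm
  exact (Set.finite_Icc _ _).subset h

/-- the elements of `W` with source in `F` -/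
def Src (W : Set ME) (x0 : ME) (M : ℕ) (F : Set ME) : Set ME :=
  {r | r ∈ W ∧ ((∃ m : ℤ, |m| ≤ M ∧ r ∈ TD x0 m F) ∨ r ∈ TJ x0 F)}

/-- the class with index `o` -/
def Cs (W : Set ME) (x0 : ME) (M : ℕ) (F : Set ME) : Option (Ex M) → Set ME
  | some m => DD W x0 m.1 F
  | none => DJ W x0 F

theorem src_eq (W : Set ME) (x0 : ME) (M : ℕ) (F : Set ME) :
    Src W x0 M F = ⋃ o : Option (Ex M), Cs W x0 M F o := by
  ext r
  rw [mem_iUnion]
  constructor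
  · rintro ⟨h, ⟨m, hm, hr⟩ | hr⟩
    · exact ⟨some ⟨m, hm⟩, h, hr⟩
    · exact ⟨none, h, hr⟩
  · rintro ⟨o, ho⟩
    cases o with
    | some m => exact ⟨ho.1, Or.inl ⟨m.1, m.2, ho.2⟩⟩
    | none => exact ⟨ho.1, Or.inr ho.2⟩

theorem td_union (x0 : ME) (m : ℤ) (F G : Set ME) : TD x0 m (F ∪ G) ⊆ TD x0 m F ∪ TD x0 m G := by
  rintro r ⟨p, hp | hp, h⟩
  · exact Or.inl ⟨p, hp, h⟩
  · exact Or.inr ⟨p, hp, h⟩

theorem tj_union (x0 : ME) (F G : Set ME) : TJ x0 (F ∪ G) ⊆ TJ x0 F ∪ TJ x0 G := by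
  rintro r ⟨p, hp | hp, h⟩
  · exact Or.inl ⟨p, hp, h⟩
  · exact Or.inr ⟨p, hp, h⟩

theorem src_union (W : Set ME) (x0 : ME) (M : ℕ) (F G : Set ME) (hW : W = Src W x0 M (F ∪ G)) :
    W = Src W x0 M F ∪ Src W x0 M G := by
  apply Subset.antisymm
  · intro r hr
    have h1 : r ∈ Src W x0 M (F ∪ G) := hW ▸ hr
    rcases h1.2 with ⟨m, hm, h⟩ | h
    · rcases td_union x0 m F G h with h | h
      · exact Or.inl ⟨hr, Or.inl ⟨m, hm, h⟩⟩
      · exact Or.inr ⟨hr, Or.inl ⟨m, hm, h⟩⟩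
    · rcases tj_union x0 F G h with h | h
      · exact Or.inl ⟨hr, Or.inr h⟩
      · exact Or.inr ⟨hr, Or.inr h⟩
  · rintro r (h | h)
    · exact h.1
    · exact h.1

theorem src_iUnion {ι : Type} (W : Set ME) (x0 : ME) (M : ℕ) (F : ι → Set ME) :
    Src W x0 M (⋃ i, F i) = ⋃ k : ι × Option (Ex M), Cs W x0 M (F k.1) k.2 := by
  ext r
  rw [mem_iUnion]
  constructor
  · rintro ⟨h, ⟨m, hm, p, hp, hr⟩ | ⟨p, hp, hr⟩⟩
    · obtain ⟨i, hi⟩ := mem_iUnion.1 hp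
      exact ⟨(i, some ⟨m, hm⟩), h, p, hi, hr⟩
    · obtain ⟨i, hi⟩ := mem_iUnion.1 hp
      exact ⟨(i, none), h, p, hi, hr⟩
  · rintro ⟨⟨i, o⟩, ho⟩
    cases o with
    | some m =>
      obtain ⟨h, p, hp, hr⟩ := ho
      exact ⟨h, Or.inl ⟨m.1, m.2, p, mem_iUnion.2 ⟨i, hp⟩, hr⟩⟩
    | none =>
      obtain ⟨h, p, hp, hr⟩ := ho
      exact ⟨h, Or.inr ⟨p, mem_iUnion.2 ⟨i, hp⟩, hr⟩⟩

theorem src_stp {W : Set ME} (hW : Fam W) {x x0 : ME} {F : Set ME} (hx : x ∈ F) (hx0 : Mk x0)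
    (hxp : Pc x0 x) (M : ℕ) : Stp (Src W x0 M F) F :=
  ⟨fam_sub hW fun _ h => h.1, x, hx, x0, hx0, hxp, M, fun _ h => h.2⟩

/-! ### The double induction -/

/-- the statement `S(c)` -/
def SS (c : ℕ) : Prop := ∀ (ι : Type) [Finite ι] (F : ι → Set ME), Fam (⋃ i, F i) →
  (∀ i, Acc Stp (F i)) → (∀ i j, i ≠ j → Cross c (F i) (F j)) → Acc Stp (⋃ i, F i)

theorem ss_one (pc : SpecPC) (lc : SpecLC) : SS 1 := by
  intro ι _ F hG hA hC
  refine Acc.intro _ fun W hW => ?_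
  obtain ⟨hWf, x, hx, x0, hx0, hxp, M, hr⟩ := hW
  obtain ⟨i, hi⟩ := mem_iUnion.1 hx
  refine (hA i).inv ⟨hWf, x, hi, x0, hx0, hxp, M, fun r hrW => ?_⟩
  have hNx : Nice x := pc.nice x (hG.mks x hx)
  have hN0 : Nice x0 := pc.nice x0 hx0
  have key : ∀ j, ∀ p ∈ F j, ∀ w, w ∈ Ft p → w ∈ cv (Ft x) → j = i := by
    intro j p hp w h1 h2
    by_contra hji
    exact lc.one _ _ (hC i j (Ne.symm hji) x hi p hp) w h2 (LBM.sub_cv _ h1)
  rcases hr r hrW with ⟨m, hm, p, hp, q, hq, hqp, hin, he⟩ | ⟨p, hp, hpp, hJ⟩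
  · obtain ⟨j, hj⟩ := mem_iUnion.1 hp
    obtain ⟨w, hw⟩ := (pc.nice q hq).ne
    have h1 : j = i := by
      refine key j p hj w (ft_sub pc hqp hw) ?_
      exact hNx.hul (pc.sp _ _ hxp (hN0.sub (hin hw)))
    subst h1
    exact Or.inl ⟨m, hm, p, hj, q, hq, hqp, hin, he⟩
  · obtain ⟨j, hj⟩ := mem_iUnion.1 hp
    obtain ⟨w, hw⟩ := (pc.nice r (hWf.mks r hrW)).ne
    have h1 : j = i := by
      refine key j p hj w (ft_sub pc hpp hw) ?_
      exact LBM.cv_mono (ft_sub pc hxp) (hJ w (LBM.sub_cv _ hw)).1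
    subst h1
    exact Or.inr ⟨p, hj, hpp, hJ⟩

/-- `c`-good families -/
def CG (c : ℕ) (Z : Set ME) : Prop := ∀ Y, Acc Stp Y → Fam (Z ∪ Y) → Cross (c + 1) Z Y →
  Acc Stp (Z ∪ Y)

theorem cg_cj (pc : SpecPC) (lc : SpecLC) {c : ℕ} (h : Hm) (hh : IsPL h) {Z : Set ME}
    (hz : CG c Z) : CG c (cj h '' Z) := by
  intro Y hY hG hC
  have hh' : IsPL h⁻¹ := FINM.plb.inv h hh
  have e : cj h⁻¹ '' (cj h '' Z) = Z := im_im _ _ (inv_mul_cancel h) Z
  have h1 : Fam (Z ∪ cj h⁻¹ '' Y) := by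
    have := pc.famc h⁻¹ _ hh' hG
    rwa [image_union, e] at this
  have h2 : Cross (c + 1) Z (cj h⁻¹ '' Y) := by
    have := cross_cj lc h⁻¹ hC
    rwa [e] at this
  have h3 := acc_cj pc h hh (hz _ (acc_cj pc h⁻¹ hh' hY) h1 h2)
  rwa [image_union, im_im _ _ (mul_inv_cancel h)] at h3

/-- families such that everything below is `c`-good -/
def Like (c : ℕ) (Z : Set ME) : Prop := Acc Stp Z ∧ ∀ W, TransGen Stp W Z → CG c W

theorem like_sub (pc : SpecPC) {c : ℕ} {Z Z' : Set ME} (hs : Sub Z' Z) (hl : Like c Z) :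
    Like c Z' :=
  ⟨acc_sub pc hs hl.1, fun W hW => hl.2 W (tg_sub pc hs hW)⟩

theorem like_cj (pc : SpecPC) (lc : SpecLC) {c : ℕ} (h : Hm) (hh : IsPL h) {Z : Set ME}
    (hl : Like c Z) : Like c (cj h '' Z) := by
  refine ⟨acc_cj pc h hh hl.1, fun W hW => ?_⟩
  have h1 := tg_cj pc h⁻¹ (FINM.plb.inv h hh) hW
  rw [im_im _ _ (inv_mul_cancel h)] at h1
  have h2 := cg_cj pc lc h hh (hl.2 _ h1)
  rwa [im_im _ _ (mul_inv_cancel h)] at h2

/-- the statement of the claim for a fixed `Y` -/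
def Cla (c : ℕ) (Y : Set ME) : Prop := ∀ (n : ℕ) (ι : Type) [Finite ι], Nat.card ι = n →
  ∀ F : ι → Set ME, (∀ i, Like c (F i)) → Fam (Y ∪ ⋃ i, F i) →
  (∀ i, Cross (c + 1) (F i) Y) → (∀ i j, i ≠ j → Cross c (F i) (F j)) →
  Acc Stp (Y ∪ ⋃ i, F i)

/-- the classes of `F` against the elements with source in `G` -/
theorem cs_src (pc : SpecPC) (lc : SpecLC) {c : ℕ} (hc : 1 ≤ c) {W F G : Set ME} {x x0 : ME}
    (M : ℕ) (hx0 : Mk x0) (hxp : Pc x0 x) (hF : ∀ p ∈ F, Lb (c + 1) (Ft x) (Ft p))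
    (hC : Cross (c + 1) F G) (o : Option (Ex M)) :
    Cross (c + 1) (Cs W x0 M F o) (Src W x0 M G) := by
  intro z hz y hy
  obtain ⟨hyW, ⟨m', hm', hy⟩ | hy⟩ := hy
  · cases o with
    | some m =>
      by_cases hm : m.1 = m'
      · subst hm
        exact cr_same (W := W) pc lc hC m.1 z hz y ⟨hyW, hy⟩
      · exact cr_diff' (W := W) (G := G) pc lc hx0 hxp hF hm z hz y ⟨hyW, hy⟩
    | none =>
      exact (Cross.symm lc (cr_dj' (W := W) (F := G) (G := F) lc hc hx0 m')) z hz y ⟨hyW, hy⟩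
  · cases o with
    | some m => exact cr_dj' (W := W) (F := F) (G := G) lc hc hx0 m.1 z hz y ⟨hyW, hy⟩
    | none => exact cr_jj (W := W) (x0 := x0) pc lc hC z hz y ⟨hyW, hy⟩

/-- the classes among themselves, different exponents or types -/
theorem cs_cs (pc : SpecPC) (lc : SpecLC) {c : ℕ} (hc : 1 ≤ c) {W F G : Set ME} {x x0 : ME}
    (M : ℕ) (hx0 : Mk x0) (hxp : Pc x0 x) (hF : ∀ p ∈ F, Lb (c + 1) (Ft x) (Ft p))
    (hG : ∀ p ∈ G, Lb (c + 1) (Ft x) (Ft p)) (o o' : Option (Ex M)) (ho : o ≠ o') :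
    Cross c (Cs W x0 M F o) (Cs W x0 M G o') := by
  cases o with
  | some m =>
    cases o' with
    | some m' =>
      have hm : m.1 ≠ m'.1 := fun h => ho (by rw [Subtype.ext h])
      exact cr_diff (W := W) pc lc hx0 hxp hF hG hm
    | none => exact cr_dj (W := W) pc lc hc hx0 hxp hF m.1
  | none =>
    cases o' with
    | some m' => exact Cross.symm lc (cr_dj (W := W) pc lc hc hx0 hxp hG m'.1)
    | none => exact absurd rfl ho

/-- the classes among themselves, same exponent -/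
theorem cs_same (pc : SpecPC) (lc : SpecLC) {c : ℕ} {W F G : Set ME} {x0 : ME}
    (M : ℕ) (hC : Cross c F G) (o : Option (Ex M)) :
    Cross c (Cs W x0 M F o) (Cs W x0 M G o) := by
  cases o with
  | some m => exact cr_same (W := W) pc lc hC m.1
  | none => exact cr_jj (W := W) pc lc hC

theorem cs_like (pc : SpecPC) (lc : SpecLC) {c : ℕ} {W F : Set ME} {x0 : ME} (hW : Fam W)
    (hx0 : Mk x0) (M : ℕ) (hL : Like c F) (o : Option (Ex M)) : Like c (Cs W x0 M F o) := by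
  cases o with
  | some m =>
    exact like_sub pc (dd_sub pc hW x0 m.1 F)
      (like_cj pc lc _ (FINM.pl2.zpow _ _ hx0.pl) hL)
  | none => exact like_sub pc (dj_sub hW x0 F) hL

theorem cs_acc (pc : SpecPC) {W F : Set ME} {x0 : ME} (hW : Fam W)
    (hx0 : Mk x0) (M : ℕ) (hL : Acc Stp F) (o : Option (Ex M)) : Acc Stp (Cs W x0 M F o) := by
  cases o with
  | some m =>
    exact acc_sub pc (dd_sub pc hW x0 m.1 F)
      (acc_cj pc _ (FINM.pl2.zpow _ _ hx0.pl) hL)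
  | none => exact acc_sub pc (dj_sub hW x0 F) hL

/-- move at an element of `Y` -/
theorem case_Y (pc : SpecPC) (lc : SpecLC) {c : ℕ} (hc : 1 ≤ c) {Y : Set ME}
    (ih : ∀ Y', Stp Y' Y → Cla c Y') {ι : Type} [Finite ι] {F : ι → Set ME}
    (hL : ∀ i, Like c (F i)) (hC1 : ∀ i, Cross (c + 1) (F i) Y)
    (hC2 : ∀ i j, i ≠ j → Cross c (F i) (F j)) {W : Set ME} (hW : Fam W) {x x0 : ME}
    (hxY : x ∈ Y) (hx0 : Mk x0) (hxp : Pc x0 x) (M : ℕ)
    (hr : W = Src W x0 M (Y ∪ ⋃ i, F i)) : Acc Stp W := by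
  have hxF : ∀ i, ∀ p ∈ F i, Lb (c + 1) (Ft x) (Ft p) := fun i p hp =>
    lc.symm _ _ _ (hC1 i p hp x hxY)
  have hdec := src_union W x0 M Y (⋃ i, F i) hr
  rw [src_iUnion] at hdec
  have hfam : Fam (Src W x0 M Y ∪ ⋃ k : ι × Option (Ex M), Cs W x0 M (F k.1) k.2) :=
    hdec ▸ hW
  rw [hdec]
  refine ih _ (src_stp hW hxY hx0 hxp M) _ (ι × Option (Ex M)) rfl _ ?_ hfam ?_ ?_
  · intro k
    exact cs_like pc lc hW hx0 M (hL k.1) k.2
  · intro k
    exact cs_src pc lc hc M hx0 hxp (hxF k.1) (hC1 k.1) k.2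
  · rintro ⟨i, o⟩ ⟨i', o'⟩ hne
    by_cases ho : o = o'
    · subst ho
      have hij : i ≠ i' := fun h => hne (by rw [h])
      exact cs_same pc lc M (hC2 i i' hij) o
    · exact cs_cs pc lc hc M hx0 hxp (hxF i) (hxF i') o o' ho

/-- move at an element of `Z`, where `Z ∪ V` is the family -/
theorem case_F (pc : SpecPC) (lc : SpecLC) {c : ℕ} (hc : 1 ≤ c) (hS : SS c) {Z V : Set ME}
    (hL : Like c Z) (hV : Acc Stp V) (hC : Cross (c + 1) Z V) {W : Set ME} (hW : Fam W)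
    {x x0 : ME} (hxZ : x ∈ Z) (hx0 : Mk x0) (hxp : Pc x0 x) (M : ℕ)
    (hr : W = Src W x0 M (Z ∪ V)) : Acc Stp W := by
  have hxV : ∀ p ∈ V, Lb (c + 1) (Ft x) (Ft p) := fun p hp => hC x hxZ p hp
  have hdec := src_union W x0 M Z V hr
  have hfam : Fam (Src W x0 M Z ∪ Src W x0 M V) := hdec ▸ hW
  rw [hdec]
  refine hL.2 _ (TransGen.single (src_stp hW hxZ hx0 hxp M)) _ ?_ hfam ?_
  · have hfV : Fam (Src W x0 M V) := fam_sub hfam subset_union_right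
    rw [src_eq] at hfV ⊢
    refine hS (Option (Ex M)) _ hfV ?_ ?_
    · intro o
      exact cs_acc pc hW hx0 M hV o
    · intro o o' ho
      exact cs_cs pc lc hc M hx0 hxp hxV hxV o o' ho
  · rw [src_eq W x0 M V]
    intro z hz y hy
    obtain ⟨o, hy⟩ := mem_iUnion.1 hy
    exact lc.symm _ _ _ (cs_src pc lc hc M hx0 hxp hxV (Cross.symm lc hC) o y hy z hz)

theorem src_of_stp {W Z : Set ME} {x0 : ME} {M : ℕ}
    (hr : ∀ r ∈ W, (∃ m : ℤ, |m| ≤ M ∧ r ∈ TD x0 m Z) ∨ r ∈ TJ x0 Z) : W = Src W x0 M Z :=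
  Subset.antisymm (fun r h => ⟨h, hr r h⟩) fun _ h => h.1

theorem cla (pc : SpecPC) (lc : SpecLC) {c : ℕ} (hc : 1 ≤ c) (hS : SS c) {Y : Set ME}
    (hY : Acc Stp Y) : Cla c Y := by
  induction hY with
  | intro Y hY0 ihY =>
    have hYA : Acc Stp Y := Acc.intro _ hY0
    intro n
    induction n using Nat.strong_induction_on with
    | _ n ihn =>
      intro ι _ hn F hL hG hC1 hC2
      refine Acc.intro _ fun W hW => ?_
      obtain ⟨hWf, x, hx, x0, hx0, hxp, M, hr⟩ := hW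
      rcases hx with hxY | hxF
      · exact case_Y pc lc hc ihY hL hC1 hC2 hWf hxY hx0 hxp M (src_of_stp hr)
      · obtain ⟨i0, hi0⟩ := mem_iUnion.1 hxF
        let G : {i : ι // i ≠ i0} → Set ME := fun i => F i.1
        have hdec : (Y ∪ ⋃ i, F i) = F i0 ∪ (Y ∪ ⋃ i, G i) := by
          ext p
          simp only [mem_union, mem_iUnion, G]
          constructor
          · rintro (h | ⟨i, h⟩)
            · exact Or.inr (Or.inl h)
            · by_cases hi : i = i0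
              · subst hi
                exact Or.inl h
              · exact Or.inr (Or.inr ⟨⟨i, hi⟩, h⟩)
          · rintro (h | h | ⟨i, h⟩)
            · exact Or.inr ⟨i0, h⟩
            · exact Or.inl h
            · exact Or.inr ⟨i.1, h⟩
        have hcard : Nat.card {i : ι // i ≠ i0} < n := by
          rw [← hn]
          exact Finite.card_subtype_lt (x := i0) (by simp)
        rw [hdec] at hG hr
        have hVG : Fam (Y ∪ ⋃ i, G i) := fam_sub hG subset_union_right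
        have hV : Acc Stp (Y ∪ ⋃ i, G i) :=
          ihn _ hcard _ rfl G (fun i => hL i.1) hVG (fun i => hC1 i.1)
            (fun i j hij => hC2 i.1 j.1 fun h => hij (Subtype.ext h))
        refine case_F pc lc hc hS (hL i0) hV ?_ hWf hi0 hx0 hxp M (src_of_stp hr)
        rintro z hz y (hy | hy)
        · exact hC1 i0 z hz y hy
        · obtain ⟨i, hy⟩ := mem_iUnion.1 hy
          exact Cross.mono lc (Nat.le_succ c) (hC2 i0 i.1 i.2.symm) z hz y hy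

theorem cg_of_acc (pc : SpecPC) (lc : SpecLC) {c : ℕ} (hc : 1 ≤ c) (hS : SS c) {Z : Set ME}
    (hZ : Acc Stp Z) : CG c Z := by
  have h1 : Acc (TransGen Stp) Z := hZ.transGen
  induction h1 with
  | intro Z h0 ih =>
    have hL : Like c Z := ⟨hZ, fun W hW => ih W hW (acc_of_tg (h0 W hW))⟩
    intro Y hY hG hC
    have h2 := cla pc lc hc hS hY 1 Unit (by simp) (fun _ => Z) (fun _ => hL)
      (by rwa [iUnion_const, union_comm]) (fun _ => hC) (fun i j hij => absurd rfl hij)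
    rwa [iUnion_const, union_comm] at h2

theorem ss_succ (pc : SpecPC) (lc : SpecLC) {c : ℕ} (hc : 1 ≤ c) (hS : SS c) : SS (c + 1) := by
  classical
  intro ι _ F hG hA hC
  have key : ∀ s : Finset ι, Acc Stp (⋃ i ∈ s, F i) := by
    intro s
    induction s using Finset.induction_on with
    | empty =>
      simp only [Finset.notMem_empty, iUnion_of_empty, iUnion_empty]
      exact Acc.intro _ fun W hW => by
        obtain ⟨_, x, hx, _⟩ := hW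
        exact absurd hx (notMem_empty x)
    | insert a s ha ih =>
      rw [Finset.set_biUnion_insert]
      refine cg_of_acc pc lc hc hS (hA a) _ ih (fam_sub hG ?_) ?_
      · refine union_subset (subset_iUnion F a) ?_
        exact iUnion₂_subset fun i _ => subset_iUnion F i
      · intro z hz y hy
        obtain ⟨i, hi, hy⟩ := mem_iUnion₂.1 hy
        exact hC a i (fun h => ha (h ▸ hi)) z hz y hy
  have : Fintype ι := Fintype.ofFinite ι
  have h := key Finset.univ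
  simpa using h

theorem ss_all (pc : SpecPC) (lc : SpecLC) (c : ℕ) : SS (c + 1) := by
  induction c with
  | zero => exact ss_one pc lc
  | succ c ih => exact ss_succ pc lc (Nat.le_add_left 1 c) ih

/-- one bound for all labels of a family -/
theorem bound (lc : SpecLC) {X : Set ME} (hX : Fam X) :
    ∃ c : ℕ, ∀ p ∈ X, ∀ q ∈ X, p ≠ q → Lb c (Ft p) (Ft q) := by
  have h1 : ∀ p ∈ X, ∀ q ∈ X, ∃ c : ℕ, p ≠ q → Lb c (Ft p) (Ft q) := by
    intro p hp q hq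
    by_cases hpq : p = q
    · exact ⟨0, fun h => absurd hpq h⟩
    · obtain ⟨c, hc⟩ := lc.fin p q (hX.mks p hp) (hX.mks q hq) (hX.dis p hp q hq hpq)
      exact ⟨c, fun _ => hc⟩
  choose! f hf using h1
  obtain ⟨c, hc⟩ := ((hX.fin.prod hX.fin).image fun k : ME × ME => f k.1 k.2).bddAbove
  refine ⟨c, fun p hp q hq hpq => lc.mono _ _ _ _ ?_ (hf p hp q hq hpq)⟩
  exact hc ⟨(p, q), ⟨hp, hq⟩, rfl⟩

/-! ### Singletons -/

/-- families of pieces of one element -/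
theorem sgl (pc : SpecPC) (p : ME) (_hp : Mk p) : ∀ (n : ℕ) (m : Set ℝ), m.Finite →
    (∀ w, p.1 w ≠ w → ∃ s ∈ m, ∀ t ∈ uIcc w s, p.1 t ≠ t) →
    ∀ Z : Set ME, (∀ r ∈ Z, Pc r p) → (m ∩ {s | ∃ z ∈ Z, z.1 s ≠ s}).ncard ≤ n →
    Acc Stp Z := by
  intro n
  induction n with
  | zero =>
    intro m hfin hm Z hZ hn
    refine Acc.intro _ fun W hW => ?_
    exfalso
    obtain ⟨_, x, hx, x0, hx0, hxp, _⟩ := hW
    obtain ⟨w, hw⟩ := (pc.nice x0 hx0).ne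
    have hw0 : x0.1 w ≠ w := hw.1
    have hx0p : Pc x0 p := pc.trans _ _ _ (hZ x hx) hxp
    obtain ⟨s, hs, hsm⟩ := hm w (pc.sp _ _ hx0p hw0)
    have h1 : x0.1 s ≠ s := by
      rw [pc.orb x0 p hx0p w s hw0 hsm]
      exact hsm s right_mem_uIcc
    have h2 : s ∈ m ∩ {s | ∃ z ∈ Z, z.1 s ≠ s} := ⟨hs, x, hx, pc.sp _ _ hxp h1⟩
    have h3 : (m ∩ {s | ∃ z ∈ Z, z.1 s ≠ s}).Finite := hfin.inter_of_left _
    rw [Nat.le_zero, Set.ncard_eq_zero h3] at hn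
    rw [hn] at h2
    exact h2
  | succ n ih =>
    intro m hfin hm Z hZ hn
    refine Acc.intro _ fun W hW => ?_
    obtain ⟨hWf, x, hx, x0, hx0, hxp, M, hr⟩ := hW
    obtain ⟨w, hw⟩ := (pc.nice x0 hx0).ne
    have hw0 : x0.1 w ≠ w := hw.1
    have hx0p : Pc x0 p := pc.trans _ _ _ (hZ x hx) hxp
    obtain ⟨s, hs, hsm⟩ := hm w (pc.sp _ _ hx0p hw0)
    have h1 : x0.1 s ≠ s := by
      rw [pc.orb x0 p hx0p w s hw0 hsm]
      exact hsm s right_mem_uIcc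
    have hJ : ∀ r ∈ W, ∃ z ∈ Z, Pc r z ∧ ∀ w ∈ cv (Ft r), x0.1 w = w := by
      intro r hrW
      rcases hr r hrW with ⟨k, _, z, hz, q, hq, hqz, hin, _⟩ | ⟨z, hz, hrz, hJ⟩
      · exfalso
        obtain ⟨v, hv⟩ := (pc.nice q hq).ne
        have h3 : v ∈ Ft p := ft_sub pc (hZ z hz) (ft_sub pc hqz hv)
        have h4 : v ∈ x0.2 := hin hv
        rw [hx0p.dom] at h4
        exact h3.2 h4.1
      · exact ⟨z, hz, hrz, fun w hw => (hJ w hw).2⟩
    refine ih m hfin hm W ?_ ?_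
    · intro r hrW
      obtain ⟨z, hz, hrz, _⟩ := hJ r hrW
      exact pc.trans _ _ _ (hZ z hz) hrz
    · have h3 : (m ∩ {s | ∃ z ∈ Z, z.1 s ≠ s}).Finite := hfin.inter_of_left _
      have h4 : m ∩ {s | ∃ z ∈ W, z.1 s ≠ s} ⊂ m ∩ {s | ∃ z ∈ Z, z.1 s ≠ s} := by
        refine ⟨?_, ?_⟩
        · rintro t ⟨ht, r, hrW, hrt⟩
          obtain ⟨z, hz, hrz, _⟩ := hJ r hrW
          exact ⟨ht, z, hz, pc.sp _ _ hrz hrt⟩
        · intro hsub
          obtain ⟨_, r, hrW, hrt⟩ := hsub (⟨hs, x, hx, pc.sp _ _ hxp h1⟩ :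
            s ∈ m ∩ {s | ∃ z ∈ Z, z.1 s ≠ s})
          obtain ⟨z, hz, hrz, hfx⟩ := hJ r hrW
          exact h1 (hfx s ((pc.nice r (hWf.mks r hrW)).hul hrt))
      have h5 := Set.ncard_lt_ncard h4 h3
      omega

theorem specCO (pc : SpecPC) (lc : SpecLC) : SpecCO := by
  intro X hX
  obtain ⟨c, hc⟩ := bound lc hX
  have : Finite ↥X := hX.fin
  have e : (⋃ i : ↥X, ({i.1} : Set ME)) = X := by
    ext p
    simp
  have h := ss_all pc lc c ↥X (fun i => {i.1}) (by rwa [e]) ?_ ?_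
  · rwa [e] at h
  · intro i
    have hMi : Mk i.1 := hX.mks i.1 i.2
    obtain ⟨m, hm1, hm2, hm3, _⟩ := hMi.fd
    refine sgl pc i.1 hMi _ m (NIM.mark_fin _ hMi.pl m hm1 hm3) hm2 _ ?_ le_rfl
    rintro r rfl
    exact pc.refl _ hMi
  · rintro i j hij z hz y hy
    have h1 : z = i.1 := hz
    have h2 : y = j.1 := hy
    have h3 : i.1 ≠ j.1 := fun h => hij (Subtype.ext h)
    subst h1 h2
    exact lc.mono _ _ _ _ (Nat.le_succ c) (hc _ i.2 _ j.2 h3)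

end FPT.GF.AF.COM
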