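import Pool.Agent.Lib.MP_c27bde_al.AF.Spec

/-! MP_c27bde_al, AF/EH (helper58): the action of the big group on the complement of the
translates of the open blocks. -/

set_option autoImplicit false

namespace FPT.GF.AF.EHM

open Set FPT FPT.GF FPT.GF.AF

theorem inv_eq (g : Hm) (v w : ℝ) (h : g w = v) : g⁻¹ v = w := by
  rw [← h]
  exact g.symm_apply_apply w

/-- a point of `EE` is in no open block -/
theorem nin (Z : Set ME) (J : Set (ℝ × ℝ)) (w : ℝ) (hw : w ∈ EE Z J) (j : ℝ × ℝ) (hj : j ∈ J) :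
    w ∉ Ioo j.1 j.2 := by
  intro h
  exact hw 1 (one_mem _) j hj w h.1 h.2 rfl

theorem ho (Z : Set ME) (J : Set (ℝ × ℝ)) (h : Hm) (hh : h ∈ Ho Z J) (w : ℝ)
    (hw : w ∈ EE Z J) : h w ∈ EE Z J := by
  intro g hg j hj v h1 h2 he
  refine hw (h⁻¹ * g) (mul_mem (inv_mem hh) hg) j hj v h1 h2 ?_
  show h⁻¹ (g v) = w
  rw [he]
  exact inv_eq _ _ _ rfl

/-- the invariant -/
structure Q (Z : Set ME) (J : Set (ℝ × ℝ)) (h : Hm) : Prop where
  a : ∀ w ∈ EE Z J, h w ∈ EE Z J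
  b : ∀ w ∈ EE Z J, h⁻¹ w ∈ EE Z J
  c : ∃ k ∈ cl Z, ∀ w ∈ EE Z J, h w = k w

theorem Qinv (Z : Set ME) (J : Set (ℝ × ℝ)) (h : Hm) (q : Q Z J h) : Q Z J h⁻¹ := by
  obtain ⟨k, hk, e⟩ := q.c
  refine ⟨q.b, by rw [inv_inv]; exact q.a, k⁻¹, inv_mem hk, ?_⟩
  intro w hw
  symm
  apply inv_eq
  rw [← e _ (q.b w hw)]
  exact h.apply_symm_apply w

theorem Qmul (Z : Set ME) (J : Set (ℝ × ℝ)) (h h' : Hm) (q : Q Z J h) (q' : Q Z J h') :
    Q Z J (h * h') := by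
  obtain ⟨k, hk, e⟩ := q.c
  obtain ⟨k', hk', e'⟩ := q'.c
  refine ⟨fun w hw => q.a _ (q'.a w hw), ?_, k * k', mul_mem hk hk', ?_⟩
  · intro w hw
    rw [mul_inv_rev]
    exact q'.b _ (q.b w hw)
  · intro w hw
    show h (h' w) = k (k' w)
    rw [← e' w hw]
    exact e _ (q'.a w hw)

theorem main (BK : SpecBK) (Z : Set ME) (J : Set (ℝ × ℝ)) (hB : Blk Z J) (h : Hm)
    (hh : h ∈ Hp Z J) : Q Z J h := by
  induction hh using Subgroup.closure_induction with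
  | mem x hx =>
    rcases hx with ⟨p, hp, rfl⟩ | ⟨p, hp, j, hj, hpj, rfl⟩
    · have hm : (po J p).1 ∈ Ho Z J := Subgroup.subset_closure ⟨p, hp, rfl⟩
      refine ⟨ho Z J _ hm, ho Z J _ (inv_mem hm), p.1, Subgroup.subset_closure ⟨p, hp, rfl⟩, ?_⟩
      intro w hw
      apply BK.o2 Z J hB p hp
      rintro ⟨j, hj, -, h1, h2⟩
      exact nin Z J w hw j hj ⟨h1, h2⟩
    · have hf : ∀ w ∈ EE Z J, (pin p j).1 w = w := fun w hw =>
        BK.i2 Z J hB p hp j hj hpj w (nin Z J w hw j hj)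
      refine ⟨?_, ?_, 1, one_mem _, ?_⟩
      · intro w hw
        rw [hf w hw]
        exact hw
      · intro w hw
        rw [inv_eq _ _ _ (hf w hw)]
        exact hw
      · intro w hw
        exact hf w hw
  | one =>
    refine ⟨fun w hw => hw, ?_, 1, one_mem _, fun w _ => rfl⟩
    intro w hw
    rw [inv_one]
    exact hw
  | mul x y _ _ hx hy => exact Qmul Z J x y hx hy
  | inv x _ hx => exact Qinv Z J x hx

theorem specEH (BK : SpecBK) (_PP : SpecPP) : SpecEH :=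
  ⟨fun Z J hB h hh w hw => (main BK Z J hB h hh).a w hw,
    fun Z J hB h hh => (main BK Z J hB h hh).c⟩

end FPT.GF.AF.EHM
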