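import Pool.Agent.Lib.MP_c27bde_al.AF.Spec

/-!
MP_c27bde_al, AF, module EX (helper16): existence of the blocks.
-/

set_option autoImplicit false

namespace FPT.GF.AF.EXM

open Set FPT FPT.GF Filter Topology

/-- some element of `Z` is non-trivial near `α` -/
theorem ex_er (Z : Set ME) (α β : ℝ) (hS : Sgl Z α β) : ∃ x ∈ Z, er x.1 α ≠ 0 := by
  by_contra hcon
  have h1 : ∀ p ∈ Z, er p.1 α = 0 := by
    intro p hp
    by_contra h
    exact hcon ⟨p, hp, h⟩
  have h2 : ∀ᶠ t in 𝓝[>] α, ∀ p ∈ Z, p.1 t = t := by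
    rw [Filter.eventually_all_finite hS.fam.fin]
    intro p hp
    obtain ⟨ε, hε, H⟩ := FINM.pl2.er0 p.1 α (hS.fam.mks p hp).pl
      (hS.out p hp α (Or.inl le_rfl)) (h1 p hp)
    filter_upwards [Ioc_mem_nhdsGT (show α < α + ε by linarith)] with t ht
    exact H t ht.1.le ht.2
  have h3 : ∀ᶠ t in 𝓝[>] α, t < β := by
    filter_upwards [Ioo_mem_nhdsGT hS.ab] with t ht
    exact ht.2
  have h4 : ∀ᶠ t in 𝓝[>] α, α < t := by
    filter_upwards [self_mem_nhdsWithin] with t ht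
    exact ht
  obtain ⟨t, ht2, ht3, ht4⟩ := (h2.and (h3.and h4)).exists
  obtain ⟨p, hp, h5⟩ := hS.mov t ht4 ht3
  exact h5 (ht2 p hp)

theorem specEX (hPC : SpecPC) (hOF : SpecOF) (_hBK : SpecBK) (_hGA : SpecGA) (hGD : SpecGD) :
    SpecEX := by
  intro Z α β hS
  obtain ⟨x, hx, her⟩ := ex_er Z α β hS
  have hxm : Mk x := hS.fam.mks x hx
  have hxα : x.1 α = α := hS.out x hx α (Or.inl le_rfl)
  by_cases hfix : ∃ c, α < c ∧ c < β ∧ x.1 c = c
  · obtain ⟨c, hc1, hc2, hc3⟩ := hfix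
    have hε : ∃ ε > 0, ∀ u, α < u → u < α + ε → x.1 u ≠ u := by
      rcases lt_or_gt_of_ne her with h | h
      · obtain ⟨ε, hε, H⟩ := FINM.pl2.ern x.1 α hxm.pl hxα h
        exact ⟨ε, hε, fun t h1 h2 => (H t h1 h2.le).ne⟩
      · obtain ⟨ε, hε, H⟩ := FINM.pl2.erp x.1 α hxm.pl hxα h
        exact ⟨ε, hε, fun t h1 h2 => (H t h1 h2.le).ne'⟩
    obtain ⟨r, hr1, hr2, hr3, hr4⟩ := FINM.ord.first x.1 α c hc3 hc1 hε
    exact ⟨_, x, hGD Z α β r x ⟨hS, hx, hr1, hr2.trans_lt hc2, hr3, hr4⟩⟩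
  · have hmv : ∀ w, α < w → w < β → x.1 w ≠ w := fun w h1 h2 h3 => hfix ⟨w, h1, h2, h3⟩
    have hPr : ∀ g : Hm, Pr ∅ g = ∅ := by
      intro g
      refine Set.eq_empty_iff_forall_notMem.2 ?_
      rintro w ⟨j, hj, _⟩
      exact Set.notMem_empty j hj
    have hsep : ∀ g : Hm, Sep g ∅ := fun g w hw => absurd hw (Set.notMem_empty w)
    have hoff : ∀ g : Hm, off g ∅ = g := by
      intro g
      ext w
      exact hOF.b g ∅ (hsep g) w (Set.notMem_empty w)
    have hpo1 : ∀ p : ME, (po ∅ p).1 = p.1 := by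
      intro p
      show off p.1 (Pr ∅ p.1) = p.1
      rw [hPr, hoff]
    have hpo2 : ∀ p : ME, Mk p → po ∅ p = p := by
      intro p hp
      have h1 : (po ∅ p).2 = p.2 := by
        show p.2 ∩ GF.sp (off p.1 (Pr ∅ p.1)) = p.2
        rw [hPr, hoff]
        exact Set.inter_eq_left.2 (hPC.nice p hp).sub
      exact Prod.ext (hpo1 p) h1
    refine ⟨∅, x, ?_⟩
    refine ⟨⟨hS.fam, ?_, ?_, ?_⟩, Set.finite_empty, hx, ?_, ?_, ?_, ?_⟩
    · intro j hj
      exact absurd hj (Set.notMem_empty j)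
    · intro j hj
      exact absurd hj (Set.notMem_empty j)
    · intro p _ j hj
      exact absurd hj (Set.notMem_empty j)
    · intro j hj
      exact absurd hj (Set.notMem_empty j)
    · rw [hpo1]
      exact hxm.ne
    · intro p hp hpx w hw
      rw [hpo2 p (hS.fam.mks p hp)] at hw
      rw [hpo2 x hxm]
      have hpw : p.1 w ≠ w := hw.1
      have hα : α < w := by
        by_contra h
        exact hpw (hS.out p hp w (Or.inl (not_lt.1 h)))
      have hβ : w < β := by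
        by_contra h
        exact hpw (hS.out p hp w (Or.inr (not_lt.1 h)))
      by_contra h
      exact Set.disjoint_left.1 (hS.fam.dis p hp x hx hpx) hw
        (show w ∈ Ft x from ⟨hmv w hα hβ, h⟩)
    · intro j hj
      exact absurd hj (Set.notMem_empty j)

end FPT.GF.AF.EXM
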