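import Pool.Agent.Lib.MP_c27bde_al.AF.Spec

/-! MP_c27bde_al, AF/GA (helper46): gaps of the closure of the orbit, basic facts. -/

set_option autoImplicit false

namespace FPT.GF.AF.GAM

open Set FPT FPT.GF FPT.GF.AF

theorem inv_ap (g : Hm) (w : ℝ) : g⁻¹ (g w) = w := g.symm_apply_apply w

theorem ap_inv (g : Hm) (w : ℝ) : g (g⁻¹ w) = w := g.apply_symm_apply w

theorem inv_fix (g : Hm) (w : ℝ) (h : g w = w) : g⁻¹ w = w := by
  have := inv_ap g w
  rwa [h] at this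

theorem fa (Z : Set ME) (α β : ℝ) (hS : Sgl Z α β) (g : Hm) (hg : g ∈ GF.cl Z) :
    g α = α ∧ g β = β ∧ IsPL g := by
  induction hg using Subgroup.closure_induction with
  | mem x hx =>
    obtain ⟨p, hp, rfl⟩ := hx
    exact ⟨hS.out p hp α (Or.inl le_rfl), hS.out p hp β (Or.inr le_rfl), (hS.fam.mks p hp).pl⟩
  | one => exact ⟨rfl, rfl, FINM.plb.one⟩
  | mul x y _ _ hx hy =>
    refine ⟨?_, ?_, FINM.plb.mul x y hx.2.2 hy.2.2⟩
    · show x (y α) = α
      rw [hy.1, hx.1]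
    · show x (y β) = β
      rw [hy.2.1, hx.2.1]
  | inv x _ hx =>
    exact ⟨inv_fix x α hx.1, inv_fix x β hx.2.1, FINM.plb.inv x hx.2.2⟩

theorem ap_lt (g : Hm) (a b : ℝ) (h : a < g⁻¹ b) : g a < b := by
  have := g.strictMono h
  rwa [ap_inv] at this

theorem lt_ap (g : Hm) (a b : ℝ) (h : g⁻¹ a < b) : a < g b := by
  have := g.strictMono h
  rwa [ap_inv] at this

theorem mcl (Z : Set ME) (p : ME) (hp : p ∈ Z) : p.1 ∈ GF.cl Z :=
  Subgroup.subset_closure ⟨p, hp, rfl⟩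

theorem ac (Z : Set ME) (α β u : ℝ) (x : ME) (hU : Ux Z α β x u) (g : Hm) (hg : g ∈ GF.cl Z)
    (ε : ℝ) (hε : 0 < ε) : ∃ k ∈ GF.cl Z, g u - ε < k u ∧ k u < g u := by
  have hS := hU.sgl
  obtain ⟨k, hk, hku⟩ := FINM.ord.orbL (GF.cl Z) α β (fun h hh => (fa Z α β hS h hh).1)
    (fun h hh => (fa Z α β hS h hh).2.1)
    (fun w h1 h2 => by
      obtain ⟨p, hp, hpw⟩ := hS.mov w h1 h2
      exact ⟨p.1, mcl Z p hp, hpw⟩) u u hU.au hU.ub hU.au
  have hka : α < k u := by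
    have := k.strictMono hU.au
    rwa [(fa Z α β hS k hk).1] at this
  have hxa : x.1 α = α := (fa Z α β hS x.1 (mcl Z x hU.mem)).1
  have hxm := mcl Z x hU.mem
  have hv : g⁻¹ (g u - ε) < u := by
    have : g⁻¹ (g u - ε) < g⁻¹ (g u) := (g⁻¹ : Hm).strictMono (by linarith)
    rwa [inv_ap] at this
  have hmv : ∀ t, α < t → t < u → x.1 t ≠ t := hU.mv
  have key : ∃ y ∈ GF.cl Z, y u = u ∧ g⁻¹ (g u - ε) < y (k u) := by
    rcases FINM.ord.dir x.1 α u hmv with hd | hd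
    · obtain ⟨n, hn⟩ := FINM.ord.itL' x.1 α u hxa hU.fx hd (k u) _ hka hku hv
      refine ⟨(x.1 ^ n)⁻¹, inv_mem (pow_mem hxm n), ?_, hn n le_rfl⟩
      exact inv_fix _ _ (FINM.ord.powf x.1 n u hU.fx)
    · obtain ⟨n, hn⟩ := FINM.ord.itR x.1 α u hxa hU.fx hd (k u) _ hka hku hv
      exact ⟨x.1 ^ n, pow_mem hxm n, FINM.ord.powf x.1 n u hU.fx, hn n le_rfl⟩
  obtain ⟨y, hy, hyu, hyk⟩ := key
  refine ⟨g * (y * k), mul_mem hg (mul_mem hy hk), ?_, ?_⟩
  · exact lt_ap g _ _ hyk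
  · show g (y (k u)) < g u
    apply g.strictMono
    have := y.strictMono hku
    rwa [hyu] at this

theorem gi (Z : Set ME) (α β u : ℝ) (x : ME) (hU : Ux Z α β x u) (g : Hm) (hg : g ∈ GF.cl Z)
    (e f : ℝ) (he : e < g u) (hf : g u < f) : ∃ t, e < t ∧ t < f ∧ x.1 t ≠ t := by
  by_contra hcon
  push Not at hcon
  have hS := hU.sgl
  have hxm := mcl Z x hU.mem
  obtain ⟨hxa, hxb, hxpl⟩ := fa Z α β hS x.1 hxm
  obtain ⟨hga, hgb, hgpl⟩ := fa Z α β hS g hg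
  have hgi := FINM.plb.inv g hgpl
  set w : Hm := g⁻¹ * x.1 * (g⁻¹)⁻¹ with hw
  have hwm : w ∈ GF.cl Z := mul_mem (mul_mem (inv_mem hg) hxm) (inv_mem (inv_mem hg))
  obtain ⟨hwa, -, hwpl⟩ := fa Z α β hS w hwm
  have hwv : ∀ t, w t = g⁻¹ (x.1 (g t)) := fun t => rfl
  have hwu : w u = u := by
    rw [hwv, hcon (g u) he hf, inv_ap]
  have hea : er w α = er x.1 α := by
    have := FINM.pl2.erC x.1 g⁻¹ α hxpl hgi hxa
    rwa [inv_fix g α hga] at this
  have hel : el w u = 0 := by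
    apply FINM.pl2.el0'
    have h1 : g⁻¹ e < u := by
      have : g⁻¹ e < g⁻¹ (g u) := (g⁻¹ : Hm).strictMono he
      rwa [inv_ap] at this
    refine ⟨(u - g⁻¹ e) / 2, by linarith, fun y hy1 hy2 => ?_⟩
    have h2 : e < g y := lt_ap g _ _ (by linarith)
    have h3 : g y < f := lt_of_le_of_lt (g.monotone hy2) hf
    rw [hwv, hcon (g y) h2 h3, inv_ap]
  let G : Subgroup Hm := Subgroup.closure {x.1, w}
  have hGle : G ≤ GF.cl Z := by
    rw [Subgroup.closure_le]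
    rintro y (rfl | hy)
    · exact hxm
    · rw [mem_singleton_iff] at hy
      rw [hy]
      exact hwm
  have hxG : x.1 ∈ G := Subgroup.subset_closure (Or.inl rfl)
  have hwG : w ∈ G := Subgroup.subset_closure (Or.inr rfl)
  have hGu : ∀ y ∈ G, y u = u := by
    intro y hy
    induction hy using Subgroup.closure_induction with
    | mem y hy =>
      rcases hy with rfl | hy
      · exact hU.fx
      · rw [mem_singleton_iff] at hy
        rw [hy]
        exact hwu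
    | one => rfl
    | mul a b _ _ ha hb =>
      show a (b u) = u
      rw [hb, ha]
    | inv a _ ha => exact inv_fix a u ha
  have hbal := hS.bal G hGle α u hU.au (fun y hy => (fa Z α β hS y (hGle hy)).1) hGu
    (fun v h1 h2 => ⟨x.1, hxG, hU.mv v h1 h2⟩) (x.1 * w⁻¹) (mul_mem hxG (inv_mem hwG))
  have hwi := FINM.plb.inv w hwpl
  have h1 : er (x.1 * w⁻¹) α = 0 := by
    rw [FINM.plb.erM x.1 w⁻¹ α hxpl hwi, inv_fix w α hwa]
    have := FINM.pl2.erI w α hwpl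
    rw [hwa] at this
    rw [this, hea]
    ring
  have h2 := hbal h1
  rw [FINM.plb.elM x.1 w⁻¹ u hxpl hwi, inv_fix w u hwu] at h2
  have h3 := FINM.pl2.elI w u hwpl
  rw [hwu, hel] at h3
  rw [h3] at h2
  have h4 : el x.1 u = 0 := by linarith
  obtain ⟨ε, hε, hxe⟩ := FINM.pl2.el0 x.1 u hxpl hU.fx h4
  have hau := hU.au
  have h5 : α < max (u - ε) ((α + u) / 2) := lt_max_of_lt_right (by linarith)
  have h6 : max (u - ε) ((α + u) / 2) < u := max_lt (by linarith) (by linarith)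
  exact hU.mv _ h5 h6 (hxe _ (le_max_left _ _) h6.le)

theorem gp (Z : Set ME) (α β u : ℝ) (hS : Sgl Z α β) (j : ℝ × ℝ) (hj : Gap Z α β u j)
    (g : Hm) (hg : g ∈ GF.cl Z) : Gap Z α β u (g j.1, g j.2) := by
  obtain ⟨hga, hgb, -⟩ := fa Z α β hS g hg
  refine ⟨?_, g.strictMono hj.lt, ?_, ?_, ?_, ?_⟩
  · have := g.strictMono hj.l
    rwa [hga] at this
  · have := g.strictMono hj.r
    rwa [hgb] at this
  · rintro h hh ⟨h1, h2⟩
    apply hj.no (g⁻¹ * h) (mul_mem (inv_mem hg) hh)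
    constructor
    · have : g⁻¹ (g j.1) < g⁻¹ (h u) := (g⁻¹ : Hm).strictMono h1
      rw [inv_ap] at this
      exact this
    · have : g⁻¹ (h u) < g⁻¹ (g j.2) := (g⁻¹ : Hm).strictMono h2
      rw [inv_ap] at this
      exact this
  · intro ε hε
    have h1 : g⁻¹ (g j.1 - ε) < j.1 := by
      have : g⁻¹ (g j.1 - ε) < g⁻¹ (g j.1) := (g⁻¹ : Hm).strictMono (by linarith)
      rwa [inv_ap] at this
    obtain ⟨k, hk, hk1, hk2⟩ := hj.al (j.1 - g⁻¹ (g j.1 - ε)) (by linarith)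
    refine ⟨g * k, mul_mem hg hk, ?_, g.monotone hk2⟩
    show g j.1 - ε < g (k u)
    exact lt_ap g _ _ (by linarith)
  · intro ε hε
    have h1 : j.2 < g⁻¹ (g j.2 + ε) := by
      have : g⁻¹ (g j.2) < g⁻¹ (g j.2 + ε) := (g⁻¹ : Hm).strictMono (by linarith)
      rwa [inv_ap] at this
    obtain ⟨k, hk, hk1, hk2⟩ := hj.ar (g⁻¹ (g j.2 + ε) - j.2) (by linarith)
    refine ⟨g * k, mul_mem hg hk, g.monotone hk1, ?_⟩
    show g (k u) < g j.2 + ε
    exact ap_lt g _ _ (by linarith)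

theorem nl (Z : Set ME) (α β u : ℝ) (j k : ℝ × ℝ) (hj : Gap Z α β u j) (hk : Gap Z α β u k)
    (h1 : j.1 < k.1) (h2 : k.1 < j.2) : False := by
  obtain ⟨g, hg, ha, hb⟩ := hk.al (k.1 - j.1) (by linarith)
  exact hj.no g hg ⟨by linarith, by linarith⟩

theorem nr (Z : Set ME) (α β u : ℝ) (j k : ℝ × ℝ) (hj : Gap Z α β u j) (hk : Gap Z α β u k)
    (h1 : j.1 < k.2) (h2 : k.2 < j.2) : False := by
  obtain ⟨g, hg, ha, hb⟩ := hk.ar (j.2 - k.2) (by linarith)
  exact hj.no g hg ⟨by linarith, by linarith⟩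

theorem nt (Z : Set ME) (α β u : ℝ) (x : ME) (hU : Ux Z α β x u) (j k : ℝ × ℝ)
    (hj : Gap Z α β u j) (hk : Gap Z α β u k) (h1 : j.2 = k.1) : False := by
  obtain ⟨g, hg, ha, hb⟩ := hj.ar (k.2 - k.1) (by linarith [hk.lt])
  have h2 : g u ≤ k.1 := by
    by_contra h
    push Not at h
    exact hk.no g hg ⟨h, by linarith⟩
  have h3 : g u = j.2 := le_antisymm (by linarith) ha
  obtain ⟨k', hk', ha', hb'⟩ := ac Z α β u x hU g hg (j.2 - j.1) (by linarith [hj.lt])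
  exact hj.no k' hk' ⟨by linarith, by linarith⟩

theorem dj (Z : Set ME) (α β u : ℝ) (x : ME) (hU : Ux Z α β x u) (j k : ℝ × ℝ)
    (hj : Gap Z α β u j) (hk : Gap Z α β u k) (hne : j ≠ k) :
    Disjoint (Icc j.1 j.2) (Icc k.1 k.2) := by
  rw [Set.disjoint_left]
  intro w hw hw'
  rcases lt_trichotomy j.1 k.1 with h | h | h
  · rcases lt_or_ge k.1 j.2 with h2 | h2
    · exact nl Z α β u j k hj hk h h2
    · exact nt Z α β u x hU j k hj hk (le_antisymm h2 (hw'.1.trans hw.2))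
  · rcases lt_trichotomy j.2 k.2 with h2 | h2 | h2
    · exact nr Z α β u k j hk hj (by rw [← h]; exact hj.lt) h2
    · exact hne (Prod.ext h h2)
    · exact nr Z α β u j k hj hk (by rw [h]; exact hk.lt) h2
  · rcases lt_or_ge j.1 k.2 with h2 | h2
    · exact nl Z α β u k j hk hj h h2
    · exact nt Z α β u x hU k j hk hj (le_antisymm h2 (hw.1.trans hw'.2))

theorem specGA : SpecGA where
  i := gi
  ac := ac
  fa := fun Z α β hS g hg => fa Z α β hS g hg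
  gp := fun Z α β u hS j hj g hg => gp Z α β u hS j hj g hg
  dj := fun Z α β u x hU j k hj hk hne => dj Z α β u x hU j k hj hk hne

end FPT.GF.AF.GAM
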