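import Pool.Agent.Lib.MP_c27bde_al.AF.Spec

/-!
MP_c27bde_al, AF (module GB, helper64): the gaps that contain a fixed interval of `x`.
-/

set_option autoImplicit false

namespace FPT.GF.AF.GBM

open Set FPT FPT.GF FPT.GF.AF

theorem memx {Z : Set ME} {α β : ℝ} {x : ME} {u : ℝ} (hx : Ux Z α β x u) : x.1 ∈ cl Z :=
  Subgroup.subset_closure ⟨x, hx.mem, rfl⟩

theorem movx {Z : Set ME} {α β : ℝ} {x : ME} {u : ℝ} (hx : Ux Z α β x u) :
    ∀ w, α < w → w < β → ∃ g ∈ cl Z, g w ≠ w := by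
  intro w h1 h2
  obtain ⟨p, hp, h⟩ := hx.sgl.mov w h1 h2
  exact ⟨p.1, Subgroup.subset_closure ⟨p, hp, rfl⟩, h⟩

theorem ex (hGA : SpecGA) : ∀ (Z : Set ME) (α β u : ℝ) (x : ME), Ux Z α β x u → ∀ e f, α < e →
    e < f → f < β → (∀ t, e ≤ t → t ≤ f → x.1 t = t) →
    ∃ j ∈ JJ Z α β u x, j.1 ≤ e ∧ f ≤ j.2 := by
  intro Z α β u x hx e f he hef hf htr
  have fa := hGA.fa Z α β hx.sgl
  have h1 : ∀ g ∈ cl Z, g α = α := fun g hg => (fa g hg).1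
  have h2 : ∀ g ∈ cl Z, g β = β := fun g hg => (fa g hg).2.1
  have hno : ∀ g ∈ cl Z, ¬ (e < g u ∧ g u < f) := by
    rintro g hg ⟨a, b⟩
    obtain ⟨t, t1, t2, t3⟩ := hGA.i Z α β u x hx g hg e f a b
    exact t3 (htr t t1.le t2.le)
  obtain ⟨gL, hgL, hL⟩ := FINM.ord.orbL (cl Z) α β h1 h2 (movx hx) u e hx.au hx.ub he
  obtain ⟨gR, hgR, hR⟩ := FINM.ord.orbR (cl Z) α β h1 h2 (movx hx) u f hx.au hx.ub hf
  let A : Set ℝ := {y | ∃ g ∈ cl Z, y = g u ∧ g u ≤ e}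
  let B : Set ℝ := {y | ∃ g ∈ cl Z, y = g u ∧ f ≤ g u}
  have hA : BddAbove A := ⟨e, by rintro y ⟨g, _, rfl, h⟩; exact h⟩
  have hB : BddBelow B := ⟨f, by rintro y ⟨g, _, rfl, h⟩; exact h⟩
  have hAn : A.Nonempty := ⟨_, gL, hgL, rfl, hL.le⟩
  have hBn : B.Nonempty := ⟨_, gR, hgR, rfl, hR.le⟩
  have hce : sSup A ≤ e := csSup_le hAn (by rintro y ⟨g, _, rfl, h⟩; exact h)
  have hfd : f ≤ sInf B := le_csInf hBn (by rintro y ⟨g, _, rfl, h⟩; exact h)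
  have hαc : α < sSup A := by
    have : gL u ≤ sSup A := le_csSup hA ⟨gL, hgL, rfl, hL.le⟩
    have h3 : α < gL u := by
      have := gL.strictMono hx.au
      rwa [h1 gL hgL] at this
    linarith
  have hdβ : sInf B < β := by
    have : sInf B ≤ gR u := csInf_le hB ⟨gR, hgR, rfl, hR.le⟩
    have h3 : gR u < β := by
      have := gR.strictMono hx.ub
      rwa [h2 gR hgR] at this
    linarith
  refine ⟨(sSup A, sInf B), ⟨⟨hαc, ?_, hdβ, ?_, ?_, ?_⟩, e, f, hef, hce, hfd, htr⟩, hce, hfd⟩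
  · show sSup A < sInf B
    linarith
  · rintro g hg ⟨a, b⟩
    rcases le_or_gt (g u) e with h | h
    · exact absurd (le_csSup hA ⟨g, hg, rfl, h⟩) (not_le.mpr a)
    · rcases le_or_gt f (g u) with h' | h'
      · exact absurd (csInf_le hB ⟨g, hg, rfl, h'⟩) (not_le.mpr b)
      · exact hno g hg ⟨h, h'⟩
  · intro ε hε
    obtain ⟨y, ⟨g, hg, rfl, h⟩, hy⟩ := exists_lt_of_lt_csSup hAn (show sSup A - ε < sSup A by linarith)
    exact ⟨g, hg, hy, le_csSup hA ⟨g, hg, rfl, h⟩⟩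
  · intro ε hε
    obtain ⟨y, ⟨g, hg, rfl, h⟩, hy⟩ := exists_lt_of_csInf_lt hBn (show sInf B < sInf B + ε by linarith)
    exact ⟨g, hg, csInf_le hB ⟨g, hg, rfl, h⟩, hy⟩

theorem pr (hGA : SpecGA) : ∀ (Z : Set ME) (α β u : ℝ) (x : ME), Ux Z α β x u →
    ∀ j ∈ JJ Z α β u x, Prs x.1 j := by
  rintro Z α β u x hx j ⟨hj, e, f, hef, he, hf, htr⟩
  have hg := hGA.gp Z α β u hx.sgl j hj x.1 (memx hx)
  by_contra hn
  have hne : (x.1 j.1, x.1 j.2) ≠ j := by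
    intro h
    apply hn
    exact ⟨congrArg Prod.fst h, congrArg Prod.snd h⟩
  have hd := hGA.dj Z α β u x hx _ j hg hj hne
  have hxe : x.1 e = e := htr e le_rfl hef.le
  have m1 : e ∈ Icc (x.1 j.1) (x.1 j.2) := by
    constructor
    · calc x.1 j.1 ≤ x.1 e := x.1.monotone he
        _ = e := hxe
    · calc e = x.1 e := hxe.symm
        _ ≤ x.1 j.2 := x.1.monotone (by linarith)
  have m2 : e ∈ Icc j.1 j.2 := ⟨he, by linarith⟩
  exact Set.disjoint_left.mp hd m1 m2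

theorem erne (hGA : SpecGA) : ∀ (Z : Set ME) (α β u : ℝ) (x : ME), Ux Z α β x u →
    ∀ j ∈ JJ Z α β u x, er x.1 j.2 ≠ 0 := by
  intro Z α β u x hx j hj h0
  have hp := pr hGA Z α β u x hx j hj
  have hpl := (hGA.fa Z α β hx.sgl x.1 (memx hx)).2.2
  obtain ⟨ε, hε, htr⟩ := FINM.pl2.er0 x.1 j.2 hpl hp.2 h0
  obtain ⟨g, hg, a, b⟩ := hj.1.ar ε hε
  rcases lt_or_eq_of_le a with h | h
  · obtain ⟨t, t1, t2, t3⟩ := hGA.i Z α β u x hx g hg j.2 (j.2 + ε) h b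
    exact t3 (htr t t1.le t2.le)
  · obtain ⟨k, hk, k1, k2⟩ := hGA.ac Z α β u x hx g hg (j.2 - j.1) (by linarith [hj.1.lt])
    exact hj.1.no k hk ⟨by linarith, by linarith⟩

theorem mr (hGA : SpecGA) : ∀ (Z : Set ME) (α β u : ℝ) (x : ME), Ux Z α β x u →
    ∀ j ∈ JJ Z α β u x, ∃ v, j.2 < v ∧ ∀ t, j.2 < t → t < v → x.1 t ≠ t := by
  intro Z α β u x hx j hj
  have hp := pr hGA Z α β u x hx j hj
  have hpl := (hGA.fa Z α β hx.sgl x.1 (memx hx)).2.2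
  have hne := erne hGA Z α β u x hx j hj
  rcases lt_or_gt_of_ne hne with h | h
  · obtain ⟨ε, hε, ht⟩ := FINM.pl2.ern x.1 j.2 hpl hp.2 h
    exact ⟨j.2 + ε, by linarith, fun t t1 t2 => (ht t t1 t2.le).ne⟩
  · obtain ⟨ε, hε, ht⟩ := FINM.pl2.erp x.1 j.2 hpl hp.2 h
    exact ⟨j.2 + ε, by linarith, fun t t1 t2 => (ht t t1 t2.le).ne'⟩

theorem ml (hGA : SpecGA) : ∀ (Z : Set ME) (α β u : ℝ) (x : ME), Ux Z α β x u →
    ∀ j ∈ JJ Z α β u x, ∃ v, v < j.1 ∧ ∀ t, v < t → t < j.1 → x.1 t ≠ t := by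
  intro Z α β u x hx j hj
  have hp := pr hGA Z α β u x hx j hj
  have hpl := (hGA.fa Z α β hx.sgl x.1 (memx hx)).2.2
  have hne : el x.1 j.1 ≠ 0 := by
    intro h0
    obtain ⟨ε, hε, htr⟩ := FINM.pl2.el0 x.1 j.1 hpl hp.1 h0
    have key : ∀ g ∈ cl Z, ¬ (j.1 - ε < g u ∧ g u < j.1) := by
      rintro g hg ⟨a, b⟩
      obtain ⟨t, t1, t2, t3⟩ := hGA.i Z α β u x hx g hg (j.1 - ε) j.1 a b
      exact t3 (htr t t1.le t2.le)
    obtain ⟨g, hg, a, b⟩ := hj.1.al ε hε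
    rcases lt_or_eq_of_le b with h | h
    · exact key g hg ⟨a, h⟩
    · obtain ⟨k, hk, k1, k2⟩ := hGA.ac Z α β u x hx g hg ε hε
      exact key k hk ⟨by linarith, by linarith⟩
  rcases lt_or_gt_of_ne hne with h | h
  · obtain ⟨ε, hε, ht⟩ := FINM.pl2.eln x.1 j.1 hpl hp.1 h
    exact ⟨j.1 - ε, by linarith, fun t t1 t2 => (ht t t1.le t2).ne'⟩
  · obtain ⟨ε, hε, ht⟩ := FINM.pl2.elp x.1 j.1 hpl hp.1 h
    exact ⟨j.1 - ε, by linarith, fun t t1 t2 => (ht t t1.le t2).ne⟩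

theorem fin (hGA : SpecGA) : ∀ (Z : Set ME) (α β u : ℝ) (x : ME), Ux Z α β x u →
    (JJ Z α β u x).Finite := by
  intro Z α β u x hx
  have hpl := (hGA.fa Z α β hx.sgl x.1 (memx hx)).2.2
  have hf := FINM.plb.fixR x.1 hpl
  refine Set.Finite.of_finite_image (f := Prod.snd) (hf.subset ?_) ?_
  · rintro _ ⟨j, hj, rfl⟩
    exact ⟨(pr hGA Z α β u x hx j hj).2, erne hGA Z α β u x hx j hj⟩
  · intro j hj k hk hjk
    by_contra hne
    have hd := hGA.dj Z α β u x hx j k hj.1 hk.1 hne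
    have m1 : j.2 ∈ Icc j.1 j.2 := ⟨hj.1.lt.le, le_rfl⟩
    have m2 : j.2 ∈ Icc k.1 k.2 := by
      have h : j.2 = k.2 := hjk
      rw [h]
      exact ⟨hk.1.lt.le, le_rfl⟩
    exact Set.disjoint_left.mp hd m1 m2

theorem specGB (hGA : SpecGA) : SpecGB where
  ex := ex hGA
  pr := pr hGA
  mr := mr hGA
  ml := ml hGA
  fin := fin hGA

end FPT.GF.AF.GBM
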