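import Pool.Agent.Lib.MP_c27bde_al.AF.Spec

/-!
MP_c27bde_al, AF, module GC (helper51): the gaps that contain a fixed interval of `x` are blocks.
-/

set_option autoImplicit false

namespace FPT.GF.AF.GCM

open Set FPT FPT.GF FPT.GF.AF

/-- left neighbourhoods of a moved point are moved -/
theorem movL (g : Hm) (c : ℝ) (h : g c ≠ c) : ∃ u, u < c ∧ ∀ t, u < t → t ≤ c → g t ≠ t := by
  have hc : Continuous (g : ℝ → ℝ) := g.continuous
  have ho : IsOpen {t : ℝ | g t ≠ t} := isOpen_ne_fun hc continuous_id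
  obtain ⟨ε, hε, hb⟩ := Metric.isOpen_iff.1 ho c h
  refine ⟨c - ε, by linarith, fun t h1 h2 => hb ?_⟩
  rw [Metric.mem_ball, Real.dist_eq, abs_lt]
  constructor <;> linarith

/-- right neighbourhoods of a moved point are moved -/
theorem movR (g : Hm) (c : ℝ) (h : g c ≠ c) : ∃ u, c < u ∧ ∀ t, c ≤ t → t < u → g t ≠ t := by
  have hc : Continuous (g : ℝ → ℝ) := g.continuous
  have ho : IsOpen {t : ℝ | g t ≠ t} := isOpen_ne_fun hc continuous_id
  obtain ⟨ε, hε, hb⟩ := Metric.isOpen_iff.1 ho c h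
  refine ⟨c + ε, by linarith, fun t h1 h2 => hb ?_⟩
  rw [Metric.mem_ball, Real.dist_eq, abs_lt]
  constructor <;> linarith

theorem specGC (hPC : SpecPC) (hGA : SpecGA) (hGB : SpecGB) : SpecGC := by
  intro Z α β u x hU
  have hfam := hU.sgl.fam
  refine ⟨hfam, fun j hj => hj.1.lt, fun j hj k hk hne => hGA.dj Z α β u x hU j k hj.1 hk.1 hne, ?_⟩
  intro p hp j hj
  by_cases hPr : Prs p.1 j
  · exact Or.inl hPr
  refine Or.inr ?_
  have hpcl : p.1 ∈ cl Z := Subgroup.subset_closure ⟨p, hp, rfl⟩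
  have hgap : Gap Z α β u (p.1 j.1, p.1 j.2) := hGA.gp Z α β u hU.sgl j hj.1 p.1 hpcl
  have hne : j ≠ (p.1 j.1, p.1 j.2) := by
    intro h
    apply hPr
    have h1 : j.1 = p.1 j.1 := congrArg Prod.fst h
    have h2 : j.2 = p.1 j.2 := congrArg Prod.snd h
    exact ⟨h1.symm, h2.symm⟩
  have hdj := hGA.dj Z α β u x hU j _ hj.1 hgap hne
  have hlt : j.1 < j.2 := hj.1.lt
  have hmv : ∀ t, j.1 ≤ t → t ≤ j.2 → p.1 t ≠ t := by
    intro t h1 h2 h3
    refine Set.disjoint_left.1 hdj (⟨h1, h2⟩ : t ∈ Icc j.1 j.2) ?_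
    have h4 : p.1 j.1 ≤ p.1 t := p.1.monotone h1
    have h5 : p.1 t ≤ p.1 j.2 := p.1.monotone h2
    rw [h3] at h4 h5
    exact ⟨h4, h5⟩
  have hxp : x ≠ p := by
    intro h
    exact hPr (h ▸ hGB.pr Z α β u x hU j hj)
  have hNx : Nice x := hPC.nice x (hfam.mks x hU.mem)
  obtain ⟨hx1, hx2⟩ := hGB.pr Z α β u x hU j hj
  have hdis := hfam.dis x hU.mem p hp hxp
  -- a point left of the block
  obtain ⟨v1, hv1, hv1'⟩ := hGB.ml Z α β u x hU j hj
  obtain ⟨a1, ha1, ha1'⟩ := hNx.adL v1 j.1 hv1 hx1 hv1'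
  obtain ⟨a2, ha2, ha2'⟩ := movL p.1 j.1 (hmv j.1 le_rfl hlt.le)
  obtain ⟨a, haa, haj⟩ := exists_between (max_lt ha1 ha2)
  have haF : a ∈ Ft x := ha1' a (lt_of_le_of_lt (le_max_left _ _) haa) haj
  have ham : ∀ t, a ≤ t → t ≤ j.1 → p.1 t ≠ t := fun t h1 h2 =>
    ha2' t (lt_of_lt_of_le (lt_of_le_of_lt (le_max_right _ _) haa) h1) h2
  have haD : a ∈ p.2 := by
    by_contra h
    exact Set.disjoint_left.1 hdis haF ⟨ham a le_rfl haj.le, h⟩
  -- a point right of the block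
  obtain ⟨v2, hv2, hv2'⟩ := hGB.mr Z α β u x hU j hj
  obtain ⟨b1, hb1, hb1'⟩ := hNx.adR j.2 v2 hv2 hx2 hv2'
  obtain ⟨b2, hb2, hb2'⟩ := movR p.1 j.2 (hmv j.2 hlt.le le_rfl)
  obtain ⟨b, hbj, hbb⟩ := exists_between (lt_min hb1 hb2)
  have hbF : b ∈ Ft x := hb1' b hbj (lt_of_lt_of_le hbb (min_le_left _ _))
  have hbm : ∀ t, j.2 ≤ t → t ≤ b → p.1 t ≠ t := fun t h1 h2 =>
    hb2' t h1 (lt_of_le_of_lt h2 (lt_of_lt_of_le hbb (min_le_right _ _)))
  have hbD : b ∈ p.2 := by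
    by_contra h
    exact Set.disjoint_left.1 hdis hbF ⟨hbm b hbj.le le_rfl, h⟩
  have hab : a ≤ b := (haj.trans (hlt.trans hbj)).le
  have hall : ∀ t ∈ uIcc a b, p.1 t ≠ t := by
    intro t ht
    rw [uIcc_of_le hab] at ht
    rcases le_total t j.1 with h1 | h1
    · exact ham t ht.1 h1
    · rcases le_total t j.2 with h2 | h2
      · exact hmv t h1 h2
      · exact hbm t h2 ht.2
  intro t ht
  refine hPC.dc p (hfam.mks p hp) a b haD hbD hall ?_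
  rw [uIcc_of_le hab]
  exact ⟨haj.le.trans ht.1, ht.2.trans hbj.le⟩

end FPT.GF.AF.GCM
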