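import Pool.Agent.Lib.MP_c27bde_al.AF.Spec

/-!
MP_c27bde_al, AF, module GD (helper16): the blocks `JJ` satisfy `Asm`.
-/

set_option autoImplicit false

namespace FPT.GF.AF.GDM

open Set FPT FPT.GF

/-- near a moved point everything is moved -/
theorem near_mv (g : Hm) (w : ℝ) (h : g w ≠ w) :
    ∃ δ > 0, ∀ t, w - δ < t → t < w + δ → g t ≠ t := by
  have ho : IsOpen {t : ℝ | g t ≠ t} := isOpen_ne_fun g.continuous continuous_id
  obtain ⟨δ, hδ, hb⟩ := Metric.isOpen_iff.1 ho w h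
  refine ⟨δ, hδ, fun t h1 h2 => hb ?_⟩
  rw [Metric.mem_ball, Real.dist_eq, abs_lt]
  constructor <;> linarith

/-- `er ≠ 0`: moved points just right of a fixed point -/
theorem right_mv (g : Hm) (hg : IsPL g) (w : ℝ) (hw : g w = w) (he : er g w ≠ 0) :
    ∃ v, w < v ∧ ∀ t, w < t → t < v → g t ≠ t := by
  rcases lt_or_gt_of_ne he with h | h
  · obtain ⟨ε, hε, H⟩ := FINM.pl2.ern g w hg hw h
    exact ⟨w + ε, by linarith, fun t h1 h2 => (H t h1 h2.le).ne⟩
  · obtain ⟨ε, hε, H⟩ := FINM.pl2.erp g w hg hw h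
    exact ⟨w + ε, by linarith, fun t h1 h2 => (H t h1 h2.le).ne'⟩

/-- `el ≠ 0`: moved points just left of a fixed point -/
theorem left_mv (g : Hm) (hg : IsPL g) (w : ℝ) (hw : g w = w) (he : el g w ≠ 0) :
    ∃ v, v < w ∧ ∀ t, v < t → t < w → g t ≠ t := by
  rcases lt_or_gt_of_ne he with h | h
  · obtain ⟨ε, hε, H⟩ := FINM.pl2.eln g w hg hw h
    exact ⟨w - ε, by linarith, fun t h1 h2 => (H t h1.le h2).ne'⟩
  · obtain ⟨ε, hε, H⟩ := FINM.pl2.elp g w hg hw h
    exact ⟨w - ε, by linarith, fun t h1 h2 => (H t h1.le h2).ne⟩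

theorem specGD (hPC : SpecPC) (_hOF : SpecOF) (hBK : SpecBK) (_hGA : SpecGA) (hGB : SpecGB)
    (hGC : SpecGC) : SpecGD := by
  intro Z α β u x hU
  have hb : Blk Z (JJ Z α β u x) := hGC Z α β u x hU
  have hfin : (JJ Z α β u x).Finite := hGB.fin Z α β u x hU
  have hpr : ∀ j ∈ JJ Z α β u x, Prs x.1 j := hGB.pr Z α β u x hU
  have hGl : ∀ j ∈ JJ Z α β u x, α < j.1 := fun j hj => hj.1.l
  have hex := hGB.ex Z α β u x hU
  have hml := hGB.ml Z α β u x hU
  have hmr := hGB.mr Z α β u x hU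
  generalize JJ Z α β u x = J at hb hfin hpr hGl hex hml hmr ⊢
  have hxm : Mk x := hU.sgl.fam.mks x hU.mem
  have hau := hU.au
  -- a moved point near `α`
  have ht0 : (po J x).1 ((α + u) / 2) = x.1 ((α + u) / 2) := by
    apply hBK.o2 Z J hb x hU.mem
    rintro ⟨j, hj, hp, h1, h2⟩
    exact hU.mv j.1 (hGl j hj) (by linarith) hp.1
  have hne : (po J x).1 ≠ 1 := by
    intro h
    rw [h] at ht0
    exact hU.mv _ (by linarith) (by linarith) ht0.symm
  have hmk : Mk (po J x) := hBK.mk1 Z J hb x hU.mem hne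
  have hn : Nice (po J x) := hPC.nice _ hmk
  have hpc : Pc (po J x) x := hBK.pc1 Z J hb x hU.mem
  refine ⟨hb, hfin, hU.mem, hpr, hne, ?_, ?_⟩
  · intro p hp hpx w hw
    have hpp : Pc (po J p) p := hBK.pc1 Z J hb p hp
    have hwp : w ∈ Ft p := by
      have h1 := hPC.ft _ _ hpp
      rw [h1] at hw
      exact hw.1
    have hmp : Mk p := hU.sgl.fam.mks p hp
    have hpw : p.1 w ≠ w := hwp.1
    have hα : α < w := by
      by_contra h
      exact hpw (hU.sgl.out p hp w (Or.inl (not_lt.1 h)))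
    have hβ : w < β := by
      by_contra h
      exact hpw (hU.sgl.out p hp w (Or.inr (not_lt.1 h)))
    have hnb : ∀ j ∈ J, w ∉ Icc j.1 j.2 := by
      intro j hj hwj
      by_cases h : Prs p.1 j
      · exact hw.1 (hBK.o1 Z J hb p hp j hj h w hwj)
      · exact hw.2 (hBK.o3 Z J hb p hp j hj h hwj)
    have hox : (po J x).1 w = x.1 w := by
      apply hBK.o2 Z J hb x hU.mem
      rintro ⟨j, hj, _, h1, h2⟩
      exact hnb j hj ⟨h1.le, h2.le⟩
    have hdis := Set.disjoint_left.1 (hU.sgl.fam.dis p hp x hU.mem hpx)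
    have hxw : x.1 w ≠ w := by
      intro hxw
      have her : er x.1 w ≠ 0 := by
        intro h0
        obtain ⟨ε, hε, H⟩ := FINM.pl2.er0 x.1 w hxm.pl hxw h0
        have h1 : w < min (w + ε) ((w + β) / 2) := lt_min (by linarith) (by linarith)
        have h2 : min (w + ε) ((w + β) / 2) < β := by
          have := min_le_right (w + ε) ((w + β) / 2)
          linarith
        obtain ⟨j, hj, h3, h4⟩ := hex w (min (w + ε) ((w + β) / 2)) hα h1 h2
          (fun t h3 h4 => H t h3 (h4.trans (min_le_left _ _)))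
        exact hnb j hj ⟨h3, h1.le.trans h4⟩
      have hel : el x.1 w ≠ 0 := by
        intro h0
        obtain ⟨ε, hε, H⟩ := FINM.pl2.el0 x.1 w hxm.pl hxw h0
        have h1 : max (w - ε) ((w + α) / 2) < w := max_lt (by linarith) (by linarith)
        have h2 : α < max (w - ε) ((w + α) / 2) := by
          have := le_max_right (w - ε) ((w + α) / 2)
          linarith
        obtain ⟨j, hj, h3, h4⟩ := hex (max (w - ε) ((w + α) / 2)) w h2 h1 hβ
          (fun t h3 h4 => H t ((le_max_left _ _).trans h3) h4)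
        exact hnb j hj ⟨h3.trans h1.le, h4⟩
      obtain ⟨r, hr, Hr⟩ := right_mv x.1 hxm.pl w hxw her
      obtain ⟨l, hl, Hl⟩ := left_mv x.1 hxm.pl w hxw hel
      obtain ⟨r', hr', Hr'⟩ := (hPC.nice x hxm).adR w r hr hxw Hr
      obtain ⟨l', hl', Hl'⟩ := (hPC.nice x hxm).adL l w hl hxw Hl
      obtain ⟨δ, hδ, Hδ⟩ := near_mv p.1 w hpw
      have a1 : max l' (w - δ) < w := max_lt hl' (by linarith)
      have b1 : w < min r' (w + δ) := lt_min hr' (by linarith)
      obtain ⟨a, ha1, ha2⟩ := exists_between a1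
      obtain ⟨b, hb1, hb2⟩ := exists_between b1
      have ha3 : l' < a := (le_max_left _ _).trans_lt ha1
      have ha4 : w - δ < a := (le_max_right _ _).trans_lt ha1
      have hb3 : b < r' := hb2.trans_le (min_le_left _ _)
      have hb4 : b < w + δ := hb2.trans_le (min_le_right _ _)
      have hab : a ≤ b := by linarith
      have hap : a ∈ p.2 := by
        by_contra h
        exact hdis (show a ∈ Ft p from ⟨Hδ a ha4 (by linarith), h⟩) (Hl' a ha3 ha2)
      have hbp : b ∈ p.2 := by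
        by_contra h
        exact hdis (show b ∈ Ft p from ⟨Hδ b (by linarith) hb4, h⟩) (Hr' b hb1 hb3)
      have hdc := hPC.dc p hmp a b hap hbp (fun t ht => by
        rw [uIcc_of_le hab] at ht
        exact Hδ t (by linarith [ht.1]) (by linarith [ht.2]))
      rw [uIcc_of_le hab] at hdc
      exact hwp.2 (hdc ⟨ha2.le, hb1.le⟩)
    rw [hpc.dom]
    refine ⟨?_, ?_⟩
    · by_contra h
      exact hdis hwp (show w ∈ Ft x from ⟨hxw, h⟩)
    · show (po J x).1 w ≠ w
      rw [hox]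
      exact hxw
  · intro j hj w hw
    have hjj := hpr j hj
    have hlt := hb.lt j hj
    refine ⟨?_, hBK.o1 Z J hb x hU.mem j hj hjj w hw⟩
    obtain ⟨v, hv, Hv⟩ := hml j hj
    obtain ⟨v', hv', Hv'⟩ := hmr j hj
    have A : ∀ t, v < t → t < j.1 → (po J x).1 t ≠ t := by
      intro t h1 h2
      rw [hBK.o2 Z J hb x hU.mem t]
      · exact Hv t h1 h2
      · rintro ⟨k, hk, hp, h3, h4⟩
        have h5 : j.1 ≤ k.2 := by
          by_contra h5
          exact Hv k.2 (by linarith) (not_le.1 h5) hp.2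
        have h6 : j ≠ k := by
          rintro rfl
          linarith
        exact (Set.disjoint_left.1 (hb.dj j hj k hk h6))
          (show j.1 ∈ Icc j.1 j.2 from ⟨le_rfl, hlt.le⟩)
          (show j.1 ∈ Icc k.1 k.2 from ⟨by linarith, h5⟩)
    have B : ∀ t, j.2 < t → t < v' → (po J x).1 t ≠ t := by
      intro t h1 h2
      rw [hBK.o2 Z J hb x hU.mem t]
      · exact Hv' t h1 h2
      · rintro ⟨k, hk, hp, h3, h4⟩
        have h5 : k.1 ≤ j.2 := by
          by_contra h5
          exact Hv' k.1 (not_le.1 h5) (by linarith) hp.1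
        have h6 : j ≠ k := by
          rintro rfl
          linarith
        exact (Set.disjoint_left.1 (hb.dj j hj k hk h6))
          (show j.2 ∈ Icc j.1 j.2 from ⟨hlt.le, le_rfl⟩)
          (show j.2 ∈ Icc k.1 k.2 from ⟨h5, by linarith⟩)
    obtain ⟨a, ha, Ha⟩ := hn.adL v j.1 hv
      (hBK.o1 Z J hb x hU.mem j hj hjj j.1 ⟨le_rfl, hlt.le⟩) A
    obtain ⟨b, hb', Hb⟩ := hn.adR j.2 v' hv'
      (hBK.o1 Z J hb x hU.mem j hj hjj j.2 ⟨hlt.le, le_rfl⟩) B
    refine ⟨(a + j.1) / 2, Ha _ (by linarith) (by linarith), (j.2 + b) / 2,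
      Hb _ (by linarith) (by linarith), ?_, ?_⟩
    · linarith [hw.1]
    · linarith [hw.2]

end FPT.GF.AF.GDM
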