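import Pool.Agent.Lib.MP_c27bde_al.AF.Spec

/-! MP_c27bde_al, AF/HP (helper86). -/

set_option autoImplicit false

namespace FPT.GF.AF.HPM

open Set FPT FPT.GF FPT.GF.AF

/-- the conclusion of `HP` for one element -/
def Q (Z : Set ME) (J : Set (ℝ × ℝ)) (h : Hm) : Prop :=
  ∀ i ∈ J, ∀ g ∈ Ho Z J, ∃ g' ∈ Ho Z J, ∃ r ∈ Ri Z i, r i.1 = i.1 ∧ r i.2 = i.2 ∧
    ∀ v ∈ Icc i.1 i.2, h (g v) = g' (r v)

theorem Q_po (Z : Set ME) (J : Set (ℝ × ℝ)) (h : Hm) (hh : h ∈ Ho Z J) : Q Z J h := by
  intro i _ g hg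
  exact ⟨h * g, mul_mem hh hg, 1, one_mem _, rfl, rfl, fun v _ => rfl⟩

theorem Q_mul (Z : Set ME) (J : Set (ℝ × ℝ)) (h k : Hm) (hh : Q Z J h) (hk : Q Z J k) :
    Q Z J (h * k) := by
  intro i hi g hg
  obtain ⟨g1, hg1, r1, hr1, a1, b1, e1⟩ := hk i hi g hg
  obtain ⟨g2, hg2, r2, hr2, a2, b2, e2⟩ := hh i hi g1 hg1
  refine ⟨g2, hg2, r2 * r1, mul_mem hr2 hr1, ?_, ?_, ?_⟩
  · show r2 (r1 i.1) = i.1
    rw [a1, a2]
  · show r2 (r1 i.2) = i.2
    rw [b1, b2]
  · intro v hv
    have hv1 : r1 v ∈ Icc i.1 i.2 := by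
      constructor
      · have := r1.monotone hv.1
        rwa [a1] at this
      · have := r1.monotone hv.2
        rwa [b1] at this
    show h (k (g v)) = g2 (r2 (r1 v))
    rw [e1 v hv, e2 (r1 v) hv1]

theorem inv_eq (g : Hm) (v w : ℝ) (h : g w = v) : g⁻¹ v = w := by
  rw [← h]
  exact g.symm_apply_apply w

theorem specHP (BK : SpecBK) (PP : SpecPP) : SpecHP := by
  intro Z J hB h hh
  have key : Q Z J h ∧ Q Z J h⁻¹ := by
    induction hh using Subgroup.closure_induction with
    | mem x hx =>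
      rcases hx with ⟨p, hp, rfl⟩ | ⟨p, hp, j, hj, hpj, rfl⟩
      · have hm : (po J p).1 ∈ Ho Z J := Subgroup.subset_closure ⟨p, hp, rfl⟩
        exact ⟨Q_po Z J _ hm, Q_po Z J _ (inv_mem hm)⟩
      · have hout : ∀ w, w ∉ Icc j.1 j.2 → (pin p j).1 w = w := by
          intro w hw
          apply BK.i2 Z J hB p hp j hj hpj
          intro hw'
          exact hw ⟨hw'.1.le, hw'.2.le⟩
        have hin : ∀ w ∈ Icc j.1 j.2, (pin p j).1 w = p.1 w := BK.i1 Z J hB p hp j hj hpj
        constructor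
        · intro i hi g hg
          by_cases hc : ∃ w ∈ Icc i.1 i.2, g w ∈ Icc j.1 j.2
          · obtain ⟨w, hw, hgw⟩ := hc
            obtain ⟨hij, hid⟩ := PP Z J hB g hg i hi j hj w hw hgw
            subst hij
            refine ⟨1, one_mem _, p.1, Subgroup.subset_closure ⟨p, hp, hpj, rfl⟩, hpj.1, hpj.2, ?_⟩
            intro v hv
            show (pin p i).1 (g v) = p.1 v
            rw [hid v hv]
            exact hin v hv
          · refine ⟨g, hg, 1, one_mem _, rfl, rfl, ?_⟩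
            intro v hv
            show (pin p j).1 (g v) = g v
            exact hout _ (fun hgv => hc ⟨v, hv, hgv⟩)
        · intro i hi g hg
          by_cases hc : ∃ w ∈ Icc i.1 i.2, g w ∈ Icc j.1 j.2
          · obtain ⟨w, hw, hgw⟩ := hc
            obtain ⟨hij, hid⟩ := PP Z J hB g hg i hi j hj w hw hgw
            subst hij
            have ha : p.1⁻¹ i.1 = i.1 := inv_eq _ _ _ hpj.1
            have hb : p.1⁻¹ i.2 = i.2 := inv_eq _ _ _ hpj.2
            refine ⟨1, one_mem _, p.1⁻¹,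
              inv_mem (Subgroup.subset_closure ⟨p, hp, hpj, rfl⟩), ha, hb, ?_⟩
            intro v hv
            show (pin p i).1⁻¹ (g v) = p.1⁻¹ v
            rw [hid v hv]
            apply inv_eq
            have hv' : p.1⁻¹ v ∈ Icc i.1 i.2 := by
              constructor
              · have := (p.1⁻¹ : Hm).monotone hv.1
                rwa [ha] at this
              · have := (p.1⁻¹ : Hm).monotone hv.2
                rwa [hb] at this
            rw [hin _ hv']
            exact p.1.apply_symm_apply v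
          · refine ⟨g, hg, 1, one_mem _, rfl, rfl, ?_⟩
            intro v hv
            show (pin p j).1⁻¹ (g v) = g v
            apply inv_eq
            exact hout _ (fun hgv => hc ⟨v, hv, hgv⟩)
    | one =>
      have h1 : Q Z J 1 := Q_po Z J 1 (one_mem _)
      exact ⟨h1, by rw [inv_one]; exact h1⟩
    | mul x y _ _ hx hy =>
      refine ⟨Q_mul Z J x y hx.1 hy.1, ?_⟩
      rw [mul_inv_rev]
      exact Q_mul Z J _ _ hy.2 hx.2
    | inv x _ hx =>
      refine ⟨hx.2, ?_⟩
      rw [inv_inv]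
      exact hx.1
  exact key.1

end FPT.GF.AF.HPM
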