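import Pool.Agent.Lib.MP_c27bde_al.AF.Spec

/-!
Module LC of the book AF (MP_c27bde_al): the label lemma.
-/

set_option autoImplicit false

namespace FPT.GF.AF.LCM

open Set FPT FPT.GF FPT.GF.AF

theorem T_succ_even (A B : Set ℝ) (n : ℕ) (h : Even n) : T A B (n + 1) = cv (A ∩ T A B n) := by
  show cv ((if Even n then A else B) ∩ T A B n) = _
  rw [if_pos h]

theorem T_succ_odd (A B : Set ℝ) (n : ℕ) (h : ¬ Even n) : T A B (n + 1) = cv (B ∩ T A B n) := by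
  show cv ((if Even n then A else B) ∩ T A B n) = _
  rw [if_neg h]

/-- `T A B (n+1) ⊆ T B A n` -/
theorem T_swap (A B : Set ℝ) (n : ℕ) : T A B (n + 1) ⊆ T B A n := by
  induction n with
  | zero =>
    rw [T_succ_even A B 0 Even.zero]
    exact LBM.cv_mono inter_subset_left
  | succ n ih =>
    by_cases h : Even n
    · rw [T_succ_odd A B (n + 1) (by rw [Nat.even_add_one]; exact not_not.2 h),
        T_succ_even B A n h]
      exact LBM.cv_mono (inter_subset_inter_right B ih)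
    · rw [T_succ_even A B (n + 1) (Nat.even_add_one.2 h), T_succ_odd B A n h]
      exact LBM.cv_mono (inter_subset_inter_right A ih)

/-- if `A ⊆ cv B` then `T B A n ⊆ T A B (n+1)` -/
theorem T_shift (A B : Set ℝ) (hA : A ⊆ cv B) (n : ℕ) : T B A n ⊆ T A B (n + 1) := by
  induction n with
  | zero =>
    rw [T_succ_even A B 0 Even.zero]
    exact LBM.cv_mono (subset_inter Subset.rfl hA)
  | succ n ih =>
    by_cases h : Even n
    · rw [T_succ_odd A B (n + 1) (by rw [Nat.even_add_one]; exact not_not.2 h),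
        T_succ_even B A n h]
      exact LBM.cv_mono (inter_subset_inter_right B ih)
    · rw [T_succ_even A B (n + 1) (Nat.even_add_one.2 h), T_succ_odd B A n h]
      exact LBM.cv_mono (inter_subset_inter_right A ih)

theorem anti_le (A B : Set ℝ) {c d : ℕ} (h : c ≤ d) : T A B d ⊆ T A B c := by
  induction h with
  | refl => exact Subset.rfl
  | step _ ih => exact (LBM.anti A B _).trans ih

theorem mono {c d : ℕ} {A B : Set ℝ} (h : c ≤ d) (hl : Lb c A B) : Lb d A B :=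
  ⟨subset_empty_iff.1 ((anti_le A B h).trans hl.1.subset),
    subset_empty_iff.1 ((anti_le B A h).trans hl.2.subset)⟩

theorem sub {c : ℕ} {A B A' B' : Set ℝ} (hA : A' ⊆ A) (hB : B' ⊆ B) (hl : Lb c A B) :
    Lb c A' B' :=
  ⟨subset_empty_iff.1 ((LBM.T_mono hA hB c).trans hl.1.subset),
    subset_empty_iff.1 ((LBM.T_mono hB hA c).trans hl.2.subset)⟩

theorem im (h : Hm) (c : ℕ) (A B : Set ℝ) : Lb c (h '' A) (h '' B) ↔ Lb c A B := by
  unfold Lb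
  rw [CJM.T_im, CJM.T_im, Set.image_eq_empty, Set.image_eq_empty]

theorem one (A B : Set ℝ) (h : Lb 1 A B) : ∀ w ∈ cv A, w ∉ cv B := by
  rintro w ⟨a1, ha1, a2, ha2, h1, h2⟩ ⟨b1, hb1, b2, hb2, h3, h4⟩
  have e1 : T A B 1 = cv (A ∩ cv B) := T_succ_even A B 0 Even.zero
  have e2 : T B A 1 = cv (B ∩ cv A) := T_succ_even B A 0 Even.zero
  rcases le_total a1 b1 with h5 | h5
  · have : b1 ∈ T B A 1 := by
      rw [e2]
      exact LBM.sub_cv _ ⟨hb1, a1, ha1, a2, ha2, h5, h3.trans h2⟩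
    rw [h.2] at this
    exact this
  · have : a1 ∈ T A B 1 := by
      rw [e1]
      exact LBM.sub_cv _ ⟨ha1, b1, hb1, b2, hb2, h5, h1.trans h4⟩
    rw [h.1] at this
    exact this

section

variable {x0 q1 q2 : ME}

theorem ins_cv (pc : SpecPC) (hx : Mk x0) (h1 : Ins x0 q1) : Ft q1 ⊆ cv (Ft x0) :=
  fun _ hw => (pc.nice x0 hx).hul ((pc.nice x0 hx).sub (h1 hw))

/-- one half of the lemma for two copies with different exponents -/
theorem half (pc : SpecPC) (hx : Mk x0) (h1 : Ins x0 q1) (h2 : Ins x0 q2) {m m' : ℤ} (hm : m ≠ m')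
    {c : ℕ} (hl : Lb (c + 1) (Ft x0) (Ft q1)) :
    T (Ft (cj (x0.1 ^ m') q2)) (Ft (cj (x0.1 ^ m) q1)) c = ∅ := by
  rw [LBM.cj_split MainM.cj' x0.1 m m' q2, MainM.cj'.ft (x0.1 ^ m), MainM.cj'.ft (x0.1 ^ m),
    CJM.T_im, Set.image_eq_empty]
  have hj : m' - m ≠ 0 := sub_ne_zero.mpr (Ne.symm hm)
  have h3 : Ft (cj (x0.1 ^ (m' - m)) q2) ⊆ Ft x0 :=
    LBM.ft_copy MainM.cj' (pc.nice x0 hx) h2 hj
  have h4 : T (Ft x0) (Ft q1) c = ∅ :=
    subset_empty_iff.1 ((T_shift (Ft q1) (Ft x0) (ins_cv pc hx h1) c).trans hl.2.subset)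
  exact subset_empty_iff.1 ((LBM.T_mono h3 Subset.rfl c).trans h4.subset)

theorem dd (pc : SpecPC) (hx : Mk x0) (h1 : Ins x0 q1) (h2 : Ins x0 q2) {m m' : ℤ} (hm : m ≠ m')
    {c : ℕ} (hl1 : Lb (c + 1) (Ft x0) (Ft q1)) (hl2 : Lb (c + 1) (Ft x0) (Ft q2)) :
    Lb c (Ft (cj (x0.1 ^ m) q1)) (Ft (cj (x0.1 ^ m') q2)) :=
  ⟨half pc hx h2 h1 hm.symm hl2, half pc hx h1 h2 hm hl1⟩

theorem dd' (pc : SpecPC) (hx : Mk x0) (h1 : Ins x0 q1) (h2 : Ins x0 q2) {m m' : ℤ} (hm : m ≠ m')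
    {c : ℕ} (hl1 : Lb (c + 1) (Ft x0) (Ft q1)) :
    Lb (c + 1) (Ft (cj (x0.1 ^ m) q1)) (Ft (cj (x0.1 ^ m') q2)) := by
  have h3 := half pc hx h1 h2 hm hl1
  exact ⟨subset_empty_iff.1 ((T_swap _ _ c).trans h3.subset),
    subset_empty_iff.1 ((LBM.anti _ _ c).trans h3.subset)⟩

end

theorem ft_cj_mv {x0 q : ME} (pc : SpecPC) (hx : Mk x0) (hi : Ins x0 q) (m : ℤ) :
    ∀ w ∈ Ft (cj (x0.1 ^ m) q), x0.1 w ≠ w := by
  intro w hw
  rw [MainM.cj'.ft] at hw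
  obtain ⟨v, hv, rfl⟩ := hw
  exact FUM.zpow_mv x0.1 m v ((pc.nice x0 hx).sub (hi hv))

theorem dj' {x0 q r : ME} (pc : SpecPC) (hx : Mk x0) (hi : Ins x0 q)
    (hr : ∀ w ∈ cv (Ft r), x0.1 w = w) (m : ℤ) :
    T (Ft (cj (x0.1 ^ m) q)) (Ft r) 1 = ∅ ∧ T (Ft r) (Ft (cj (x0.1 ^ m) q)) 2 = ∅ := by
  have hmv := ft_cj_mv pc hx hi m
  set A := Ft (cj (x0.1 ^ m) q) with hA
  have h1 : A ∩ cv (Ft r) = ∅ := by
    ext w
    constructor
    · rintro ⟨h2, h3⟩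
      exact (hmv w h2 (hr w h3)).elim
    · intro h
      exact h.elim
  constructor
  · rw [T_succ_even A (Ft r) 0 Even.zero]
    show cv (A ∩ cv (Ft r)) = ∅
    rw [h1, LBM.cv_empty]
  · rw [T_succ_odd (Ft r) A 1 (by decide), T_succ_even (Ft r) A 0 Even.zero]
    show cv (A ∩ cv (Ft r ∩ cv A)) = ∅
    have h2 : A ∩ cv (Ft r ∩ cv A) = ∅ := by
      refine subset_empty_iff.1 (Subset.trans ?_ h1.subset)
      exact inter_subset_inter_right A (LBM.cv_mono inter_subset_left)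
    rw [h2, LBM.cv_empty]

theorem lb2 {x0 q r : ME} (pc : SpecPC) (hx : Mk x0) (hi : Ins x0 q)
    (hr : ∀ w ∈ cv (Ft r), x0.1 w = w) (m : ℤ) :
    Lb 2 (Ft (cj (x0.1 ^ m) q)) (Ft r) := by
  obtain ⟨h1, h2⟩ := dj' pc hx hi hr m
  exact ⟨subset_empty_iff.1 ((LBM.anti _ _ 1).trans h1.subset), h2⟩

/-- the first fixed point after a moved point -/
theorem firstfix (g : Hm) (a w : ℝ) (haw : a < w) (ha : g a ≠ a) (hw : g w = w) :
    ∃ z, a < z ∧ z ≤ w ∧ g z = z ∧ ∀ t, a ≤ t → t < z → g t ≠ t := by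
  set S : Set ℝ := {t | a ≤ t ∧ g t = t} with hS
  have hne : S.Nonempty := ⟨w, haw.le, hw⟩
  have hbd : BddBelow S := ⟨a, fun t ht => ht.1⟩
  have hcl : IsClosed S := by
    rw [hS]
    exact (isClosed_le continuous_const continuous_id).inter
      (isClosed_eq g.continuous continuous_id)
  have hmem := hcl.csInf_mem hne hbd
  refine ⟨sInf S, ?_, csInf_le hbd ⟨haw.le, hw⟩, hmem.2, fun t h1 h2 h3 => ?_⟩
  · refine lt_of_le_of_ne hmem.1 fun h => ?_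
    rw [h] at ha
    exact ha hmem.2
  · exact absurd (csInf_le hbd (⟨h1, h3⟩ : t ∈ S)) (not_le.2 h2)

theorem dj {x0 q r : ME} (pc : SpecPC) (hx : Mk x0) (hi : Ins x0 q)
    (hr : ∀ w ∈ cv (Ft r), x0.1 w = w) (m : ℤ) (c : ℕ) (hc : 1 ≤ c)
    (hl : Lb (c + 1) (Ft x0) (Ft q)) : Lb c (Ft (cj (x0.1 ^ m) q)) (Ft r) := by
  rcases Nat.lt_or_ge 1 c with h | h
  · exact mono h (lb2 pc hx hi hr m)
  · have hc1 : c = 1 := le_antisymm h hc
    subst hc1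
    have h1 : T (Ft x0) (Ft q) 1 = ∅ :=
      subset_empty_iff.1 ((T_shift (Ft q) (Ft x0) (ins_cv pc hx hi) 1).trans hl.2.subset)
    have h2 : T (Ft x0) (Ft q) 1 = cv (Ft x0 ∩ cv (Ft q)) := T_succ_even _ _ 0 Even.zero
    rw [h2] at h1
    have h3 : ∀ w ∈ Ft x0, w ∉ cv (Ft q) := by
      intro w hw hw'
      have : w ∈ cv (Ft x0 ∩ cv (Ft q)) := LBM.sub_cv (Ft x0 ∩ cv (Ft q)) ⟨hw, hw'⟩
      rw [h1] at this
      exact this
    have h4 : ∀ w ∈ cv (Ft q), x0.1 w ≠ w := by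
      rintro w ⟨p1, hp1, p2, hp2, h5, h6⟩ hw
      have hm1 : x0.1 p1 ≠ p1 := (pc.nice x0 hx).sub (hi hp1)
      have h7 : p1 < w := lt_of_le_of_ne h5 fun h => hm1 (by rw [h]; exact hw)
      obtain ⟨z, hz1, hz2, hz3, hz4⟩ := firstfix x0.1 p1 w h7 hm1 hw
      obtain ⟨u', hu1, hu2⟩ := (pc.nice x0 hx).adL p1 z hz1 hz3
        fun t ht1 ht2 => hz4 t ht1.le ht2
      obtain ⟨t, ht1, ht2⟩ := exists_between (max_lt hz1 hu1)
      exact h3 t (hu2 t (lt_of_le_of_lt (le_max_right _ _) ht1) ht2)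
        ⟨p1, hp1, p2, hp2, (lt_of_le_of_lt (le_max_left _ _) ht1).le,
          (ht2.le.trans hz2).trans h6⟩
    refine ⟨(dj' pc hx hi hr m).1, ?_⟩
    rw [T_succ_even _ _ 0 Even.zero]
    show cv (Ft r ∩ cv (Ft (cj (x0.1 ^ m) q))) = ∅
    have h5 : Ft r ∩ cv (Ft (cj (x0.1 ^ m) q)) = ∅ := by
      ext w
      constructor
      · rintro ⟨h6, h7⟩
        rw [MainM.cj'.ft, MainM.cj'.cv'] at h7
        obtain ⟨v, hv, rfl⟩ := h7
        exact (FUM.zpow_mv x0.1 m v (h4 v hv) (hr _ (LBM.sub_cv _ h6))).elim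
      · intro h
        exact h.elim
    rw [h5, LBM.cv_empty]

theorem specLC (pc : SpecPC) : SpecLC where
  symm := fun _ _ _ h => ⟨h.2, h.1⟩
  mono := fun _ _ _ _ h hl => mono h hl
  sub := fun _ _ _ _ _ hA hB hl => sub hA hB hl
  im := im
  fin := by
    intro p q hp hq hd
    obtain ⟨c, hc⟩ := MainM.lf (Ft p) (Ft q) hd (pc.nice p hp).fin (pc.nice q hq).fin
    obtain ⟨d, hd'⟩ := MainM.lf (Ft q) (Ft p) hd.symm (pc.nice q hq).fin (pc.nice p hp).fin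
    refine ⟨max c d, ?_, ?_⟩
    · exact subset_empty_iff.1 ((anti_le _ _ (le_max_left c d)).trans hc.subset)
    · exact subset_empty_iff.1 ((anti_le _ _ (le_max_right c d)).trans hd'.subset)
  one := one
  dd := fun _ _ _ hx h1 h2 _ _ hm _ hl1 hl2 => dd pc hx h1 h2 hm hl1 hl2
  dd' := fun _ _ _ hx h1 h2 _ _ hm _ hl1 => dd' pc hx h1 h2 hm hl1
  dj := fun _ _ _ hx hi hr m c hc hl => dj pc hx hi hr m c hc hl
  dj' := fun _ _ _ hx hi hr m => lb2 pc hx hi hr m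

end FPT.GF.AF.LCM
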