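import Pool.Agent.Lib.MP_c27bde_al.AF.CO

/-!
Module MA of the book AF (MP_c27bde_al, helper17): the splitting lemma from its two cases, the
induction along the game, and arbitrary geometrically fast sets.
-/

set_option autoImplicit false

namespace FPT.GF.AF.MAM

open Set FPT FPT.GF FPT.GF.AF

theorem specSL (c1 : SpecC1) (c2 : SpecC2) : SpecSL := by
  intro Z J hB hBal G hG a b hab ha hb hmov h hh h0
  by_cases hin : ∃ i ∈ J, ∃ g ∈ Ho Z J, g i.1 ≤ a ∧ b ≤ g i.2
  · obtain ⟨i, hi, g, hg, h1, h2⟩ := hin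
    exact c1 Z J hB hBal G hG a b hab ha hb hmov i hi g hg h1 h2 h hh h0
  · refine c2 Z J hB hBal G hG a b hab ha hb hmov ?_ h hh h0
    intro i hi g hg h1
    exact hin ⟨i, hi, g, hg, h1⟩

theorem specMA (pc : SpecPC) (co : SpecCO) (ex : SpecEX) (ass : SpecAS) (orb : SpecOR) :
    SpecMA := by
  intro Z hF
  have acc := co Z hF
  revert hF
  induction acc with
  | intro Z _ ih =>
    intro hF hBal
    refine orb Z hF hBal ?_
    intro Z' α β hsub hs
    obtain ⟨J, x, hA⟩ := ex Z' α β hs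
    exact ass Z' J x hA hs.bal fun W hW hBW => ih W (COM.stp_sub_r pc hsub hW) hW.1 hBW

theorem bal_mono {K L : Subgroup Hm} (h : K ≤ L) (hL : Bal L) : Bal K :=
  fun G hG => hL G (hG.trans h)

theorem specFF (ma : SpecMA) : SpecFF := by
  intro X D hX hBal hGF
  refine MainM.eg.dir X fun S0 hfin hS => ?_
  let Z : Set ME := (fun g : Hm => ((g, D g) : ME)) '' {g | g ∈ S0 ∧ g ≠ 1}
  have hZ : ∀ p ∈ Z, p.1 ∈ S0 ∧ p.1 ≠ 1 ∧ p.2 = D p.1 := by
    rintro _ ⟨g, hg, rfl⟩
    exact ⟨hg.1, hg.2, rfl⟩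
  have hfam : Fam Z := by
    refine ⟨(hfin.subset fun g hg => hg.1).image _, ?_, ?_⟩
    · intro p hp
      obtain ⟨h1, h2, h3⟩ := hZ p hp
      refine ⟨hX _ (hS h1), h2, ?_⟩
      rw [h3]
      exact hGF.1 _ (hS h1)
    · intro p hp q hq hpq
      obtain ⟨h1, h2, h3⟩ := hZ p hp
      obtain ⟨h4, h5, h6⟩ := hZ q hq
      have hne : p.1 ≠ q.1 := by
        intro h
        apply hpq
        refine Prod.ext h ?_
        rw [h3, h6, h]
      have := hGF.2 _ (hS h1) _ (hS h4) hne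
      rw [← h3, ← h6] at this
      exact this
  have hcl : cl Z = Subgroup.closure S0 := by
    apply le_antisymm
    · refine (Subgroup.closure_le _).2 ?_
      rintro _ ⟨p, hp, rfl⟩
      exact Subgroup.subset_closure (hZ p hp).1
    · refine (Subgroup.closure_le _).2 ?_
      intro g hg
      by_cases h1 : g = 1
      · rw [h1]
        exact (cl Z).one_mem
      · exact Subgroup.subset_closure ⟨(g, D g), ⟨g, ⟨hg, h1⟩, rfl⟩, rfl⟩
  have h := ma Z hfam (bal_mono (by rw [hcl]; exact Subgroup.closure_mono hS) hBal)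
  rw [hcl] at h
  exact h

end FPT.GF.AF.MAM
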