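import Pool.Agent.Lib.MP_c27bde_al.AF.Spec

/-!
MP_c27bde_al, AF, module OF: the identity on `S` and `g` off `S`.
-/

set_option autoImplicit false

namespace FPT.GF.AF.OFM

open Set FPT FPT.GF FPT.GF.AF

/-- a fixed point between `w` and `g w` -/
theorem fixb (g : Hm) {w t : ℝ} (ht : t ∈ uIcc w (g w)) (hf : g t = t) : g w = w := by
  rw [mem_uIcc] at ht
  rcases ht with ⟨h1, h2⟩ | ⟨h1, h2⟩
  · have h3 : g w ≤ t := by
      have := g.monotone h1
      rwa [hf] at this
    have h4 : t = g w := le_antisymm h2 h3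
    have h5 : g t = g w := hf.trans h4
    rw [g.injective h5] at h4
    exact h4.symm
  · have h3 : t ≤ g w := by
      have := g.monotone h2
      rwa [hf] at this
    have h4 : g w = t := le_antisymm h1 h3
    have h5 : g t = g w := hf.trans h4.symm
    rw [g.injective h5] at h4
    exact h4

/-- no fixed point in between: both points are in `S` or off `S` -/
theorem same {g : Hm} {S : Set ℝ} (hS : Sep g S) {y z : ℝ} (h : ∀ t ∈ uIcc y z, g t ≠ t) :
    y ∈ S ↔ z ∈ S := by
  constructor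
  · intro hy
    by_contra hz
    obtain ⟨t, ht, hf⟩ := hS y hy z hz
    exact h t ht hf
  · intro hz
    by_contra hy
    obtain ⟨t, ht, hf⟩ := hS z hz y hy
    rw [uIcc_comm] at ht
    exact h t ht hf

theorem mapS {g : Hm} {S : Set ℝ} (hS : Sep g S) (w : ℝ) : g w ∈ S ↔ w ∈ S := by
  by_cases h : g w = w
  · rw [h]
  · exact (same hS fun t ht hf => h (fixb g ht hf)).symm

open Classical in
theorem exists_off {g : Hm} {S : Set ℝ} (hS : Sep g S) :
    ∃ q : Hm, (∀ w ∈ S, q w = w) ∧ (∀ w, w ∉ S → q w = g w) := by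
  let q0 : ℝ → ℝ := fun w => if w ∈ S then w else g w
  have h1 : ∀ w ∈ S, q0 w = w := fun w hw => if_pos hw
  have h2 : ∀ w, w ∉ S → q0 w = g w := fun w hw => if_neg hw
  have hmono : StrictMono q0 := by
    intro w v hwv
    by_cases hw : w ∈ S
    · by_cases hv : v ∈ S
      · rw [h1 w hw, h1 v hv]; exact hwv
      · rw [h1 w hw, h2 v hv]
        obtain ⟨t, ht, hf⟩ := hS w hw v hv
        rw [uIcc_of_le hwv.le] at ht
        have h3 : w ≤ g v := by
          have := g.monotone ht.2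
          rw [hf] at this
          exact ht.1.trans this
        refine lt_of_le_of_ne h3 fun he => ?_
        have h4 := (mapS hS v).not.2 hv
        rw [← he] at h4
        exact h4 hw
    · by_cases hv : v ∈ S
      · rw [h2 w hw, h1 v hv]
        obtain ⟨t, ht, hf⟩ := hS v hv w hw
        rw [uIcc_comm, uIcc_of_le hwv.le] at ht
        have h3 : g w ≤ v := by
          have := g.monotone ht.1
          rw [hf] at this
          exact this.trans ht.2
        refine lt_of_le_of_ne h3 fun he => ?_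
        have h4 := (mapS hS w).not.2 hw
        rw [he] at h4
        exact h4 hv
      · rw [h2 w hw, h2 v hv]; exact g.strictMono hwv
  have hsurj : Function.Surjective q0 := by
    intro y
    by_cases hy : y ∈ S
    · exact ⟨y, h1 y hy⟩
    · refine ⟨g.symm y, ?_⟩
      have h3 : g.symm y ∉ S := by
        rw [← mapS hS, OrderIso.apply_symm_apply]
        exact hy
      rw [h2 _ h3, OrderIso.apply_symm_apply]
  refine ⟨hmono.orderIsoOfSurjective q0 hsurj, fun w hw => ?_, fun w hw => ?_⟩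
  · exact h1 w hw
  · exact h2 w hw

theorem off_spec {g : Hm} {S : Set ℝ} (hS : Sep g S) :
    (∀ w ∈ S, off g S w = w) ∧ (∀ w, w ∉ S → off g S w = g w) := by
  unfold off
  rw [dif_pos (exists_off hS)]
  exact (exists_off hS).choose_spec

/-- near a point -/
theorem germ {g q : Hm} {S : Set ℝ} (hS : Sep g S) (ha : ∀ w ∈ S, q w = w)
    (hb : ∀ w, w ∉ S → q w = g w) {I : Set ℝ} (hI : I.OrdConnected) {x c : ℝ} (hx : x ∈ I)
    (side : (∀ y ∈ I, x ≤ y) ∨ (∀ y ∈ I, y ≤ x))
    (aff : ∀ y ∈ I, g y = g x + c * (y - x))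
    (small : g x ≠ x → ∀ y ∈ I, |c - 1| * |y - x| < |g x - x|) :
    (∀ y ∈ I, q y = y) ∨ (∀ y ∈ I, q y = g y) := by
  have hq : ∀ y, g y = y → q y = y := by
    intro y hy
    by_cases h : y ∈ S
    · exact ha y h
    · rw [hb y h, hy]
  by_cases hgx : g x = x
  · by_cases hc : c = 1
    · left
      intro y hy
      apply hq
      rw [aff y hy, hgx, hc]
      ring
    · have hfix : ∀ y ∈ I, y ≠ x → g y ≠ y := by
        intro y hy hyx hf
        rw [aff y hy, hgx] at hf
        have h1 : (c - 1) * (y - x) = 0 := by linear_combination hf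
        rcases mul_eq_zero.1 h1 with h2 | h2
        · exact hc (by linarith)
        · exact hyx (by linarith)
      have hsame : ∀ y ∈ I, y ≠ x → ∀ z ∈ I, z ≠ x → (y ∈ S ↔ z ∈ S) := by
        intro y hy hyx z hz hzx
        apply same hS
        intro t ht
        refine hfix t (hI.uIcc_subset hy hz ht) ?_
        rw [mem_uIcc] at ht
        rcases side with hs | hs
        · have h1 := lt_of_le_of_ne (hs y hy) hyx.symm
          have h2 := lt_of_le_of_ne (hs z hz) hzx.symm
          rcases ht with ht | ht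
          · exact (h1.trans_le ht.1).ne'
          · exact (h2.trans_le ht.1).ne'
        · have h1 := lt_of_le_of_ne (hs y hy) hyx
          have h2 := lt_of_le_of_ne (hs z hz) hzx
          rcases ht with ht | ht
          · exact (ht.2.trans_lt h2).ne
          · exact (ht.2.trans_lt h1).ne
      by_cases h : ∃ z ∈ I, z ≠ x ∧ z ∈ S
      · obtain ⟨z, hz, hzx, hzS⟩ := h
        left
        intro y hy
        by_cases hyx : y = x
        · rw [hyx]; exact hq x hgx
        · exact ha y ((hsame y hy hyx z hz hzx).2 hzS)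
      · push Not at h
        right
        intro y hy
        by_cases hyx : y = x
        · rw [hyx, hq x hgx, hgx]
        · exact hb y (h y hy hyx)
  · have hfix : ∀ y ∈ I, g y ≠ y := by
      intro y hy hf
      have h1 := small hgx y hy
      rw [aff y hy] at hf
      have h2 : g x - x = -((c - 1) * (y - x)) := by linear_combination hf
      rw [h2, abs_neg, abs_mul] at h1
      exact lt_irrefl _ h1
    have hsame : ∀ y ∈ I, (y ∈ S ↔ x ∈ S) := fun y hy =>
      same hS fun t ht => hfix t (hI.uIcc_subset hy hx ht)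
    by_cases h : x ∈ S
    · left
      intro y hy
      exact ha y ((hsame y hy).2 h)
    · right
      intro y hy
      exact hb y ((hsame y hy).not.2 h)

/-- the size of the neighbourhood -/
theorem exists_small (c d ε : ℝ) (hε : 0 < ε) (hd : d ≠ 0) :
    ∃ δ > 0, δ ≤ ε ∧ ∀ r : ℝ, |r| ≤ δ → |c - 1| * |r| < |d| := by
  have hc : 0 < |c - 1| + 1 := by positivity
  have hd' : 0 < |d| := abs_pos.2 hd
  refine ⟨min ε (|d| / (|c - 1| + 1) / 2), lt_min hε (by positivity), min_le_left _ _,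
    fun r hr => ?_⟩
  have h1 : |r| ≤ |d| / (|c - 1| + 1) / 2 := hr.trans (min_le_right _ _)
  have h2 : |c - 1| * |r| ≤ (|c - 1| + 1) * (|d| / (|c - 1| + 1) / 2) :=
    mul_le_mul (by linarith) h1 (abs_nonneg _) hc.le
  have h3 : (|c - 1| + 1) * (|d| / (|c - 1| + 1) / 2) = |d| / 2 := by
    field_simp
  rw [h3] at h2
  linarith

theorem isPL_off {g : Hm} {S : Set ℝ} (hS : Sep g S) (hg : IsPL g) : IsPL (off g S) := by
  obtain ⟨ha, hb⟩ := off_spec hS
  have hq : ∀ y, g y = y → off g S y = y := by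
    intro y hy
    by_cases h : y ∈ S
    · exact ha y h
    · rw [hb y h, hy]
  refine ⟨fun x hx => hq x (hg.1 x hx), fun x hx => hq x (hg.2.1 x hx), fun x => ?_, fun x => ?_⟩
  · obtain ⟨k, ε, hε, hk⟩ := hg.2.2.1 x
    obtain ⟨δ, hδ, hδε, hsm⟩ : ∃ δ > 0, δ ≤ ε ∧
        (g x ≠ x → ∀ r : ℝ, |r| ≤ δ → |(2 : ℝ) ^ k - 1| * |r| < |g x - x|) := by
      by_cases h : g x = x
      · exact ⟨ε, hε, le_rfl, fun h' => absurd h h'⟩
      · obtain ⟨δ, h1, h2, h3⟩ := exists_small ((2 : ℝ) ^ k) (g x - x) ε hε (sub_ne_zero.2 h)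
        exact ⟨δ, h1, h2, fun _ => h3⟩
    have hxI : x ∈ Icc x (x + δ) := ⟨le_rfl, by linarith⟩
    rcases germ hS ha hb (ordConnected_Icc (a := x) (b := x + δ)) (c := (2 : ℝ) ^ k) hxI
      (Or.inl fun y hy => hy.1) (fun y hy => hk y hy.1 (by linarith [hy.2]))
      (fun h y hy => hsm h _ (by rw [abs_of_nonneg (by linarith [hy.1])]; linarith [hy.2]))
      with h | h
    · refine ⟨0, δ, hδ, fun y h1 h2 => ?_⟩
      rw [h y ⟨h1, h2⟩, h x hxI]
      simp
    · refine ⟨k, δ, hδ, fun y h1 h2 => ?_⟩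
      rw [h y ⟨h1, h2⟩, h x hxI]
      exact hk y h1 (by linarith)
  · obtain ⟨k, ε, hε, hk⟩ := hg.2.2.2 x
    obtain ⟨δ, hδ, hδε, hsm⟩ : ∃ δ > 0, δ ≤ ε ∧
        (g x ≠ x → ∀ r : ℝ, |r| ≤ δ → |(2 : ℝ) ^ k - 1| * |r| < |g x - x|) := by
      by_cases h : g x = x
      · exact ⟨ε, hε, le_rfl, fun h' => absurd h h'⟩
      · obtain ⟨δ, h1, h2, h3⟩ := exists_small ((2 : ℝ) ^ k) (g x - x) ε hε (sub_ne_zero.2 h)
        exact ⟨δ, h1, h2, fun _ => h3⟩
    have hxI : x ∈ Icc (x - δ) x := ⟨by linarith, le_rfl⟩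
    rcases germ hS ha hb (ordConnected_Icc (a := x - δ) (b := x)) (c := (2 : ℝ) ^ k) hxI
      (Or.inr fun y hy => hy.2) (fun y hy => hk y (by linarith [hy.1]) hy.2)
      (fun h y hy => hsm h _ (by rw [abs_of_nonpos (by linarith [hy.2])]; linarith [hy.1]))
      with h | h
    · refine ⟨0, δ, hδ, fun y h1 h2 => ?_⟩
      rw [h y ⟨h1, h2⟩, h x hxI]
      simp
    · refine ⟨k, δ, hδ, fun y h1 h2 => ?_⟩
      rw [h y ⟨h1, h2⟩, h x hxI]
      exact hk y (by linarith) h2

theorem fund_off {g : Hm} {S D : Set ℝ} (hS : Sep g S) (hD : Fund g D) :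
    Fund (off g S) (D ∩ sp (off g S)) := by
  obtain ⟨ha, hb⟩ := off_spec hS
  obtain ⟨m, m1, m2, m3, m4⟩ := hD
  have hoff : ∀ w, off g S w ≠ w → w ∉ S ∧ g w ≠ w := by
    intro w hw
    have h1 : w ∉ S := fun h => hw (ha w h)
    rw [hb w h1] at hw
    exact ⟨h1, hw⟩
  have hon : ∀ w, w ∉ S → g w ≠ w → off g S w ≠ w := by
    intro w h1 h2
    rw [hb w h1]
    exact h2
  -- points in the interval of a marker
  have hint : ∀ s w, g s ≠ s → min s (g s) ≤ w → w < max s (g s) →
      ∀ t ∈ uIcc w s, g t ≠ t := by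
    intro s w hs h1 h2 t ht hf
    apply hs
    have h3 : w ∈ uIcc s (g s) := ⟨h1, h2.le⟩
    exact fixb g ((ordConnected_uIcc).uIcc_subset h3 left_mem_uIcc ht) hf
  refine ⟨{s | s ∈ m ∧ off g S s ≠ s}, fun s hs => hs.2, fun w hw => ?_, fun s hs s' hs' h => ?_, ?_⟩
  · obtain ⟨h1, h2⟩ := hoff w hw
    obtain ⟨s, hs, h3⟩ := m2 w h2
    have h4 : ∀ t ∈ uIcc w s, off g S t ≠ t := by
      intro t ht
      refine hon t ?_ (h3 t ht)
      rw [← same hS (y := w) (z := t) fun u hu => h3 u (uIcc_subset_uIcc_left ht hu)]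
      exact h1
    exact ⟨s, ⟨hs, h4 s right_mem_uIcc⟩, h4⟩
  · exact m3 s hs.1 s' hs'.1 fun t ht => (hoff t (h t ht)).2
  · ext w
    constructor
    · rintro ⟨hw, hw'⟩
      rw [m4] at hw
      obtain ⟨s, hs, h1, h2⟩ := hw
      have h3 := hint s w (m1 s hs) h1 h2
      have h4 : s ∉ S := by
        rw [← same hS h3]
        exact (hoff w hw').1
      refine ⟨s, ⟨hs, hon s h4 (m1 s hs)⟩, ?_, ?_⟩
      · rw [hb s h4]; exact h1
      · rw [hb s h4]; exact h2
    · rintro ⟨s, ⟨hs, hs'⟩, h1, h2⟩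
      have h4 := (hoff s hs').1
      rw [hb s h4] at h1 h2
      have h3 := hint s w (m1 s hs) h1 h2
      refine ⟨?_, ?_⟩
      · rw [m4]
        exact ⟨s, hs, h1, h2⟩
      · refine hon w ?_ (h3 w left_mem_uIcc)
        rw [same hS h3]
        exact h4

theorem specOF : SpecOF where
  a := fun _ _ hS => (off_spec hS).1
  b := fun _ _ hS => (off_spec hS).2
  pl := fun _ _ hS hg => isPL_off hS hg
  mkp := fun _ _ hS hp hne => ⟨isPL_off hS hp.pl, hne, fund_off hS hp.fd⟩
  pc := fun p S hS => ⟨fun w => by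
    by_cases h : w ∈ S
    · right
      exact (off_spec hS).1 w h
    · left
      exact (off_spec hS).2 w h, rfl⟩

end FPT.GF.AF.OFM
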