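import Pool.Agent.Lib.MP_c27bde_al.AF.Spec

/-!
MP_c27bde_al, AF, module OR: restriction to the orbitals.
-/

set_option autoImplicit false

namespace FPT.GF.AF.ORM

open Set FPT FPT.GF

/-- the generators of `cl Z` -/
def X0 (Z : Set ME) : Set Hm := {g | ∃ p ∈ Z, g = p.1}

theorem X0_fin (Z : Set ME) (h : Z.Finite) : (X0 Z).Finite := by
  refine (h.image Prod.fst).subset ?_
  rintro g ⟨p, hp, rfl⟩
  exact ⟨p, hp, rfl⟩

theorem sep_of (g : Hm) (a b : ℝ) (ha : g a = a) (hb : g b = b) : Sep g (Ioo a b)ᶜ := by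
  intro w hw v hv
  have hv' : v ∈ Ioo a b := by
    by_contra hc
    exact hv hc
  by_cases h : w ≤ a
  · refine ⟨a, ?_, ha⟩
    rw [mem_uIcc]
    left
    exact ⟨h, hv'.1.le⟩
  · refine ⟨b, ?_, hb⟩
    rw [mem_uIcc]
    right
    refine ⟨hv'.2.le, ?_⟩
    by_contra hc
    exact hw ⟨not_le.1 h, not_le.1 hc⟩

theorem out_mem (a b w : ℝ) (h : w ≤ a ∨ b ≤ w) : w ∈ (Ioo a b)ᶜ := by
  rintro ⟨h1, h2⟩
  rcases h with h | h
  · linarith
  · linarith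

/-- one orbital -/
theorem one (hPC : SpecPC) (hOF : SpecOF) (Z : Set ME) (hZ : Fam Z) (hbal : Bal (cl Z))
    (hind : ∀ (Z' : Set ME) (α β : ℝ), Sub Z' Z → Sgl Z' α β → EA ↥(cl Z'))
    (hPL : PLs (cl Z)) (a b : ℝ) (hab : a < b)
    (hfa : ∀ g ∈ cl Z, g a = a) (hfb : ∀ g ∈ cl Z, g b = b)
    (horb : ∀ u, a < u → u < b → ∃ g ∈ cl Z, g u ≠ u)
    (f : ↥(cl Z) →* Hm) (hres : Res (cl Z) a b f) (hfpl : ∀ k, IsPL (f k)) :
    EA ↥f.range := by
  obtain ⟨hr1, hr2⟩ := hres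
  have hmem : ∀ p ∈ Z, p.1 ∈ cl Z := fun p hp => Subgroup.subset_closure ⟨p, hp, rfl⟩
  have hsep : ∀ p ∈ Z, Sep p.1 (Ioo a b)ᶜ := fun p hp =>
    sep_of p.1 a b (hfa _ (hmem p hp)) (hfb _ (hmem p hp))
  have hoff : ∀ (p : ME) (hp : p ∈ Z), off p.1 (Ioo a b)ᶜ = f ⟨p.1, hmem p hp⟩ := by
    intro p hp
    refine RelIso.ext ?_
    intro w
    by_cases hw : w ∈ Ioo a b
    · rw [hOF.b p.1 _ (hsep p hp) w (fun h => h hw), hr1 _ w hw.1.le hw.2.le]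
    · rw [hOF.a p.1 _ (hsep p hp) w hw]
      symm
      apply hr2
      by_contra hc
      push Not at hc
      exact hw hc
  set Z' : Set ME := {r | ∃ p ∈ Z, off p.1 (Ioo a b)ᶜ ≠ 1 ∧ r = pz p (Ioo a b)ᶜ} with hZ'
  have hfam : Fam Z' := by
    refine ⟨?_, ?_, ?_⟩
    · refine (hZ.fin.image (fun p => pz p (Ioo a b)ᶜ)).subset ?_
      rintro r ⟨p, hp, -, rfl⟩
      exact ⟨p, hp, rfl⟩
    · rintro r ⟨p, hp, hne, rfl⟩
      exact hOF.mkp p _ (hsep p hp) (hZ.mks p hp) hne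
    · rintro r ⟨p, hp, hne, rfl⟩ r' ⟨p', hp', hne', rfl⟩ hrr
      have hpp : p ≠ p' := by
        rintro rfl
        exact hrr rfl
      rw [hPC.ft _ p (hOF.pc p _ (hsep p hp)), hPC.ft _ p' (hOF.pc p' _ (hsep p' hp'))]
      exact (hZ.dis p hp p' hp' hpp).mono inter_subset_left inter_subset_left
  have hsub : Sub Z' Z := by
    refine ⟨hfam, ?_⟩
    rintro r ⟨p, hp, -, rfl⟩
    exact ⟨p, hp, hOF.pc p _ (hsep p hp)⟩
  have hrange : ∀ r ∈ Z', r.1 ∈ f.range := by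
    rintro r ⟨p, hp, -, rfl⟩
    exact ⟨⟨p.1, hmem p hp⟩, (hoff p hp).symm⟩
  have hcl : ∀ k (hk : k ∈ cl Z), f ⟨k, hk⟩ ∈ cl Z' := by
    intro k hk
    have hk' : k ∈ Subgroup.closure {g | ∃ p ∈ Z, g = p.1} := hk
    induction hk' using Subgroup.closure_induction with
    | mem x hx =>
      obtain ⟨p, hp, rfl⟩ := hx
      rw [← hoff p hp]
      by_cases h1 : off p.1 (Ioo a b)ᶜ = 1
      · rw [h1]; exact Subgroup.one_mem _
      · refine Subgroup.subset_closure ?_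
        exact ⟨pz p (Ioo a b)ᶜ, ⟨p, hp, h1, rfl⟩, rfl⟩
    | one =>
      have : f ⟨1, Subgroup.one_mem _⟩ = 1 := f.map_one
      rw [this]; exact Subgroup.one_mem _
    | mul x y hx hy h1 h2 =>
      have : f ⟨x * y, Subgroup.mul_mem _ hx hy⟩ = f ⟨x, hx⟩ * f ⟨y, hy⟩ := by
        rw [← f.map_mul]; rfl
      rw [this]; exact Subgroup.mul_mem _ (h1 hx) (h2 hy)
    | inv x hx h1 =>
      have : f ⟨x⁻¹, Subgroup.inv_mem _ hx⟩ = (f ⟨x, hx⟩)⁻¹ := by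
        rw [← f.map_inv]; rfl
      rw [this]; exact Subgroup.inv_mem _ (h1 hx)
  have heq : f.range = cl Z' := by
    apply le_antisymm
    · rintro g ⟨k, rfl⟩
      exact hcl k.1 k.2
    · refine (Subgroup.closure_le _).2 ?_
      rintro g ⟨p, hp, rfl⟩
      exact hrange p hp
  have hsgl : Sgl Z' a b := by
    refine ⟨hfam, hab, ?_, ?_, ?_⟩
    · rintro r ⟨p, hp, -, rfl⟩ w hw
      exact hOF.a p.1 _ (hsep p hp) w (out_mem a b w hw)
    · intro w hwa hwb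
      obtain ⟨z, ⟨p, hp, rfl⟩, hz⟩ := RCM.RCAux.moved (X0 Z) w (horb w hwa hwb)
      have h1 : off p.1 (Ioo a b)ᶜ w ≠ w := by
        rw [hOF.b p.1 _ (hsep p hp) w (fun h => h ⟨hwa, hwb⟩)]
        exact hz
      refine ⟨pz p (Ioo a b)ᶜ, ⟨p, hp, ?_, rfl⟩, h1⟩
      intro h
      apply h1
      rw [h]
      rfl
    · rw [← heq]
      exact MainM.rb (cl Z) a b hab hPL hfa hfb hbal f ⟨hr1, hr2⟩ hfpl
  rw [heq]
  exact hind Z' a b hsub hsgl

theorem specOR (hPC : SpecPC) (hOF : SpecOF) : SpecOR := by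
  intro Z hZ hbal hind
  have hpl : ∀ g ∈ X0 Z, IsPL g := by
    rintro g ⟨p, hp, rfl⟩
    exact (hZ.mks p hp).pl
  have hpls : PLs (cl Z) := RDM.pls_closure (X0 Z) hpl
  have hfin : {o | RDM.IsOrb (cl Z) o}.Finite := RDM.orb_fin (X0 Z) (X0_fin Z hZ.fin) hpl
  obtain ⟨n, e, -, he⟩ : ∃ (n : ℕ) (e : Fin n → ℝ × ℝ), Function.Injective e ∧
      range e = {o | RDM.IsOrb (cl Z) o} := hfin.fin_param
  have hio : ∀ i, RDM.IsOrb (cl Z) (e i) := by
    intro i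
    have : e i ∈ {o | RDM.IsOrb (cl Z) o} := by rw [← he]; exact mem_range_self i
    exact this
  have hex : ∀ i, ∃ f : ↥(cl Z) →* Hm, Res (cl Z) (e i).1 (e i).2 f ∧ ∀ k, IsPL (f k) := fun i =>
    MainM.ra (cl Z) (e i).1 (e i).2 (hio i).1 hpls (hio i).2.1 (hio i).2.2.1
  choose f hres hfpl using hex
  refine MainM.eg.hom (cl Z) n f ?_ ?_
  · intro i
    exact one hPC hOF Z hZ hbal hind hpls (e i).1 (e i).2 (hio i).1 (hio i).2.1 (hio i).2.2.1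
      (hio i).2.2.2 (f i) (hres i) (hfpl i)
  · intro k hk
    by_contra hne
    have : ∃ u, k.1 u ≠ u := by
      by_contra hcon
      push Not at hcon
      apply hne
      apply Subtype.ext
      exact RelIso.ext hcon
    obtain ⟨u, hu⟩ := this
    obtain ⟨a, b, hau, hub, fa, fb, horb⟩ := FINM.ord.orbital (cl Z) hpls u ⟨k.1, k.2, hu⟩
    have hmem : (a, b) ∈ {o | RDM.IsOrb (cl Z) o} := ⟨hau.trans hub, fa, fb, horb⟩
    rw [← he] at hmem
    obtain ⟨i, hi⟩ := hmem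
    have h1 := (hres i).1 k u (by rw [hi]; exact hau.le) (by rw [hi]; exact hub.le)
    rw [hk i] at h1
    exact hu h1.symm

end FPT.GF.AF.ORM
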