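import Pool.Agent.Lib.MP_c27bde_al.AF.Spec

/-!
MP_c27bde_al, AF, module PC (helper9): pieces, the block lemma.
-/

set_option autoImplicit false

namespace FPT.GF.AF.PCM

open Set FPT FPT.GF FPT.GF.AF

theorem nice {p : ME} (h : Mk p) : Nice p := GF.MainM.ni p.1 p.2 h.pl h.ne h.fd

theorem sp_sub {q p : ME} (h : Pc q p) : sp q.1 ⊆ sp p.1 := by
  intro w hw
  rcases h.val w with e | e
  · show p.1 w ≠ w
    rw [← e]
    exact hw
  · exact absurd e hw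

theorem refl {p : ME} (h : Mk p) : Pc p p :=
  ⟨fun _ => Or.inl rfl, (inter_eq_left.2 (nice h).sub).symm⟩

theorem trans {r q p : ME} (h : Pc q p) (h' : Pc r q) : Pc r p := by
  refine ⟨fun w => ?_, ?_⟩
  · rcases h'.val w with e | e
    · rcases h.val w with e' | e'
      · exact Or.inl (e.trans e')
      · exact Or.inr (e.trans e')
    · exact Or.inr e
  · rw [h'.dom, h.dom, inter_assoc, inter_eq_right.2 (sp_sub h')]

theorem ft {q p : ME} (h : Pc q p) : Ft q = Ft p ∩ GF.sp q.1 := by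
  unfold Ft
  rw [h.dom]
  ext w
  constructor
  · rintro ⟨h1, h2⟩
    exact ⟨⟨sp_sub h h1, fun h3 => h2 ⟨h3, h1⟩⟩, h1⟩
  · rintro ⟨⟨_, h2⟩, h3⟩
    exact ⟨h3, fun h4 => h2 h4.1⟩

theorem conj (h : Hm) {q p : ME} (H : Pc q p) : Pc (cj h q) (cj h p) := by
  refine ⟨fun w => ?_, ?_⟩
  · show (h * q.1 * h⁻¹) w = (h * p.1 * h⁻¹) w ∨ (h * q.1 * h⁻¹) w = w
    rw [CJM.conj_app', CJM.conj_app']
    rcases H.val (h⁻¹ w) with e | e
    · left
      rw [e]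
    · right
      rw [e, CJM.app_inv]
  · show h '' q.2 = h '' p.2 ∩ sp (h * q.1 * h⁻¹)
    rw [CJM.sp_conj, H.dom, image_inter h.injective]

theorem mem_im (h : Hm) (a b t : ℝ) : h t ∈ uIcc (h a) (h b) ↔ t ∈ uIcc a b := by
  rw [mem_uIcc, mem_uIcc]
  simp only [h.le_iff_le]

theorem sm_im (h g : Hm) (a b : ℝ) :
    (∀ t ∈ uIcc (h a) (h b), (h * g * h⁻¹) t ≠ t) ↔ ∀ t ∈ uIcc a b, g t ≠ t := by
  constructor
  · intro H t ht e
    refine H (h t) ((mem_im h a b t).2 ht) ?_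
    rw [CJM.conj_app, e]
  · intro H t ht e
    have e1 : h (h⁻¹ t) = t := CJM.app_inv h t
    rw [← e1] at ht e
    refine H (h⁻¹ t) ((mem_im h a b _).1 ht) ?_
    rw [CJM.conj_app] at e
    exact h.injective e

theorem fundc (h g : Hm) {D : Set ℝ} (H : Fund g D) : Fund (h * g * h⁻¹) (h '' D) := by
  obtain ⟨m, h1, h2, h3, h4⟩ := H
  refine ⟨h '' m, ?_, ?_, ?_, ?_⟩
  · rintro _ ⟨s, hs, rfl⟩ e
    rw [CJM.conj_app] at e
    exact h1 s hs (h.injective e)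
  · intro w hw
    have e1 : h (h⁻¹ w) = w := CJM.app_inv h w
    obtain ⟨s, hs, hsm⟩ := h2 (h⁻¹ w) (fun e => hw (by rw [CJM.conj_app', e, e1]))
    refine ⟨h s, ⟨s, hs, rfl⟩, ?_⟩
    have := (sm_im h g (h⁻¹ w) s).2 hsm
    rwa [e1] at this
  · rintro _ ⟨s, hs, rfl⟩ _ ⟨s', hs', rfl⟩ hsm
    rw [h3 s hs s' hs' ((sm_im h g s s').1 hsm)]
  · rw [h4]
    ext w
    have hmin : ∀ s : ℝ, min (h s) ((h * g * h⁻¹) (h s)) = h (min s (g s)) := fun s => by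
      rw [CJM.conj_app]
      exact (h.monotone.map_min).symm
    have hmax : ∀ s : ℝ, max (h s) ((h * g * h⁻¹) (h s)) = h (max s (g s)) := fun s => by
      rw [CJM.conj_app]
      exact (h.monotone.map_max).symm
    constructor
    · rintro ⟨v, ⟨s, hs, e1, e2⟩, rfl⟩
      refine ⟨h s, ⟨s, hs, rfl⟩, ?_, ?_⟩
      · rw [hmin]
        exact h.le_iff_le.2 e1
      · rw [hmax]
        exact h.lt_iff_lt.2 e2
    · rintro ⟨_, ⟨s, hs, rfl⟩, e1, e2⟩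
      have e3 : h (h⁻¹ w) = w := CJM.app_inv h w
      rw [hmin, ← e3, h.le_iff_le] at e1
      rw [hmax, ← e3, h.lt_iff_lt] at e2
      exact ⟨h⁻¹ w, ⟨s, hs, e1, e2⟩, e3⟩

theorem mkc (h : Hm) {p : ME} (hh : IsPL h) (H : Mk p) : Mk (cj h p) := by
  refine ⟨?_, ?_, fundc h p.1 H.fd⟩
  · exact FINM.plb.mul _ _ (FINM.plb.mul _ _ hh H.pl) (FINM.plb.inv _ hh)
  · intro e
    apply H.ne
    have e1 : h * p.1 * h⁻¹ = 1 := e
    have e2 : p.1 = h⁻¹ * (h * p.1 * h⁻¹) * h := by group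
    rw [e2, e1]
    group

theorem famc (h : Hm) {Z : Set ME} (hh : IsPL h) (H : Fam Z) : Fam (cj h '' Z) := by
  refine ⟨H.fin.image _, ?_, ?_⟩
  · rintro _ ⟨p, hp, rfl⟩
    exact mkc h hh (H.mks p hp)
  · rintro _ ⟨p, hp, rfl⟩ _ ⟨q, hq, rfl⟩ hne
    rw [CJM.ft, CJM.ft]
    exact (disjoint_image_iff h.injective).2 (H.dis p hp q hq fun e => hne (by rw [e]))

theorem orb {q p : ME} (H : Pc q p) (w v : ℝ) (hw : q.1 w ≠ w) (hm : ∀ t ∈ uIcc w v, p.1 t ≠ t) :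
    q.1 v = p.1 v := by
  by_contra hne
  have hv : q.1 v = v := (H.val v).resolve_left hne
  have hw' : q.1 w = p.1 w := (H.val w).resolve_right hw
  have hpc : IsPreconnected (uIcc w v) := isPreconnected_uIcc
  have h1 := isPreconnected_closed_iff.1 hpc {t | q.1 t = p.1 t} {t | q.1 t = t}
    (isClosed_eq q.1.continuous p.1.continuous) (isClosed_eq q.1.continuous continuous_id)
    (fun t _ => H.val t) ⟨w, left_mem_uIcc, hw'⟩ ⟨v, right_mem_uIcc, hv⟩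
  obtain ⟨t, ht, e1, e2⟩ := h1
  have e1' : q.1 t = p.1 t := e1
  have e2' : q.1 t = t := e2
  exact hm t ht (e1'.symm.trans e2')

theorem first_fix (g : Hm) (w v : ℝ) (hwv : w ≤ v) (hw : g w ≠ w) (hv : g v = v) :
    ∃ z, w < z ∧ z ≤ v ∧ g z = z ∧ ∀ t, w < t → t < z → g t ≠ t := by
  have hc : IsCompact (Icc w v ∩ {t | g t = t}) :=
    isCompact_Icc.inter_right (isClosed_eq g.continuous continuous_id)
  obtain ⟨z, ⟨⟨hz1, hz2⟩, hz3⟩, hz4⟩ := hc.exists_isLeast ⟨v, ⟨hwv, le_refl v⟩, hv⟩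
  have hz3' : g z = z := hz3
  refine ⟨z, lt_of_le_of_ne hz1 ?_, hz2, hz3', ?_⟩
  · rintro rfl
    exact hw hz3'
  · intro t h1 h2 h3
    exact absurd (hz4 ⟨⟨h1.le, h2.le.trans hz2⟩, h3⟩) (not_le.2 h2)

theorem last_fix (g : Hm) (v w : ℝ) (hvw : v ≤ w) (hw : g w ≠ w) (hv : g v = v) :
    ∃ z, z < w ∧ v ≤ z ∧ g z = z ∧ ∀ t, z < t → t < w → g t ≠ t := by
  have hc : IsCompact (Icc v w ∩ {t | g t = t}) :=
    isCompact_Icc.inter_right (isClosed_eq g.continuous continuous_id)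
  obtain ⟨z, ⟨⟨hz1, hz2⟩, hz3⟩, hz4⟩ := hc.exists_isGreatest ⟨v, ⟨le_refl v, hvw⟩, hv⟩
  have hz3' : g z = z := hz3
  refine ⟨z, lt_of_le_of_ne hz2 ?_, hz1, hz3', ?_⟩
  · rintro rfl
    exact hw hz3'
  · intro t h1 h2 h3
    exact absurd (hz4 ⟨⟨hz1.trans h1.le, h2.le⟩, h3⟩) (not_le.2 h1)

theorem bl {p : ME} (H : Mk p) (K : Set ℝ) (hK : K.OrdConnected) (hd : Disjoint K (Ft p)) :
    K ⊆ p.2 ∨ ∀ w ∈ K, p.1 w = w := by
  by_contra hcon
  push Not at hcon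
  obtain ⟨h1, w, hw, hmv⟩ := hcon
  obtain ⟨v, hv, hv2⟩ := not_subset.1 h1
  have hN := nice H
  have hfix : p.1 v = v := by
    by_contra hne
    exact disjoint_left.1 hd hv ⟨hne, hv2⟩
  rcases le_total w v with hle | hle
  · obtain ⟨z, z1, z2, z3, z4⟩ := first_fix p.1 w v hle hmv hfix
    obtain ⟨u', hu, hu2⟩ := hN.adL w z z1 z3 z4
    obtain ⟨t, ht1, ht2⟩ := exists_between (max_lt hu z1)
    have ht : t ∈ K := hK.out hw hv ⟨(le_max_right _ _).trans ht1.le, ht2.le.trans z2⟩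
    exact disjoint_left.1 hd ht (hu2 t (lt_of_le_of_lt (le_max_left _ _) ht1) ht2)
  · obtain ⟨z, z1, z2, z3, z4⟩ := last_fix p.1 v w hle hmv hfix
    obtain ⟨u', hu, hu2⟩ := hN.adR z w z1 z3 z4
    obtain ⟨t, ht1, ht2⟩ := exists_between (lt_min hu z1)
    have ht : t ∈ K := hK.out hv hw ⟨z2.trans ht1.le, ht2.le.trans (min_le_right _ _)⟩
    exact disjoint_left.1 hd ht (hu2 t ht1 (lt_of_lt_of_le ht2 (min_le_left _ _)))

theorem dc {p : ME} (H : Mk p) (a b : ℝ) (ha : a ∈ p.2) (hb : b ∈ p.2)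
    (hm : ∀ t ∈ uIcc a b, p.1 t ≠ t) : uIcc a b ⊆ p.2 := by
  obtain ⟨m, h1, h2, h3, h4⟩ := H.fd
  rw [h4] at ha hb ⊢
  obtain ⟨s, hs, a1, a2⟩ := ha
  obtain ⟨s', hs', b1, b2⟩ := hb
  have e1 : FUM.Sm p.1 a s := FUM.sm_marker p.1 s a (h1 s hs) a1 a2.le
  have e2 : FUM.Sm p.1 b s' := FUM.sm_marker p.1 s' b (h1 s' hs') b1 b2.le
  have e3 : FUM.Sm p.1 s s' := (e1.symm.trans (show FUM.Sm p.1 a b from hm)).trans e2
  have e4 : s = s' := h3 s hs s' hs' e3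
  subst e4
  intro t ht
  exact ⟨s, hs, (le_min a1 b1).trans ht.1, lt_of_le_of_lt ht.2 (max_lt a2 b2)⟩

theorem specPC : SpecPC where
  nice := fun _ h => nice h
  refl := fun _ h => refl h
  trans := fun _ _ _ h h' => trans h h'
  sp := fun _ _ h => sp_sub h
  ft := fun _ _ h => ft h
  conj := fun h _ _ H => conj h H
  mkc := fun h _ hh H => mkc h hh H
  famc := fun h _ hh H => famc h hh H
  orb := fun _ _ H => orb H
  bl := fun _ H => bl H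
  dc := fun _ H => dc H

end FPT.GF.AF.PCM
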