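import Pool.Agent.Lib.MP_c27bde_al.AF.Spec

/-!
MP_c27bde_al, AF, module PP: ping-pong on the blocks.
-/

set_option autoImplicit false

namespace FPT.GF.AF.PPM

open Set FPT FPT.GF

/-- reduced words which move the block `K` at every step -/
inductive Path (Z : Set ME) (J : Set (ℝ × ℝ)) (K : Set ℝ) : Option ME → Hm → Prop
  | nil : Path Z J K none 1
  | cons (o : Option ME) (f : Hm) (b : ME) (n : ℤ) (_ : Path Z J K o f) (_ : b ∈ Z)
      (_ : o ≠ some b) (_ : ∀ v ∈ K, f v ∈ (po J b).2) (_ : n ≠ 0) :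
      Path Z J K (some b) ((po J b).1 ^ n * f)

section

variable {Z : Set ME} {J : Set (ℝ × ℝ)}

/-- a block is disjoint from the feet of `po J b` -/
theorem blk_disj (hBK : SpecBK) (hZ : Blk Z J) {b : ME} (hb : b ∈ Z) {j : ℝ × ℝ} (hj : j ∈ J)
    {w : ℝ} (hw : w ∈ Icc j.1 j.2) : w ∉ Ft (po J b) := by
  intro h
  by_cases hp : Prs b.1 j
  · exact h.1 (hBK.o1 Z J hZ b hb j hj hp w hw)
  · exact h.2 (hBK.o3 Z J hZ b hb j hj hp hw)

theorem mk_of (hBK : SpecBK) (hZ : Blk Z J) {b : ME} (hb : b ∈ Z) {w : ℝ}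
    (hw : w ∈ (po J b).2) : Mk (po J b) := by
  refine hBK.mk1 Z J hZ b hb fun h1 => ?_
  have h2 := (hBK.pc1 Z J hZ b hb).dom
  rw [h2] at hw
  refine hw.2 ?_
  rw [h1]
  rfl

theorem ft_sub (hPC : SpecPC) (hBK : SpecBK) (hZ : Blk Z J) {b : ME} (hb : b ∈ Z) :
    Ft (po J b) ⊆ Ft b := by
  rw [hPC.ft _ _ (hBK.pc1 Z J hZ b hb)]
  exact inter_subset_left

/-- (1) -/
theorem path_ft (hPC : SpecPC) (hBK : SpecBK) (hZ : Blk Z J) {K : Set ℝ} {b : ME} {f : Hm}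
    (h : Path Z J K (some b) f) {v : ℝ} (hv : v ∈ K) : f v ∈ Ft (po J b) := by
  cases h with
  | cons o f _ n hp hb ho hK hn =>
    exact (hPC.nice _ (mk_of hBK hZ hb (hK v hv))).png _ (hK v hv) n hn

theorem path_mem {K : Set ℝ} {b : ME} {f : Hm} (h : Path Z J K (some b) f) : b ∈ Z := by
  cases h
  assumption

/-- (2) -/
theorem path_dich (hPC : SpecPC) (hBK : SpecBK) (hZ : Blk Z J) {i : ℝ × ℝ} (hi : i ∈ J)
    {o : Option ME} {f : Hm} (h : Path Z J (Icc i.1 i.2) o f) {b : ME} (hb : b ∈ Z)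
    (ho : o ≠ some b) :
    (∀ v ∈ Icc i.1 i.2, f v ∈ (po J b).2) ∨ ∀ v ∈ Icc i.1 i.2, (po J b).1 (f v) = f v := by
  by_cases h1 : (po J b).1 = 1
  · right
    intro v _
    rw [h1]
    rfl
  have hd : Disjoint (f '' Icc i.1 i.2) (Ft (po J b)) := by
    rw [Set.disjoint_left]
    rintro _ ⟨v, hv, rfl⟩ hF
    cases o with
    | none =>
      cases h
      exact blk_disj hBK hZ hb hi hv hF
    | some b' =>
      have h2 : f v ∈ Ft b' := ft_sub hPC hBK hZ (path_mem h) (path_ft hPC hBK hZ h hv)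
      have h3 : b' ≠ b := fun h4 => ho (by rw [h4])
      exact Set.disjoint_left.1 (hZ.fam.dis b' (path_mem h) b hb h3) h2
        (ft_sub hPC hBK hZ hb hF)
  have hoc : (f '' Icc i.1 i.2).OrdConnected := by
    have h5 : f '' Icc i.1 i.2 = Icc (f i.1) (f i.2) := f.image_Icc i.1 i.2
    rw [h5]
    exact Set.ordConnected_Icc
  rcases hPC.bl _ (hBK.mk1 Z J hZ b hb h1) _ hoc hd with h6 | h6
  · exact Or.inl fun v hv => h6 ⟨v, hv, rfl⟩
  · exact Or.inr fun v hv => h6 _ ⟨v, hv, rfl⟩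

theorem zpow_fix {g : Hm} {w : ℝ} (h : g w = w) (n : ℤ) : (g ^ n) w = w := by
  have h1 : g⁻¹ w = w := by
    have h2 : g.symm (g w) = w := g.symm_apply_apply w
    rw [h] at h2
    exact h2
  induction n with
  | zero => rfl
  | succ n ih =>
    rw [zpow_add_one]
    change (g ^ (n : ℤ)) (g w) = w
    rw [h, ih]
  | pred n ih =>
    rw [zpow_sub_one]
    change (g ^ (-(n : ℤ))) (g⁻¹ w) = w
    rw [h1, ih]

/-- (3), one letter -/
theorem path_step (hPC : SpecPC) (hBK : SpecBK) (hZ : Blk Z J) {i : ℝ × ℝ} (hi : i ∈ J)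
    {o : Option ME} {f : Hm} (h : Path Z J (Icc i.1 i.2) o f) {b : ME} (hb : b ∈ Z) (n : ℤ) :
    ∃ o' f', Path Z J (Icc i.1 i.2) o' f' ∧
      ∀ v ∈ Icc i.1 i.2, ((po J b).1 ^ n) (f v) = f' v := by
  by_cases ho : o = some b
  · subst ho
    cases h with
    | cons o₀ f₀ _ n₀ hp hb' ho₀ hK hn₀ =>
      have h1 : ∀ v, ((po J b).1 ^ n) (((po J b).1 ^ n₀ * f₀) v) =
          ((po J b).1 ^ (n + n₀)) (f₀ v) := by
        intro v
        rw [zpow_add]
        rfl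
      by_cases hn : n + n₀ = 0
      · refine ⟨o₀, f₀, hp, fun v _ => ?_⟩
        rw [h1, hn, zpow_zero]
        rfl
      · exact ⟨some b, _, Path.cons o₀ f₀ b (n + n₀) hp hb ho₀ hK hn, fun v _ => h1 v⟩
  · by_cases hn : n = 0
    · refine ⟨o, f, h, fun v _ => ?_⟩
      rw [hn, zpow_zero]
      rfl
    rcases path_dich hPC hBK hZ hi h hb ho with h1 | h1
    · exact ⟨some b, _, Path.cons o f b n h hb ho h1 hn, fun v _ => rfl⟩
    · exact ⟨o, f, h, fun v hv => zpow_fix (h1 v hv) n⟩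

/-- (3) -/
theorem path_all (hPC : SpecPC) (hBK : SpecBK) (hZ : Blk Z J) {i : ℝ × ℝ} (hi : i ∈ J)
    (g : Hm) (hg : g ∈ Ho Z J) :
    ∃ o f, Path Z J (Icc i.1 i.2) o f ∧ ∀ v ∈ Icc i.1 i.2, g v = f v := by
  refine Subgroup.closure_induction_left (p := fun g _ =>
    ∃ o f, Path Z J (Icc i.1 i.2) o f ∧ ∀ v ∈ Icc i.1 i.2, g v = f v)
    ⟨none, 1, Path.nil, fun _ _ => rfl⟩ ?_ ?_ hg
  · rintro _ ⟨p, hp, rfl⟩ y _ ⟨o, f, h, hf⟩
    obtain ⟨o', f', h', hf'⟩ := path_step hPC hBK hZ hi h hp 1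
    refine ⟨o', f', h', fun v hv => ?_⟩
    rw [← hf' v hv, zpow_one, ← hf v hv]
    rfl
  · rintro _ ⟨p, hp, rfl⟩ y _ ⟨o, f, h, hf⟩
    obtain ⟨o', f', h', hf'⟩ := path_step hPC hBK hZ hi h hp (-1)
    refine ⟨o', f', h', fun v hv => ?_⟩
    rw [← hf' v hv, zpow_neg_one, ← hf v hv]
    rfl

end

/-- PP: ping-pong on the blocks. -/
theorem specPP (hPC : SpecPC) (hBK : SpecBK) : SpecPP := by
  intro Z J hZ g hg i hi j hj w hw hgw
  obtain ⟨o, f, h, hf⟩ := path_all hPC hBK hZ hi g hg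
  cases o with
  | some b =>
    have h1 := path_ft hPC hBK hZ h hw
    rw [← hf w hw] at h1
    exact absurd h1 (blk_disj hBK hZ (path_mem h) hj hgw)
  | none =>
    cases h
    have h1 : ∀ v ∈ Icc i.1 i.2, g v = v := hf
    refine ⟨?_, h1⟩
    by_contra hij
    rw [h1 w hw] at hgw
    exact Set.disjoint_left.1 (hZ.dj i hi j hj hij) hw hgw

end FPT.GF.AF.PPM
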