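import Pool.Agent.Lib.MP_c27bde_al.AF.Spec

/-!
Module PX of the book AF (MP_c27bde_al, helper17): large powers of a finite geometrically proper set
(no two elements have a common left end of an orbital, or a common right end) are geometrically fast.
-/

set_option autoImplicit false

namespace FPT.GF.AF.PXM

open Set FPT FPT.GF FPT.GF.AF

/-- left end of an orbital of `g` -/
def LE (g : Hm) (e : ℝ) : Prop := g e = e ∧ ∃ v, e < v ∧ ∀ t, e < t → t < v → g t ≠ t

/-- right end of an orbital of `g` -/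
def RE (g : Hm) (e : ℝ) : Prop := g e = e ∧ ∃ u, u < e ∧ ∀ t, u < t → t < e → g t ≠ t

/-- geometrically proper sets -/
def Proper (X : Set Hm) : Prop :=
  ∀ g ∈ X, ∀ h ∈ X, g ≠ h → ∀ e, ¬ (LE g e ∧ LE h e) ∧ ¬ (RE g e ∧ RE h e)

theorem le_fin (g : Hm) (hg : IsPL g) : {e | LE g e}.Finite := by
  refine (FINM.plb.fixR g hg).subset ?_
  rintro e ⟨he, v, hev, hv⟩
  refine ⟨he, fun h0 => ?_⟩
  obtain ⟨ε, hε, h⟩ := FINM.pl2.er0 g e hg he h0
  have h1 : 0 < min ε ((v - e) / 2) := lt_min hε (by linarith)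
  refine hv (e + min ε ((v - e) / 2)) (by linarith) ?_ (h _ (by linarith) ?_)
  · have := min_le_right ε ((v - e) / 2)
    linarith
  · have := min_le_left ε ((v - e) / 2)
    linarith

theorem re_fin (g : Hm) (hg : IsPL g) : {e | RE g e}.Finite := by
  refine ((FINM.plb.fixR g hg).union (FINM.plb.brk g hg)).subset ?_
  rintro e ⟨he, v, hev, hv⟩
  have hel : el g e ≠ 0 := by
    intro h0
    obtain ⟨ε, hε, h⟩ := FINM.pl2.el0 g e hg he h0
    have h1 : 0 < min ε ((e - v) / 2) := lt_min hε (by linarith)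
    refine hv (e - min ε ((e - v) / 2)) ?_ (by linarith) (h _ ?_ (by linarith))
    · have := min_le_right ε ((e - v) / 2)
      linarith
    · have := min_le_left ε ((e - v) / 2)
      linarith
  by_cases h : er g e = el g e
  · exact Or.inl ⟨he, by rw [h]; exact hel⟩
  · exact Or.inr h

/-- one element -/
theorem one (g : Hm) (hg : IsPL g) (η : ℝ) (hη : 0 < η) :
    ∃ N : ℕ, ∀ n ≥ N, ∃ D : Set ℝ, Fund (g ^ n) D ∧
      ∀ w ∈ sp (g ^ n) \ D, (∃ e, LE g e ∧ e < w ∧ w < e + η) ∨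
        (∃ e, RE g e ∧ e - η < w ∧ w < e) := by
  have hAf : {x : ℝ | g x = x ∧ er g x ≠ 0}.Finite := FINM.plb.fixR g hg
  have hk := fun (u : ℝ) (hu : u ∈ {x : ℝ | g x = x ∧ er g x ≠ 0}) =>
    PWM.key g hg η hη u hu
  choose! V S Nn h1 h2 h3 h4 h5 using hk
  obtain ⟨N0, hN0⟩ := (hAf.image Nn).bddAbove
  have hN0' : ∀ u, (g u = u ∧ er g u ≠ 0) → Nn u ≤ N0 := fun u hu => hN0 ⟨u, hu, rfl⟩
  -- every moved point is in an orbital
  have hmem : ∀ w, g w ≠ w → ∃ u, (g u = u ∧ er g u ≠ 0) ∧ u < w ∧ w < V u := by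
    intro w hw
    obtain ⟨u, huw, hu, hmov⟩ := PWM.lastfix g hg w hw
    have her : er g u ≠ 0 := by
      intro h0
      obtain ⟨ε, hε, hfix⟩ := FINM.pl2.er0 g u hg hu h0
      have h7 : 0 < min ε (w - u) := lt_min hε (by linarith)
      refine hmov (u + min ε (w - u)) (by linarith) ?_ (hfix _ (by linarith) ?_)
      · have := min_le_right ε (w - u)
        linarith
      · have := min_le_left ε (w - u)
        linarith
    refine ⟨u, ⟨hu, her⟩, huw, ?_⟩
    by_contra hc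
    rw [not_lt] at hc
    exact hmov (V u) ((h1 u ⟨hu, her⟩).trans (h2 u ⟨hu, her⟩)) hc (h3 u ⟨hu, her⟩)
  refine ⟨max 1 N0, fun n hn => ?_⟩
  have hn1 : 1 ≤ n := (le_max_left _ _).trans hn
  have hnN : N0 ≤ n := (le_max_right _ _).trans hn
  have hmovn : ∀ t, g t ≠ t → (g ^ n) t ≠ t := fun t ht hc => ht (FINM.ord.powi g n t hn1 hc)
  have hmovn' : ∀ t, (g ^ n) t ≠ t → g t ≠ t := fun t ht hc => ht (FINM.ord.powf g n t hc)
  refine ⟨{w | ∃ s ∈ S '' {x : ℝ | g x = x ∧ er g x ≠ 0},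
    min s ((g ^ n) s) ≤ w ∧ w < max s ((g ^ n) s)}, ⟨S '' {x : ℝ | g x = x ∧ er g x ≠ 0},
      ?_, ?_, ?_, rfl⟩, ?_⟩
  · rintro s ⟨u, hu, rfl⟩
    exact hmovn _ (h4 u hu _ (h1 u hu) (h2 u hu))
  · intro w hw
    obtain ⟨u, hu, huw, hwv⟩ := hmem w (hmovn' w hw)
    refine ⟨S u, ⟨u, hu, rfl⟩, fun t ht => hmovn t (h4 u hu t ?_ ?_)⟩
    · rw [mem_uIcc] at ht
      have := h1 u hu
      rcases ht with ht | ht <;> linarith [ht.1]
    · rw [mem_uIcc] at ht
      have := h2 u hu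
      rcases ht with ht | ht <;> linarith [ht.2]
  · have hlt : ∀ u, (g u = u ∧ er g u ≠ 0) → ∀ u', (g u' = u' ∧ er g u' ≠ 0) → u < u' →
        S u ≤ u' := by
      intro u hu u' hu' huu
      by_contra hc
      rw [not_le] at hc
      exact h4 u hu u' huu (hc.trans (h2 u hu)) hu'.1
    rintro s ⟨u, hu, rfl⟩ s' ⟨u', hu', rfl⟩ hss
    rcases lt_trichotomy u u' with h | h | h
    · exfalso
      refine hss u' ?_ (FINM.ord.powf g n u' hu'.1)
      rw [mem_uIcc]
      exact Or.inl ⟨hlt u hu u' hu' h, (h1 u' hu').le⟩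
    · rw [h]
    · exfalso
      refine hss u ?_ (FINM.ord.powf g n u hu.1)
      rw [mem_uIcc]
      exact Or.inr ⟨hlt u' hu' u hu h, (h1 u hu).le⟩
  · rintro w ⟨hw, hwD⟩
    obtain ⟨u, hu, huw, hwv⟩ := hmem w (hmovn' w hw)
    have huv : u < V u := (h1 u hu).trans (h2 u hu)
    rcases h5 u hu n ((hN0' u hu).trans hnN) w huw hwv
      (fun hc => hwD ⟨S u, ⟨u, hu, rfl⟩, hc⟩) with h | h
    · left
      refine ⟨u, ⟨hu.1, V u, huv, h4 u hu⟩, huw, ?_⟩
      have := (abs_lt.1 h).2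
      linarith
    · right
      refine ⟨V u, ⟨h3 u hu, u, huv, h4 u hu⟩, ?_, hwv⟩
      have := (abs_lt.1 h).1
      linarith

/-- distinct points of a finite set are far from each other -/
theorem sep (E : Set ℝ) (hE : E.Finite) :
    ∃ η : ℝ, 0 < η ∧ ∀ e ∈ E, ∀ e' ∈ E, e ≠ e' → 2 * η ≤ |e - e'| := by
  rcases (E ×ˢ E ∩ {k | k.1 ≠ k.2}).eq_empty_or_nonempty with h0 | h0
  · refine ⟨1, one_pos, fun e he e' he' hne => ?_⟩
    have : (e, e') ∈ E ×ˢ E ∩ {k | k.1 ≠ k.2} := ⟨⟨he, he'⟩, hne⟩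
    rw [h0] at this
    exact absurd this (notMem_empty _)
  · obtain ⟨k, hk, hmin⟩ := Set.exists_min_image _ (fun k : ℝ × ℝ => |k.1 - k.2|)
      ((hE.prod hE).inter_of_left {k | k.1 ≠ k.2}) h0
    have hpos : 0 < |k.1 - k.2| := abs_pos.2 (sub_ne_zero.2 hk.2)
    refine ⟨|k.1 - k.2| / 2, by positivity, fun e he e' he' hne => ?_⟩
    have := hmin (e, e') ⟨⟨he, he'⟩, hne⟩
    simp only at this
    linarith

theorem px (X : Set Hm) (hX : X.Finite) (hpl : ∀ g ∈ X, IsPL g) (hd : Proper X) :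
    ∃ N : ℕ, ∀ n ≥ N, ∃ D : Hm → Set ℝ, GFast ((fun g : Hm => g ^ n) '' X) D := by
  classical
  have hEf : (⋃ g ∈ X, ({e | LE g e} ∪ {e | RE g e})).Finite :=
    hX.biUnion fun g hg => (le_fin g (hpl g hg)).union (re_fin g (hpl g hg))
  obtain ⟨η, hη, hsep⟩ := sep _ hEf
  have hL : ∀ g ∈ X, ∀ e, LE g e → e ∈ ⋃ g ∈ X, ({e | LE g e} ∪ {e | RE g e}) :=
    fun g hg e he => mem_iUnion₂.2 ⟨g, hg, Or.inl he⟩
  have hR : ∀ g ∈ X, ∀ e, RE g e → e ∈ ⋃ g ∈ X, ({e | LE g e} ∪ {e | RE g e}) :=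
    fun g hg e he => mem_iUnion₂.2 ⟨g, hg, Or.inr he⟩
  have hk := fun (g : Hm) (hg : g ∈ X) => one g (hpl g hg) η hη
  choose! Nn hNn using hk
  obtain ⟨N, hN⟩ := (hX.image Nn).bddAbove
  refine ⟨N, fun n hn => ?_⟩
  have hk2 : ∀ g ∈ X, ∃ D : Set ℝ, Fund (g ^ n) D ∧
      ∀ w ∈ sp (g ^ n) \ D, (∃ e, LE g e ∧ e < w ∧ w < e + η) ∨
        (∃ e, RE g e ∧ e - η < w ∧ w < e) :=
    fun g hg => hNn g hg n ((hN ⟨g, hg, rfl⟩).trans hn)
  choose! D0 hD1 hD2 using hk2
  have hch : ∀ y ∈ (fun g : Hm => g ^ n) '' X, ∃ g, g ∈ X ∧ g ^ n = y := by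
    rintro y ⟨g, hg, rfl⟩
    exact ⟨g, hg, rfl⟩
  choose! G hG1 hG2 using hch
  refine ⟨fun y => D0 (G y), ?_, ?_⟩
  · intro y hy
    have h1 := hD1 (G y) (hG1 y hy)
    rw [hG2 y hy] at h1
    exact h1
  · intro y hy z hz hyz
    have hne : G y ≠ G z := by
      intro hc
      apply hyz
      rw [← hG2 y hy, ← hG2 z hz, hc]
    rw [Set.disjoint_left]
    intro w hwy hwz
    have h1 := hD2 (G y) (hG1 y hy) w (by rw [hG2 y hy]; exact hwy)
    have h2 := hD2 (G z) (hG1 z hz) w (by rw [hG2 z hz]; exact hwz)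
    rcases h1 with ⟨e, he, h3, h4⟩ | ⟨e, he, h3, h4⟩
    · rcases h2 with ⟨e', he', h5, h6⟩ | ⟨e', he', h5, h6⟩
      · have : e = e' := by
          by_contra hc
          have h7 := hsep e (hL _ (hG1 y hy) e he) e' (hL _ (hG1 z hz) e' he') hc
          have h8 : |e - e'| < 2 * η := by
            rw [abs_lt]
            constructor <;> linarith
          linarith
        subst this
        exact (hd _ (hG1 y hy) _ (hG1 z hz) hne e).1 ⟨he, he'⟩
      · have hc : e ≠ e' := by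
          intro h
          rw [h] at h3
          linarith
        have h7 := hsep e (hL _ (hG1 y hy) e he) e' (hR _ (hG1 z hz) e' he') hc
        have h8 : |e - e'| < 2 * η := by
          rw [abs_lt]
          constructor <;> linarith
        linarith
    · rcases h2 with ⟨e', he', h5, h6⟩ | ⟨e', he', h5, h6⟩
      · have hc : e ≠ e' := by
          intro h
          rw [h] at h4
          linarith
        have h7 := hsep e (hR _ (hG1 y hy) e he) e' (hL _ (hG1 z hz) e' he') hc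
        have h8 : |e - e'| < 2 * η := by
          rw [abs_lt]
          constructor <;> linarith
        linarith
      · have : e = e' := by
          by_contra hc
          have h7 := hsep e (hR _ (hG1 y hy) e he) e' (hR _ (hG1 z hz) e' he') hc
          have h8 : |e - e'| < 2 * η := by
            rw [abs_lt]
            constructor <;> linarith
          linarith
        subst this
        exact (hd _ (hG1 y hy) _ (hG1 z hz) hne e).2 ⟨he, he'⟩

end FPT.GF.AF.PXM
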