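import Pool.Agent.Lib.MP_c27bde_al.AF.Spec
import Pool.Agent.Lib.MP_c27bde_al.AF.OF
import Pool.Agent.Lib.MP_c27bde_al.AF.PC
import Pool.Agent.Lib.MP_c27bde_al.AF.LC
import Pool.Agent.Lib.MP_c27bde_al.AF.CO
import Pool.Agent.Lib.MP_c27bde_al.AF.BK
import Pool.Agent.Lib.MP_c27bde_al.AF.PP
import Pool.Agent.Lib.MP_c27bde_al.AF.HP
import Pool.Agent.Lib.MP_c27bde_al.AF.EH
import Pool.Agent.Lib.MP_c27bde_al.AF.C1
import Pool.Agent.Lib.MP_c27bde_al.AF.C2
import Pool.Agent.Lib.MP_c27bde_al.AF.GA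
import Pool.Agent.Lib.MP_c27bde_al.AF.GB
import Pool.Agent.Lib.MP_c27bde_al.AF.GC
import Pool.Agent.Lib.MP_c27bde_al.AF.GD
import Pool.Agent.Lib.MP_c27bde_al.AF.EX
import Pool.Agent.Lib.MP_c27bde_al.AF.AS
import Pool.Agent.Lib.MP_c27bde_al.AF.OR
import Pool.Agent.Lib.MP_c27bde_al.AF.MA
import Pool.Agent.Lib.MP_c27bde_al.AF.PX

/-!
MP_c27bde_al, AF: all modules closed.
-/

set_option autoImplicit false

namespace FPT.GF.AF.MainAM

open Set FPT FPT.GF FPT.GF.AF

theorem of : SpecOF := OFM.specOF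
theorem pc : SpecPC := PCM.specPC
theorem lc : SpecLC := LCM.specLC pc
theorem co : SpecCO := COM.specCO pc lc
theorem bk : SpecBK := BKM.specBK of pc
theorem pp : SpecPP := PPM.specPP pc bk
theorem hp : SpecHP := HPM.specHP bk pp
theorem eh : SpecEH := EHM.specEH bk pp
theorem c1 : SpecC1 := C1M.specC1 bk pp hp
theorem c2 : SpecC2 := C2M.specC2 bk pp hp eh
theorem sl : SpecSL := MAM.specSL c1 c2
theorem ga : SpecGA := GAM.specGA
theorem gb : SpecGB := GBM.specGB ga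
theorem gc : SpecGC := GCM.specGC pc ga gb
theorem gd : SpecGD := GDM.specGD pc of bk ga gb gc
theorem ex : SpecEX := EXM.specEX pc of bk ga gd
theorem ass : SpecAS := ASM.specAS pc of bk sl
theorem orb : SpecOR := ORM.specOR pc of
theorem ma : SpecMA := MAM.specMA pc co ex ass orb
theorem ff : SpecFF := MAM.specFF ma

/-- the Brin-Sapir dichotomy for a geometrically fast generating set -/
theorem bsap (T : Type) [Group T] (e : T ≃* FT) (X : Set Hm) (D : Hm → Set ℝ)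
    (hX : ∀ g ∈ X, IsPL g) (hF : GFast X D) :
    EA ↥(Subgroup.closure X) ↔ ¬ ∃ f : T →* ↥(Subgroup.closure X), Function.Injective f := by
  refine ⟨fun h => FINM.no_copy T e _ h, fun h => ?_⟩
  exact ff X D hX (MainM.bal_of_no_copy T e _ (MainM.pls_closure X hX) h) hF

end FPT.GF.AF.MainAM
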