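import Pool.Agent.Lib.MP_c27bde_al.GF.Main

/-!
MP_c27bde_al, AF (helper17): THE BRIN-SAPIR DICHOTOMY FOR ALL GEOMETRICALLY FAST SETS.

Theorem.  Let `X` be a set (finite or infinite) of PL homeomorphisms of `[0,1]` (slopes powers of two) which
is geometrically fast (markings with disjoint feet).  Then `<X>` is elementary amenable if and only if it
contains no copy of F.  No condition on gaps (this removes `NoGap` from the theorem of `GF`).

THE PROOF IN ONE PAGE.  Notation of `GF/Spec.lean`: `p = (g, D)`, `Ft p = supp g \ D`, `cv` hull, `cj h p`, `T A B n`.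
PIECES.  `Pc q p`: `q` is a union of bumps of `p` with the same markers.  FAMILY: finite set of marked elements with
disjoint feet (no other condition).  LABEL of two feet sets: `Lb c A B := T A B c = ∅ ∧ T B A c = ∅`.
THE GAME.  `Stp W Z`: there are `x ∈ Z`, a piece `x0` of `x`, such that `W` is a family and every `r ∈ W` is either
(TD) `r = cj (x0^m) q`, `q` a piece of some `p ∈ Z` with `Ft q ⊆ D_x0`, or (TJ) a piece of some `p ∈ Z` (`p = x` allowed) with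
`cv (Ft r) ⊆ cv (Ft x0) ∩ Fix x0`.  CO: every family is accessible (label lemma LC and the double induction of GF/CO).
BLOCKS.  `Z` a family, `H = cl Z` balanced with one orbital `(α,β)`.  There is `x ∈ Z` non-trivial near `α` and `β`.  If `x` has no
fixed point in `(α,β)` take `J = ∅`.  Otherwise let `u` be its first fixed point.  By balance no open interval fixed by `x` meets
the orbit `H u` (GA).  Gaps of the closure of `H u` are permuted by `H`, with disjoint closures; `J` = the (finite) set of the gaps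
that contain a fixed interval of `x` (GB).  Each `p ∈ Z` preserves `j ∈ J` or `closure j ⊆ D_p`.  `po p` = `p` off the blocks it
preserves, `pin p j` = `p` on the block `j`.  `x0 = po x`; `po p` (`p ≠ x`) has its feet in `D_x0`; `pin p j` is of type (TJ).
SPLITTING LEMMA (SL).  The group `Hp ⊇ H` generated by all `po p`, `pin p j` is balanced (ping-pong on the blocks, PP).
So `Hp` = `<x0>` times the union of the `cl W_M`, where `Stp W_M Z`: induction (AS, MA).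

Module `XXX` = file `AF/XXX.lean`, imports `AF.Spec` only, theorem `specXXX (hypotheses named in the docstring) :
SpecXXX` in the namespace `FPT.GF.AF.XXXM`.  Everything of `FP`, `GF` can be cited: `FINM.plb, pl2, ord`, `GF.MainM.cj'`
(SpecCJ), `GF.MainM.fu, ni, lb, lf, eg, ra, rb`, `GF.LBM.T_mono, cv_mono, ...`.  Products are compositions.
-/

set_option autoImplicit false

namespace FPT.GF.AF

open Set FPT FPT.GF

/-- marked elements of the families -/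
structure Mk (p : ME) : Prop where
  pl : IsPL p.1
  ne : p.1 ≠ 1
  fd : Fund p.1 p.2

/-- `q` is a piece of `p`: a union of bumps with the same markers -/
structure Pc (q p : ME) : Prop where
  val : ∀ w, q.1 w = p.1 w ∨ q.1 w = w
  dom : q.2 = p.2 ∩ sp q.1

/-- families -/
structure Fam (Z : Set ME) : Prop where
  fin : Z.Finite
  mks : ∀ p ∈ Z, Mk p
  dis : ∀ p ∈ Z, ∀ q ∈ Z, p ≠ q → Disjoint (Ft p) (Ft q)

/-- `W` is a family of pieces of elements of `Z` -/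
structure Sub (W Z : Set ME) : Prop where
  fam : Fam W
  pc : ∀ r ∈ W, ∃ p ∈ Z, Pc r p

/-- copies of type D -/
def TD (x0 : ME) (m : ℤ) (Z : Set ME) : Set ME :=
  {r | ∃ p ∈ Z, ∃ q, Mk q ∧ Pc q p ∧ Ins x0 q ∧ r = cj (x0.1 ^ m) q}

/-- pieces of type J -/
def TJ (x0 : ME) (Z : Set ME) : Set ME :=
  {r | ∃ p ∈ Z, Pc r p ∧ ∀ w ∈ cv (Ft r), w ∈ cv (Ft x0) ∧ x0.1 w = w}

/-- `W` is obtained from `Z` by a move -/
def Stp (W Z : Set ME) : Prop :=
  Fam W ∧ ∃ x ∈ Z, ∃ x0, Mk x0 ∧ Pc x0 x ∧ ∃ M : ℕ,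
    ∀ r ∈ W, (∃ m : ℤ, |m| ≤ M ∧ r ∈ TD x0 m Z) ∨ r ∈ TJ x0 Z

/-- label at most `c` -/
def Lb (c : ℕ) (A B : Set ℝ) : Prop := T A B c = ∅ ∧ T B A c = ∅

/-- a fixed point of `g` between any point of `S` and any point off `S` -/
def Sep (g : Hm) (S : Set ℝ) : Prop := ∀ w ∈ S, ∀ v, v ∉ S → ∃ t ∈ uIcc w v, g t = t

open Classical in
/-- the identity on `S` and `g` off `S` (if `Sep g S`) -/
noncomputable def off (g : Hm) (S : Set ℝ) : Hm :=
  if h : ∃ q : Hm, (∀ w ∈ S, q w = w) ∧ (∀ w, w ∉ S → q w = g w) then h.choose else 1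

/-- the corresponding marked element -/
noncomputable def pz (p : ME) (S : Set ℝ) : ME := (off p.1 S, p.2 ∩ sp (off p.1 S))

/-! ### Pieces and labels -/

/-- OF (no hypotheses).  `q w = w` on `S`, `g w` off `S`, is a bijection: `g S = S` (`w ∈ S`, `g w ∉ S`: a fixed point `t`
between `w` and `g w`, so `t = g w` or `t = w`: contradiction; the same for `g⁻¹` and for the complement).  Strictly
monotone: `w < v`, `w ∈ S`, `v ∉ S`, `t ∈ [w,v]` fixed: `w ≤ t ≤ g v`, equality in both would give `g v = w = t`, so `v = t = w`.  Build an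
`OrderIso` (e.g. `StrictMono.orderIsoOfSurjective`).  `pl`: at `x`, right side: `g y = g x + 2^k (y - x)` on `[x,x+ε]`.  If `g x ≠ x`: on a smaller
interval `g` has no fixed point, so (Sep) the interval is in `S` or off `S`.  If `g x = x`, `k = 0`: `g = id` there, so
`q = id`.  If `g x = x`, `k ≠ 0`: no fixed point of `g` in `(x,x+ε]`, so `(x,x+ε] ⊆ S` or off `S`; `q x = x`.  Left side: the same.
`mkp`: `Fund`: the markers in `sp q`, `q = off p.1 S`: an orbital of `p.1` is in `S` or off `S` by Sep. -/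
structure SpecOF : Prop where
  a : ∀ (g : Hm) (S : Set ℝ), Sep g S → ∀ w ∈ S, off g S w = w
  b : ∀ (g : Hm) (S : Set ℝ), Sep g S → ∀ w, w ∉ S → off g S w = g w
  pl : ∀ (g : Hm) (S : Set ℝ), Sep g S → IsPL g → IsPL (off g S)
  mkp : ∀ (p : ME) (S : Set ℝ), Sep p.1 S → Mk p → off p.1 S ≠ 1 → Mk (pz p S)
  pc : ∀ (p : ME) (S : Set ℝ), Sep p.1 S → Pc (pz p S) p

/-- PC (no hypotheses).  `nice`: GF.MainM.ni.  `orb`: on the segment from `w` to `v` the closed sets `{q = p}` and `{q = id}` cover and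
are disjoint; the segment is connected (isPreconnected_uIcc / isPreconnected_Icc), `w` is in the first.
`mkc`: `Fund` is invariant under conjugation (markers `h '' m`).  `bl`: BLOCK LEMMA: if `w, v ∈ K`, `p w ≠ w`, `p v = v`, say `w < v`: let `z` = first fixed point of
`p` after `w` (`w < z ≤ v`); by `Nice.adL` points of `K` just left of `z` are in `Ft p`.  So all or no points of `K` are moved.
`dc`: two points of `D_p` in the same bump have the same marker, and the interval of this marker is convex. -/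
structure SpecPC : Prop where
  nice : ∀ p, Mk p → Nice p
  refl : ∀ p, Mk p → Pc p p
  trans : ∀ r q p, Pc q p → Pc r q → Pc r p
  sp : ∀ q p, Pc q p → sp q.1 ⊆ sp p.1
  ft : ∀ q p, Pc q p → Ft q = Ft p ∩ GF.sp q.1
  conj : ∀ (h : Hm) q p, Pc q p → Pc (cj h q) (cj h p)
  mkc : ∀ (h : Hm) p, IsPL h → Mk p → Mk (cj h p)
  famc : ∀ (h : Hm) Z, IsPL h → Fam Z → Fam (cj h '' Z)
  orb : ∀ q p, Pc q p → ∀ w v, q.1 w ≠ w → (∀ t ∈ uIcc w v, p.1 t ≠ t) → q.1 v = p.1 v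
  bl : ∀ p, Mk p → ∀ K : Set ℝ, K.OrdConnected → Disjoint K (Ft p) →
    K ⊆ p.2 ∨ ∀ w ∈ K, p.1 w = w
  dc : ∀ p, Mk p → ∀ a b, a ∈ p.2 → b ∈ p.2 → (∀ t ∈ uIcc a b, p.1 t ≠ t) → uIcc a b ⊆ p.2

/-- LC (hypothesis SpecPC).  The label lemma.  (B) if `A ⊆ cv B` then `T A B (n+1) = T B A n`... precisely: `T A B 1 = cv (A ∩ cv B) = cv A = T B A 0`,
induction.  (C) always `T A B (n+1) ⊆ T B A n`.
`fin`: GF.MainM.lf for both orders, `anti`.  `one`: `w ∈ cv A ∩ cv B`, `a1 ≤ w ≤ a2`, `b1 ≤ w ≤ b2`; `T A B 1 = ∅`: no `a ∈ cv B`, `T B A 1 = ∅`: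
no `b ∈ cv A`; compare `a1, b1`: the larger one is in the hull of the other set.
`dd`: `X = Ft x0`, `P = Ft q1 ⊆ D_x0 ⊆ cv X`, `Q = Ft q2`.  Conjugate by `x0^-m`: `A = P`, `B = x0^j Q`, `j = m' - m ≠ 0`, `B ⊆ X` (png).  `T P X (c+1) = ∅`
and (B) give `T X P c = ∅`, so `T B A c ⊆ T X P c = ∅`.  Symmetrically for `T A B c` (conjugate by `x0^-m'`).
`dd'`: `T B A c = ∅` as before; `T A B (c+1) ⊆ T B A c` (C), `T B A (c+1) ⊆ T B A c`.
`dj'`: `A = Ft (copy) ⊆ sp x0`, `B = Ft r`, `cv B ⊆ Fix x0`: `A ∩ cv B = ∅`, `T A B 1 = ∅`; `T B A 1 ⊆ cv B`, so `T B A 2 = ∅`.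
`dj`: `c ≥ 2`: by `dj'` and monotonicity.  `c = 1`: `T P X 2 = ∅ = T X P 1`, so `X ∩ cv P = ∅`.  `cv P` contains no fixed point `w` of `x0`:
`p1 < w < p2`, `p1 ∈ P`, moved; first fixed point `z` after `p1`, `z ≤ w`, points just left of `z` are in `X` (adL) and in `cv P`.  So
`cv A = x0^m cv P` contains no fixed point of `x0`; `B ⊆ Fix x0`: `T B A 1 = ∅`. -/
structure SpecLC : Prop where
  symm : ∀ c A B, Lb c A B → Lb c B A
  mono : ∀ c d A B, c ≤ d → Lb c A B → Lb d A B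
  sub : ∀ c A B A' B', A' ⊆ A → B' ⊆ B → Lb c A B → Lb c A' B'
  im : ∀ (h : Hm) c A B, Lb c (h '' A) (h '' B) ↔ Lb c A B
  fin : ∀ p q, Mk p → Mk q → Disjoint (Ft p) (Ft q) → ∃ c, Lb c (Ft p) (Ft q)
  one : ∀ A B, Lb 1 A B → ∀ w ∈ cv A, w ∉ cv B
  dd : ∀ x0 q1 q2, Mk x0 → Ins x0 q1 → Ins x0 q2 → ∀ m m' : ℤ, m ≠ m' → ∀ c : ℕ,
    Lb (c + 1) (Ft x0) (Ft q1) → Lb (c + 1) (Ft x0) (Ft q2) →
    Lb c (Ft (cj (x0.1 ^ m) q1)) (Ft (cj (x0.1 ^ m') q2))
  dd' : ∀ x0 q1 q2, Mk x0 → Ins x0 q1 → Ins x0 q2 → ∀ m m' : ℤ, m ≠ m' → ∀ c : ℕ,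
    Lb (c + 1) (Ft x0) (Ft q1) →
    Lb (c + 1) (Ft (cj (x0.1 ^ m) q1)) (Ft (cj (x0.1 ^ m') q2))
  dj : ∀ x0 q r, Mk x0 → Ins x0 q → (∀ w ∈ cv (Ft r), x0.1 w = w) → ∀ (m : ℤ) (c : ℕ), 1 ≤ c →
    Lb (c + 1) (Ft x0) (Ft q) → Lb c (Ft (cj (x0.1 ^ m) q)) (Ft r)
  dj' : ∀ x0 q r, Mk x0 → Ins x0 q → (∀ w ∈ cv (Ft r), x0.1 w = w) → ∀ m : ℤ,
    Lb 2 (Ft (cj (x0.1 ^ m) q)) (Ft r)

/-- CO (hypotheses SpecPC, SpecLC).  Every play is finite.  The double induction of `GF/CO.lean` with the new labels; see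
/team-store/MP_c27bde_al_ALLFAST_h17.md, section 2. -/
def SpecCO : Prop := ∀ Z : Set ME, Fam Z → Acc Stp Z

/-! ### Blocks and the splitting lemma -/

/-- `g` preserves the block `j` -/
def Prs (g : Hm) (j : ℝ × ℝ) : Prop := g j.1 = j.1 ∧ g j.2 = j.2

/-- blocks -/
structure Blk (Z : Set ME) (J : Set (ℝ × ℝ)) : Prop where
  fam : Fam Z
  lt : ∀ j ∈ J, j.1 < j.2
  dj : ∀ j ∈ J, ∀ k ∈ J, j ≠ k → Disjoint (Icc j.1 j.2) (Icc k.1 k.2)
  dich : ∀ p ∈ Z, ∀ j ∈ J, Prs p.1 j ∨ Icc j.1 j.2 ⊆ p.2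

/-- the union of the (open) blocks preserved by `g` -/
def Pr (J : Set (ℝ × ℝ)) (g : Hm) : Set ℝ := {w | ∃ j ∈ J, Prs g j ∧ j.1 < w ∧ w < j.2}

/-- `p` off the blocks it preserves -/
noncomputable def po (J : Set (ℝ × ℝ)) (p : ME) : ME := pz p (Pr J p.1)

/-- `p` on the block `j` -/
noncomputable def pin (p : ME) (j : ℝ × ℝ) : ME := pz p (Ioo j.1 j.2)ᶜ

/-- the outer group -/
def Ho (Z : Set ME) (J : Set (ℝ × ℝ)) : Subgroup Hm :=
  Subgroup.closure {g | ∃ p ∈ Z, g = (po J p).1}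

/-- the big group -/
def Hp (Z : Set ME) (J : Set (ℝ × ℝ)) : Subgroup Hm :=
  Subgroup.closure ({g | ∃ p ∈ Z, g = (po J p).1} ∪
    {g | ∃ p ∈ Z, ∃ j ∈ J, Prs p.1 j ∧ g = (pin p j).1})

/-- the group generated by the elements of `Z` that preserve the block `j` -/
def Ri (Z : Set ME) (j : ℝ × ℝ) : Subgroup Hm :=
  Subgroup.closure {g | ∃ p ∈ Z, Prs p.1 j ∧ g = p.1}

/-- the complement of the translates of the open blocks -/
def EE (Z : Set ME) (J : Set (ℝ × ℝ)) : Set ℝ :=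
  {w | ∀ g ∈ Ho Z J, ∀ j ∈ J, ∀ v, j.1 < v → v < j.2 → g v ≠ w}

/-- BK (hypotheses SpecOF, SpecPC).  Basic facts on `po`, `pin`.  `Sep p.1 (Pr J p.1)` and `Sep p.1 (Ioo j.1 j.2)ᶜ` for `Prs p.1 j` (the end points of the
blocks are fixed).  `pd`: the block `j` is disjoint from the feet of `po p`, more precisely: if `p` preserves `j` then `po p` is trivial on
the closed block, otherwise the closed block is in `p.2` and in `sp (po p)` (it is disjoint from the closed blocks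
preserved by `p`: Blk.dj, and `p` moves its points). -/
structure SpecBK : Prop where
  s1 : ∀ (Z : Set ME) (J : Set (ℝ × ℝ)), Blk Z J → ∀ p ∈ Z, Sep p.1 (Pr J p.1)
  s2 : ∀ (Z : Set ME) (J : Set (ℝ × ℝ)), Blk Z J → ∀ p ∈ Z, ∀ j ∈ J, Prs p.1 j →
    Sep p.1 (Ioo j.1 j.2)ᶜ
  pl1 : ∀ (Z : Set ME) (J : Set (ℝ × ℝ)), Blk Z J → ∀ p ∈ Z, IsPL (po J p).1
  pl2 : ∀ (Z : Set ME) (J : Set (ℝ × ℝ)), Blk Z J → ∀ p ∈ Z, ∀ j ∈ J, Prs p.1 j →
    IsPL (pin p j).1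
  mk1 : ∀ (Z : Set ME) (J : Set (ℝ × ℝ)), Blk Z J → ∀ p ∈ Z, (po J p).1 ≠ 1 → Mk (po J p)
  mk2 : ∀ (Z : Set ME) (J : Set (ℝ × ℝ)), Blk Z J → ∀ p ∈ Z, ∀ j ∈ J, Prs p.1 j →
    (pin p j).1 ≠ 1 → Mk (pin p j)
  pc1 : ∀ (Z : Set ME) (J : Set (ℝ × ℝ)), Blk Z J → ∀ p ∈ Z, Pc (po J p) p
  pc2 : ∀ (Z : Set ME) (J : Set (ℝ × ℝ)), Blk Z J → ∀ p ∈ Z, ∀ j ∈ J, Prs p.1 j →
    Pc (pin p j) p
  o1 : ∀ (Z : Set ME) (J : Set (ℝ × ℝ)), Blk Z J → ∀ p ∈ Z, ∀ j ∈ J, Prs p.1 j →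
    ∀ w ∈ Icc j.1 j.2, (po J p).1 w = w
  o2 : ∀ (Z : Set ME) (J : Set (ℝ × ℝ)), Blk Z J → ∀ p ∈ Z, ∀ w, w ∉ Pr J p.1 →
    (po J p).1 w = p.1 w
  o3 : ∀ (Z : Set ME) (J : Set (ℝ × ℝ)), Blk Z J → ∀ p ∈ Z, ∀ j ∈ J, ¬ Prs p.1 j →
    Icc j.1 j.2 ⊆ (po J p).2
  i1 : ∀ (Z : Set ME) (J : Set (ℝ × ℝ)), Blk Z J → ∀ p ∈ Z, ∀ j ∈ J, Prs p.1 j →
    ∀ w ∈ Icc j.1 j.2, (pin p j).1 w = p.1 w
  i2 : ∀ (Z : Set ME) (J : Set (ℝ × ℝ)), Blk Z J → ∀ p ∈ Z, ∀ j ∈ J, Prs p.1 j →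
    ∀ w, w ∉ Ioo j.1 j.2 → (pin p j).1 w = w
  pls : ∀ (Z : Set ME) (J : Set (ℝ × ℝ)), Blk Z J → PLs (Hp Z J) ∧ PLs (Ho Z J) ∧
    Ho Z J ≤ Hp Z J ∧ ∀ j, Ri Z j ≤ cl Z

/-- PP (hypotheses SpecPC, SpecBK).  PING-PONG.  Fix the block `i`, `K = Icc i.1 i.2`.  Inductive predicate
`Path o f` (`o : Option ME`, `f ∈ Hm`): `Path none 1`; if `Path o f`, `b ∈ Z`, `o ≠ some b`, `f '' K ⊆ (po J b).2`, `n ≠ 0` then
`Path (some b) ((po J b).1 ^ n * f)`.
(1) `Path o f`: if `o = some b` then `f '' K ⊆ Ft (po J b)` (Nice.png; `(po J b).1 ≠ 1` since `(po J b).2 ⊆ sp` is non-empty).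
(2) `Path o f`, `b ∈ Z`, `o ≠ some b`: `f '' K` is disjoint from `Ft (po J b)` (`o = none`: BK.o1, o3; `o = some b'`: (1), Fam.dis,
`Ft (po J b) ⊆ Ft b`), so (PC.bl) `f '' K ⊆ (po J b).2` or `po J b` is trivial on `f '' K` (trivial if `(po J b).1 = 1`).
(3) for every `g ∈ Ho` there are `o, f` with `Path o f`, `g = f` on `K`: closure induction on the left (Subgroup.closure_induction_left or
the like) with letters `(po J b).1^{±1}`; if `o ≠ some b` use (2); if `o = some b`, `f = (po J b)^n0 * f0`: the letter changes `n0` to `n0 ± 1`; if it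
is `0` the result is `f0`.  (Keep in `Path (some b) f` the data `n0, o0, f0`: case analysis on the inductive predicate.)
(4) `g w ∈ Icc j`, `w ∈ K`: `f w` is in the block `j`, which is disjoint from all `Ft (po J b)`: so `o = none`, `f = 1`, `g = id` on `K`, and
`w` is in both blocks, so `i = j` (Blk.dj). -/
def SpecPP : Prop := ∀ (Z : Set ME) (J : Set (ℝ × ℝ)), Blk Z J → ∀ g ∈ Ho Z J, ∀ i ∈ J, ∀ j ∈ J,
  ∀ w ∈ Icc i.1 i.2, g w ∈ Icc j.1 j.2 → i = j ∧ ∀ v ∈ Icc i.1 i.2, g v = v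

/-- HP (hypotheses SpecBK, SpecPP).  Induction on `h ∈ Hp` (generators and their inverses).  `h = (po J p).1^{±1}`: `g' = h * g`, `r = 1`.
`h = (pin p j).1^{±1}`: if `g '' Icc i` does not meet `Icc j` then `h` is trivial on it (BK.i2): `g' = g`, `r = 1`.  Otherwise PP: `i = j`,
`g = id` on the block: `g' = 1`, `r = p.1^{±1}` (BK.i1; `h` preserves the block).  Products: `r` preserves the closed block `i`. -/
def SpecHP : Prop := ∀ (Z : Set ME) (J : Set (ℝ × ℝ)), Blk Z J → ∀ h ∈ Hp Z J, ∀ i ∈ J,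
  ∀ g ∈ Ho Z J, ∃ g' ∈ Ho Z J, ∃ r ∈ Ri Z i, r i.1 = i.1 ∧ r i.2 = i.2 ∧
    ∀ v ∈ Icc i.1 i.2, h (g v) = g' (r v)

/-- EH (hypotheses SpecBK, SpecPP).  `inv`: `EE` is invariant under `Ho` (definition) and under `(pin p j).1^{±1}`: for `w ∈ EE` we have `w ∉ Ioo j`
(`g = 1` in the definition), so it is fixed.  `ag`: closure induction: `(po J p).1 = p.1` off `Pr J p.1`, and `w ∈ EE` is not in an open
block; `(pin p j).1 = 1` on `EE`; products and inverses by `inv`. -/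
structure SpecEH : Prop where
  inv : ∀ (Z : Set ME) (J : Set (ℝ × ℝ)), Blk Z J → ∀ h ∈ Hp Z J, ∀ w ∈ EE Z J, h w ∈ EE Z J
  ag : ∀ (Z : Set ME) (J : Set (ℝ × ℝ)), Blk Z J → ∀ h ∈ Hp Z J, ∃ k ∈ cl Z,
    ∀ w ∈ EE Z J, h w = k w

/-- C1 (hypotheses SpecBK, SpecPP, SpecHP).  The orbital `(a,b)` of `G` is inside a translate `g '' Icc i`.  For `k ∈ G`: HP gives `k g = g' r` on the block;
`a = g a'`, `k a = a`: `g' (r a') = g a'`, so PP for `g⁻¹ g'` at `r a'`: `g' = g` on the block.  So `k g = g r` on the block: `r = g⁻¹ k g` there.  Let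
`G' = {r ∈ Ri Z i | r preserves the block, ∃ k ∈ G, ∀ v ∈ Icc i, k (g v) = g (r v)}` (a subgroup, `≤ cl Z`).  `a' = g⁻¹ a`, `b' = g⁻¹ b` are fixed by
`G'`, no point in between is.  The element `r` of `h`: `er r a' = er (g⁻¹ h g) a'` (the two functions agree on `[a',b']`; PL2.er0', er0 or PLB.erU) `= 0`,
so `Bal (cl Z)` gives `el r b' = 0`, so `el h b = 0` (PL2.elC; or directly: `r` trivial near `b'` gives `h` trivial near `b`: el0, el0'). -/
def SpecC1 : Prop := ∀ (Z : Set ME) (J : Set (ℝ × ℝ)), Blk Z J → Bal (cl Z) →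
  ∀ G : Subgroup Hm, G ≤ Hp Z J → ∀ a b : ℝ, a < b → (∀ g ∈ G, g a = a) → (∀ g ∈ G, g b = b) →
  (∀ u, a < u → u < b → ∃ g ∈ G, g u ≠ u) → ∀ i ∈ J, ∀ g ∈ Ho Z J, g i.1 ≤ a → b ≤ g i.2 →
  ∀ h ∈ G, er h a = 0 → el h b = 0

/-- C2 (hypotheses SpecBK, SpecPP, SpecHP, SpecEH).  The orbital `(a,b)` of `G` is in no translate.
(1) if the open translate `g '' Ioo i` = `(c,d)` (`c = g i.1`, `d = g i.2`) meets `(a,b)` then `a < c` and `d < b`: by hypothesis not (`c ≤ a` and `b ≤ d`); suppose `a < c < b` and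
`b ≤ d`: for `k ∈ G`, `k b = b`, HP: `k g = g' r` on the block, `b ∈ g '' Icc i ∩ g' '' Icc i`, so PP gives `g' = g` on the block, `k c = k (g i.1) = g (r i.1) = c`
for all `k ∈ G`: contradiction to `a < c < b`.  Similarly `c ≤ a < d < b`.
(2) So `a, b ∈ EE`.  For `w ∈ (a,b)` either `w ∈ EE` or `w` is in an open translate `(c,d)` with `a < c`, `d < b`, `c, d ∈ EE` (translates with a common point are equal: PP; so
an end point of a translate is in no open translate).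
(3) `G1 = {k ∈ cl Z | ∃ g ∈ G, ∀ w ∈ EE, k w = g w}` is a subgroup (EH.inv), fixes `a`, `b`.  No common fixed point in `(a,b)`: `w ∈ EE`: take `g ∈ G` with `g w ≠ w` and
EH.ag.  `w ∈ (c,d)`: take `g ∈ G` with `g c ≠ c` and `k` from EH.ag: `k c = g c`, `k d = g d`; the translates `[c,d]` and `[g c, g d]` are different (HP), so disjoint (PP), so `k w ≠ w`.
(4) `h ∈ G`, `er h a = 0`: `k` = EH.ag of `h`.  `h` is trivial on `[a,a+ε]` (er0); `k` fixes points of `(a,a+ε]` arbitrarily near `a` (points of `EE`, by (2): if `w` is not in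
`EE`, take `c`), so `er k a = 0` (erp, ern).  `Bal`: `el k b = 0`, `k` trivial near `b`, so `h` fixes points of `EE` arbitrarily near `b`, so `el h b = 0` (elp, eln). -/
def SpecC2 : Prop := ∀ (Z : Set ME) (J : Set (ℝ × ℝ)), Blk Z J → Bal (cl Z) →
  ∀ G : Subgroup Hm, G ≤ Hp Z J → ∀ a b : ℝ, a < b → (∀ g ∈ G, g a = a) → (∀ g ∈ G, g b = b) →
  (∀ u, a < u → u < b → ∃ g ∈ G, g u ≠ u) →
  (∀ i ∈ J, ∀ g ∈ Ho Z J, ¬ (g i.1 ≤ a ∧ b ≤ g i.2)) →
  ∀ h ∈ G, er h a = 0 → el h b = 0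

/-- SL = C1 + C2 -/
def SpecSL : Prop := ∀ (Z : Set ME) (J : Set (ℝ × ℝ)), Blk Z J → Bal (cl Z) → Bal (Hp Z J)

/-! ### Existence of the blocks -/

/-- one orbital -/
structure Sgl (Z : Set ME) (α β : ℝ) : Prop where
  fam : Fam Z
  ab : α < β
  out : ∀ p ∈ Z, ∀ w, w ≤ α ∨ β ≤ w → p.1 w = w
  mov : ∀ w, α < w → w < β → ∃ p ∈ Z, p.1 w ≠ w
  bal : Bal (cl Z)

/-- `u` is the first fixed point of `x` -/
structure Ux (Z : Set ME) (α β : ℝ) (x : ME) (u : ℝ) : Prop where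
  sgl : Sgl Z α β
  mem : x ∈ Z
  au : α < u
  ub : u < β
  fx : x.1 u = u
  mv : ∀ t, α < t → t < u → x.1 t ≠ t

/-- gaps of the closure of the orbit of `u` -/
structure Gap (Z : Set ME) (α β u : ℝ) (j : ℝ × ℝ) : Prop where
  l : α < j.1
  lt : j.1 < j.2
  r : j.2 < β
  no : ∀ g ∈ cl Z, ¬ (j.1 < g u ∧ g u < j.2)
  al : ∀ ε > 0, ∃ g ∈ cl Z, j.1 - ε < g u ∧ g u ≤ j.1
  ar : ∀ ε > 0, ∃ g ∈ cl Z, j.2 ≤ g u ∧ g u < j.2 + ε

/-- the gaps that contain a fixed interval of `x` -/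
def JJ (Z : Set ME) (α β u : ℝ) (x : ME) : Set (ℝ × ℝ) :=
  {j | Gap Z α β u j ∧ ∃ e f, e < f ∧ j.1 ≤ e ∧ f ≤ j.2 ∧ ∀ t, e ≤ t → t ≤ f → x.1 t = t}

/-- GA (no hypotheses).  `i`: let `g u ∈ (e,f)`, `x` trivial on `(e,f)`.  `w = g⁻¹ x g` is trivial near `u` (on both sides), `er w α = er x α` (PL2.erC,
`g α = α`).  `G = closure {x, w}` fixes `α`, `u`; `x` moves all points of `(α,u)`.  `f0 = x w⁻¹`: `er f0 α = 0` (erM, erI), `el f0 u = el x u ≠ 0`
(`el x u = 0` would make `x` trivial left of `u`).  Contradiction to `Sgl.bal`.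
`ac`: by ORD.orbL there is `k ∈ cl Z` with `z = k u < u`, `z > α`; `x^n z → u` or `x^{-n} z → u` (ORD.dir, itR, itL' on `(α,u)`), these are `< u`; apply `g` (continuous, monotone).
`gp`: clear (`g` is monotone and continuous, `cl Z` is a group, `g α = α`, `g β = β`).
`dj`: if `j, k` are gaps and `Icc`'s meet: an end of `k` in the open interval `j` is impossible (`al`, `ar` give orbit points in `j`); similarly with `j, k` exchanged; so `j = k`, or
`j.2 = k.1` (or `k.2 = j.1`): `j.2` is a limit of orbit points from `[j.2, ..)`, none in `(k.1,k.2)`, so `j.2 = g u`; by `ac` there are orbit points in `(j.1,j.2)`. -/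
structure SpecGA : Prop where
  i : ∀ (Z : Set ME) (α β u : ℝ) (x : ME), Ux Z α β x u → ∀ g ∈ cl Z, ∀ e f, e < g u → g u < f →
    ∃ t, e < t ∧ t < f ∧ x.1 t ≠ t
  ac : ∀ (Z : Set ME) (α β u : ℝ) (x : ME), Ux Z α β x u → ∀ g ∈ cl Z, ∀ ε > 0,
    ∃ k ∈ cl Z, g u - ε < k u ∧ k u < g u
  fa : ∀ (Z : Set ME) (α β : ℝ), Sgl Z α β → ∀ g ∈ cl Z, g α = α ∧ g β = β ∧ IsPL g
  gp : ∀ (Z : Set ME) (α β u : ℝ), Sgl Z α β → ∀ j, Gap Z α β u j → ∀ g ∈ cl Z,
    Gap Z α β u (g j.1, g j.2)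
  dj : ∀ (Z : Set ME) (α β u : ℝ) (x : ME), Ux Z α β x u → ∀ j k, Gap Z α β u j →
    Gap Z α β u k → j ≠ k → Disjoint (Icc j.1 j.2) (Icc k.1 k.2)

/-- GB (hypothesis SpecGA).  `ex`: `c = sSup {g u | g u ≤ e}`, `d = sInf {g u | f ≤ g u}` (non-empty by ORD.orbL, orbR; no orbit point in `(e,f)` by GA.i).
`pr`: `x` fixes a point of the open interval `j`, and `(x j.1, x j.2)` is a gap (GA.gp), so it is `j` (GA.dj).
`mr`: otherwise `er x j.2 = 0`, `x` is trivial on `[j.2, j.2+ε]`; an orbit point in `[j.2, j.2+ε)` (`ar`) is `j.2` by GA.i, so by GA.ac there is one in `(j.1,j.2)`: contradiction to `no`.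
So `er x j.2 ≠ 0`, and `x` moves all points of some `(j.2, v)` (erp, ern).  `ml`: otherwise `x` is trivial on `[j.1-ε,j.1]`; an orbit point in `(j.1-ε,j.1]` (`al`) is `j.1`
by GA.i, and by GA.ac there is one in `(j.1-ε,j.1)`: contradiction to GA.i.
`fin`: `j ↦ j.2` is injective on `JJ` (GA.dj) with values in the finite set `{t | x t = t ∧ er x t ≠ 0}` (PLB.fixR). -/
structure SpecGB : Prop where
  ex : ∀ (Z : Set ME) (α β u : ℝ) (x : ME), Ux Z α β x u → ∀ e f, α < e → e < f → f < β →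
    (∀ t, e ≤ t → t ≤ f → x.1 t = t) → ∃ j ∈ JJ Z α β u x, j.1 ≤ e ∧ f ≤ j.2
  pr : ∀ (Z : Set ME) (α β u : ℝ) (x : ME), Ux Z α β x u → ∀ j ∈ JJ Z α β u x, Prs x.1 j
  mr : ∀ (Z : Set ME) (α β u : ℝ) (x : ME), Ux Z α β x u → ∀ j ∈ JJ Z α β u x,
    ∃ v, j.2 < v ∧ ∀ t, j.2 < t → t < v → x.1 t ≠ t
  ml : ∀ (Z : Set ME) (α β u : ℝ) (x : ME), Ux Z α β x u → ∀ j ∈ JJ Z α β u x,
    ∃ v, v < j.1 ∧ ∀ t, v < t → t < j.1 → x.1 t ≠ t
  fin : ∀ (Z : Set ME) (α β u : ℝ) (x : ME), Ux Z α β x u → (JJ Z α β u x).Finite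

/-- what is needed for the induction step -/
structure Asm (Z : Set ME) (J : Set (ℝ × ℝ)) (x : ME) : Prop where
  blk : Blk Z J
  fin : J.Finite
  mem : x ∈ Z
  pr : ∀ j ∈ J, Prs x.1 j
  ne : (po J x).1 ≠ 1
  td : ∀ p ∈ Z, p ≠ x → Ft (po J p) ⊆ (po J x).2
  tj : ∀ j ∈ J, ∀ w ∈ Icc j.1 j.2, w ∈ cv (Ft (po J x)) ∧ (po J x).1 w = w

/-- GC (hypotheses SpecPC, SpecGA, SpecGB).  `JJ` is a set of blocks.  `dich`: `p ∈ Z`, `j ∈ JJ`, `(p j.1, p j.2)` is a gap: equal to `j` (then Prs) or disjoint from it (GA.dj);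
then `p` has no fixed point in `Icc j`; `p` moves points near `j.1` and `j.2` (continuity); just left of `j.1` and just right of `j.2` there are points of `Ft x`
(GB.ml, mr, Nice.adL, adR), so not of `Ft p` (`p ≠ x` by GB.pr), so of `p.2`; PC.dc. -/
def SpecGC : Prop := ∀ (Z : Set ME) (α β u : ℝ) (x : ME), Ux Z α β x u → Blk Z (JJ Z α β u x)

/-- GD (hypotheses SpecPC, SpecOF, SpecBK, SpecGA, SpecGB, SpecGC).  `Asm` for `J = JJ`.  `ne`: `po x = x` near `α` (`j.1 > α` for all `j ∈ J`, `J` finite; or at a point just left of a `j.1`, or at any point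
of `(α,u)`: it is not in a block `j ∈ JJ` since `x` moves `(α,u)` and fixes `j.1`, so `u ≤ j.1`).  `tj`: trivial on the closed blocks (BK.o1, GB.pr); `cv (Ft (po J x))`: points of
`Ft x` just left of `j.1` and just right of `j.2` (GB.ml, mr; `po J x` has the same germs there: these points are not in a block: blocks have fixed end points, use Nice.adL, adR for
`po J x`, Mk by BK.mk1).
`td`: `w ∈ Ft (po J p)`, `p ≠ x`: so `w ∈ Ft p`, `α < w < β`, `po J p` moves `w`.  `w` is not in a closed block `j`: if `p` preserves `j`: BK.o1; otherwise `Icc j ⊆ p.2`.  If `x w = w`: `x` is not trivial on an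
interval `[e,f] ∋ w` (GB.ex), so `er x w ≠ 0` and `el x w ≠ 0`, so there are points of `Ft x` arbitrarily near `w` on both sides; but `Ft p` contains all points near `w` on one
side (`w ∈ Ft p`: the foot is an interval `(u,s)` or `[p s,v)`): contradiction.  So `x w ≠ w`, `po J x` moves `w` (not in a block), `w ∉ Ft x`, so `w ∈ x.2`, `w ∈ (po J x).2`. -/
def SpecGD : Prop := ∀ (Z : Set ME) (α β u : ℝ) (x : ME), Ux Z α β x u → Asm Z (JJ Z α β u x) x

/-- EX (hypotheses SpecPC, SpecOF, SpecBK, SpecGA, SpecGD).  There is `x ∈ Z` with `er x.1 α ≠ 0` (otherwise all are trivial on some `(α,α+ε)`); then `el x.1 β ≠ 0`: there is `y ∈ Z` with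
`el y β ≠ 0`, if `el x β = 0` then `er y α ≠ 0` (Bal) and `f = y^i x^j`, `i = er x α`, `j = - er y α`: `er f α = 0`, `el f β = i el y β ≠ 0`.  If `x` has a fixed point in `(α,β)`: `u` = the first one (ORD.first), GD.
Otherwise `J = ∅`: `Pr ∅ g = ∅`, `po ∅ p = p`; `td`: `w ∈ Ft p`: `α < w < β`, so `x w ≠ w`, `w ∉ Ft x`. -/
def SpecEX : Prop := ∀ (Z : Set ME) (α β : ℝ), Sgl Z α β → ∃ (J : Set (ℝ × ℝ)) (x : ME), Asm Z J x

/-! ### The induction -/

/-- AS (hypotheses SpecPC, SpecOF, SpecBK, SpecSL).  `x0 = po J x`.  `W M` = all `cj (x0.1^m) (po J p)`, `|m| ≤ M`, `p ∈ Z`, `p ≠ x`, `(po J p).1 ≠ 1`, and all `pin p j`, `p ∈ Z`, `j ∈ J`, `Prs p.1 j`, `(pin p j).1 ≠ 1`.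
Family: finite; feet of the copies with the same `m`: conjugate of pieces of different elements; different `m`: `x0^m D ∩ x0^m' D = ∅` (png); copies / pin: support of `x0` and `Fix x0`; pin / pin: pieces
of different elements or in different blocks.  `Stp (W M) Z` by Asm.td, Asm.tj (`cv (Ft (pin p j)) ⊆ Icc j`).  `cl (W M) ≤ Hp Z J`, SL: balanced, so EA by hypothesis.  `N` = closure of all
`cj (x0.1^m) (po J p)`, `m ∈ ℤ`, and all `pin p j`: EG.dir (a finite subset is in one `cl (W M)`), EG.mono; it is normalised by `x0.1^{±1}` (`x0` commutes with `pin p j`: disjoint supports).  EG.cyc: `EA (N ⊔ zpowers x0.1)`.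
`cl Z ≤ N ⊔ zpowers x0.1`: for `p ∈ Z`, `p.1 = (po J p).1 * ∏_j (pin p j).1` over the finitely many `j ∈ J` preserved by `p` (induction on a finite set of blocks: `p` on these blocks is in `N`).  EG.mono. -/
def SpecAS : Prop := ∀ (Z : Set ME) (J : Set (ℝ × ℝ)) (x : ME), Asm Z J x → Bal (cl Z) →
  (∀ W, Stp W Z → Bal (cl W) → EA ↥(cl W)) → EA ↥(cl Z)

/-- OR (hypotheses SpecPC, SpecOF).  Restriction to the orbitals, as GF.RC, RD: for an orbital `(a,b)` of `cl Z`: `Z' = {pz p (Ioo a b)ᶜ | p ∈ Z, off p.1 (Ioo a b)ᶜ ≠ 1}`; `Sub Z' Z`, `Sgl Z' a b`: `cl Z'` = the range of the restriction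
(GF.MainM.ra, rb: balanced).  Finitely many orbitals: left ends in `{t | p t = t ∧ er p t ≠ 0}`, `p ∈ Z`.  EG.hom. -/
def SpecOR : Prop := ∀ Z : Set ME, Fam Z → Bal (cl Z) →
  (∀ (Z' : Set ME) (α β : ℝ), Sub Z' Z → Sgl Z' α β → EA ↥(cl Z')) → EA ↥(cl Z)

/-- MA (hypotheses SpecPC, SpecCO, SpecEX, SpecAS, SpecOR).  Induction on `Acc Stp Z`; `Stp W Z'`, `Sub Z' Z` give `Stp W Z`. -/
def SpecMA : Prop := ∀ Z : Set ME, Fam Z → Bal (cl Z) → EA ↥(cl Z)

/-- FF (hypothesis SpecMA).  Finite subsets (EG.dir), `Z = {(g, D g) | g ∈ X0, g ≠ 1}`. -/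
def SpecFF : Prop := ∀ (X : Set Hm) (D : Hm → Set ℝ), (∀ g ∈ X, IsPL g) →
  Bal (Subgroup.closure X) → GFast X D → EA ↥(Subgroup.closure X)

end FPT.GF.AF
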